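import Pool.Agent.TH132.W.K2

/-!
# An unramified element of `K₂`
-/

noncomputable section

namespace Pool.Agent.TH132.W

open IsLocalRing

universe u v

section Calc

theorem rearr2 {G : Type*} [CommGroup G] (x y a r : G) :
    (x * y⁻¹) ^ 2 * a * r⁻¹ = (x ^ 2 * a) * (y ^ 2 * r)⁻¹ := by
  simp only [mul_pow, inv_pow, mul_inv, mul_comm, mul_left_comm, mul_assoc]

theorem final_calc {G : Type*} [Field G] (x y a ρ : Gˣ) (m n : ℤ)
    (h : (m = 0 ∧ n = 0) ∨ (n = 0 ∧ y ^ 2 = a) ∨ (m = 0 ∧ x ^ 2 = ρ) ∨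
      (m = n ∧ x ^ 2 * a = y ^ 2 * ρ)) :
    ((-1) ^ (m * n) * (x ^ n * (y ^ m)⁻¹)) ^ 2 * a ^ m * (ρ ^ n)⁻¹ = 1 := by
  have h1 : ((-1 : Gˣ) ^ (m * n)) ^ 2 = 1 := by
    rw [← zpow_natCast, ← zpow_mul]
    exact (Even.mul_left (by decide) _).neg_one_zpow
  rw [mul_pow, h1, one_mul]
  rcases h with ⟨rfl, rfl⟩ | ⟨rfl, rfl⟩ | ⟨rfl, rfl⟩ | ⟨rfl, h⟩
  · simp
  · simp only [zpow_zero, one_mul, inv_one, mul_one]
    rw [← zpow_natCast y, ← zpow_mul, ← zpow_neg, ← zpow_natCast, ← zpow_mul, ← zpow_add]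
    have : -m * ((2 : ℕ) : ℤ) + ((2 : ℕ) : ℤ) * m = 0 := by ring
    rw [this, zpow_zero]
  · simp only [zpow_zero, inv_one, mul_one]
    rw [← zpow_natCast x, ← zpow_mul, ← zpow_natCast, ← zpow_mul, mul_comm n, mul_inv_cancel]
  · have e1 : (x ^ m * (y ^ m)⁻¹) ^ 2 * a ^ m * (ρ ^ m)⁻¹ = (x ^ 2 * a) ^ m * ((y ^ 2 * ρ) ^ m)⁻¹ := by
      have hc : ∀ z : Gˣ, (z ^ 2) ^ m = (z ^ m) ^ 2 := by
        intro z
        rw [← zpow_natCast, ← zpow_natCast, ← zpow_mul, ← zpow_mul, mul_comm]
      rw [mul_zpow, mul_zpow, hc, hc]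
      exact rearr2 _ _ _ _
    rw [e1, h, mul_inv_cancel]

end Calc

section Alpha

variable {R : Type u} {L : Type v} [CommRing R] [IsDomain R] [IsDiscreteValuationRing R]
  [Field L] [Algebra R L] [IsFractionRing R L]

theorem ord_of_isUnit (ϖ : R) (hϖ : Irreducible ϖ) {u : R} (hu : IsUnit u) {U : Lˣ}
    (h : (U : L) = algebraMap R L u) :
    ord L ϖ hϖ U = 0 ∧ ((lc L ϖ hϖ U : (ResidueField R)ˣ) : ResidueField R) = residue R u := by
  obtain ⟨u, rfl⟩ := hu
  have : U = Units.map (algebraMap R L : R →* L) u := by ext; exact h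
  rw [this, ord_unit, lc_unit]
  exact ⟨rfl, rfl⟩

theorem alpha_tame (ϖ : R) (hϖ : Irreducible ϖ) (c d g1 g2 f3 p r a h : R) (hp : IsUnit p)
    (hr : IsUnit r) (ha : IsUnit a) (har : a * p = r)
    (hh : h = c ^ 2 + p * d ^ 2 - r) (h1 : c * g1 = d * h) (h2 : d * g2 = c * h)
    (h3 : g1 * g2 = h ^ 2) (h4 : d * f3 = (g2 - p * g1) * h)
    (C D A Q : Lˣ) (hC : (C : L) = algebraMap R L c) (hD : (D : L) = algebraMap R L d)
    (hA : (A : L) = algebraMap R L a) (hQ : (Q : L) = algebraMap R L r) :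
    tame L ϖ hϖ ((2 : ℤ) • sym C D - sym C A + sym D Q) = 0 := by
  have hA' := ord_of_isUnit (L := L) ϖ hϖ ha hA
  have hQ' := ord_of_isUnit (L := L) ϖ hϖ hr hQ
  have key : (ord L ϖ hϖ C = 0 ∧ ord L ϖ hϖ D = 0) ∨
      (ord L ϖ hϖ D = 0 ∧ lc L ϖ hϖ D ^ 2 = lc L ϖ hϖ A) ∨
      (ord L ϖ hϖ C = 0 ∧ lc L ϖ hϖ C ^ 2 = lc L ϖ hϖ Q) ∨
      (ord L ϖ hϖ C = ord L ϖ hϖ D ∧
        lc L ϖ hϖ C ^ 2 * lc L ϖ hϖ A = lc L ϖ hϖ D ^ 2 * lc L ϖ hϖ Q) := by
    have hp0 : residue R p ≠ 0 := (residue_ne_zero_iff_isUnit p).2 hp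
    have hrr : residue R a * residue R p = residue R r := by rw [← map_mul, har]
    by_cases hcu : IsUnit c
    · have hC' := ord_of_isUnit (L := L) ϖ hϖ hcu hC
      by_cases hdu : IsUnit d
      · exact Or.inl ⟨hC'.1, (ord_of_isUnit (L := L) ϖ hϖ hdu hD).1⟩
      · refine Or.inr (Or.inr (Or.inl ⟨hC'.1, ?_⟩))
        have hdm : residue R d = 0 := (residue_eq_zero_iff d).2 ((mem_maximalIdeal d).2 hdu)
        have hc0 : residue R c ≠ 0 := (residue_ne_zero_iff_isUnit c).2 hcu
        have e1 := congrArg (residue R) h2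
        rw [map_mul, map_mul, hdm, zero_mul] at e1
        have e2 : residue R h = 0 := by
          rcases mul_eq_zero.1 e1.symm with e | e
          · exact absurd e hc0
          · exact e
        rw [hh, map_sub, map_add, map_mul, map_pow, map_pow, hdm] at e2
        ext
        rw [Units.val_pow_eq_pow_val, hC'.2, hQ'.2]
        linear_combination e2
    · have hcm : residue R c = 0 := (residue_eq_zero_iff c).2 ((mem_maximalIdeal c).2 hcu)
      by_cases hdu : IsUnit d
      · have hD' := ord_of_isUnit (L := L) ϖ hϖ hdu hD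
        refine Or.inr (Or.inl ⟨hD'.1, ?_⟩)
        have hd0 : residue R d ≠ 0 := (residue_ne_zero_iff_isUnit d).2 hdu
        have e1 := congrArg (residue R) h1
        rw [map_mul, map_mul, hcm, zero_mul] at e1
        have e2 : residue R h = 0 := by
          rcases mul_eq_zero.1 e1.symm with e | e
          · exact absurd e hd0
          · exact e
        rw [hh, map_sub, map_add, map_mul, map_pow, map_pow, hcm] at e2
        ext
        rw [Units.val_pow_eq_pow_val, hD'.2, hA'.2]
        apply mul_left_cancel₀ hp0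
        linear_combination e2 - hrr
      · refine Or.inr (Or.inr (Or.inr ?_))
        have hdm : residue R d = 0 := (residue_eq_zero_iff d).2 ((mem_maximalIdeal d).2 hdu)
        have hr0 : residue R r ≠ 0 := (residue_ne_zero_iff_isUnit r).2 hr
        have e2 := congrArg (residue R) hh
        rw [map_sub, map_add, map_mul, map_pow, map_pow, hcm, hdm] at e2
        have hh0 : residue R h ≠ 0 := by
          rw [e2]
          intro h0
          apply hr0
          linear_combination -h0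
        have hhu : IsUnit h := (residue_ne_zero_iff_isUnit h).1 hh0
        have hg : IsUnit (g1 * g2) := by rw [h3]; exact hhu.pow 2
        have hg1 : IsUnit g1 := isUnit_of_mul_isUnit_left hg
        have e3 := congrArg (residue R) h4
        rw [map_mul, map_mul, map_sub, map_mul, hdm, zero_mul] at e3
        have e4 : residue R g2 = residue R p * residue R g1 := by
          rcases mul_eq_zero.1 e3.symm with e | e
          · exact sub_eq_zero.1 e
          · exact absurd e hh0
        have e5 := congrArg (residue R) h3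
        rw [map_mul, map_pow, e4] at e5
        -- the relation in the fraction field
        have hinj := IsFractionRing.injective R L
        let G : Lˣ := Units.mk0 (algebraMap R L g1) ((map_ne_zero_iff _ hinj).2 hg1.ne_zero)
        let H : Lˣ := Units.mk0 (algebraMap R L h) ((map_ne_zero_iff _ hinj).2 hhu.ne_zero)
        have hG' := ord_of_isUnit (L := L) (U := G) ϖ hϖ hg1 rfl
        have hH' := ord_of_isUnit (L := L) (U := H) ϖ hϖ hhu rfl
        have hrel : C * G = D * H := by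
          ext
          change (C : L) * algebraMap R L g1 = (D : L) * algebraMap R L h
          rw [hC, hD, ← map_mul, ← map_mul, h1]
        have o1 := congrArg (ord L ϖ hϖ) hrel
        rw [ord_mul, ord_mul, hG'.1, hH'.1, add_zero, add_zero] at o1
        have o2 := congrArg (fun z => ((lc L ϖ hϖ z : (ResidueField R)ˣ) : ResidueField R)) hrel
        simp only [map_mul, Units.val_mul] at o2
        rw [hG'.2, hH'.2] at o2
        refine ⟨o1, ?_⟩
        ext
        simp only [Units.val_mul, Units.val_pow_eq_pow_val]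
        rw [hA'.2, hQ'.2]
        have hg0 : residue R g1 ≠ 0 := (residue_ne_zero_iff_isUnit g1).2 hg1
        apply mul_left_cancel₀ (pow_ne_zero 2 hg0)
        linear_combination (residue R a) * (((lc L ϖ hϖ C : (ResidueField R)ˣ) : ResidueField R) *
          residue R g1 + ((lc L ϖ hϖ D : (ResidueField R)ˣ) : ResidueField R) * residue R h) * o2 -
          (residue R a) * ((lc L ϖ hϖ D : (ResidueField R)ˣ) : ResidueField R) ^ 2 * e5 +
          (((lc L ϖ hϖ D : (ResidueField R)ˣ) : ResidueField R) ^ 2 * residue R g1 ^ 2) * hrr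
  rw [map_add, map_sub, map_zsmul, tame_sym, tame_sym, tame_sym, hA'.1, hQ'.1]
  have hf := final_calc (lc L ϖ hϖ C) (lc L ϖ hϖ D) (lc L ϖ hϖ A) (lc L ϖ hϖ Q)
    (ord L ϖ hϖ C) (ord L ϖ hϖ D) key
  have e : ∀ z t s : (ResidueField R)ˣ, z ^ 2 * t * s⁻¹ = 1 →
      (2 : ℤ) • Additive.ofMul z - Additive.ofMul t⁻¹ + Additive.ofMul s⁻¹ = 0 := by
    intro z t s h
    rw [← ofMul_zpow, ← ofMul_div, ← ofMul_mul, div_inv_eq_mul]
    change Additive.ofMul _ = Additive.ofMul 1
    congr 1
  have := e _ _ _ hf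
  simpa using this

end Alpha

end Pool.Agent.TH132.W
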