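import Pool.Agent.TH132.W.Defs

/-!
# The Witt ring of a field by generators and relations: basic properties
-/

noncomputable section

namespace Pool.Agent.TH132.W

universe u v

section Basic

variable {F : Type u} [Field F]

/-- The projection from the group ring. -/
def proj : MonoidAlgebra ℤ Fˣ →+* WittRing F := Ideal.Quotient.mk (relIdeal F)

theorem proj_surjective : Function.Surjective (proj (F := F)) := Ideal.Quotient.mk_surjective

theorem cls_eq (a : Fˣ) : cls a = proj (gen F a) := rfl

theorem proj_of_rel {x : MonoidAlgebra ℤ Fˣ} (h : Rel F x) : proj x = 0 :=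
  Ideal.Quotient.eq_zero_iff_mem.2 (Ideal.subset_span h)

@[simp] theorem cls_one : cls (1 : Fˣ) = 1 := by
  rw [cls_eq, gen, map_one, map_one]

theorem cls_mul (a b : Fˣ) : cls (a * b) = cls a * cls b := by
  rw [cls_eq, cls_eq, cls_eq, gen, gen, gen, map_mul, map_mul]

theorem cls_sq' (a b : Fˣ) : cls (a * b ^ 2) = cls a := by
  have := proj_of_rel (Rel.sq a b)
  rw [map_sub] at this
  exact sub_eq_zero.1 this

theorem cls_neg (a : Fˣ) : cls (-a) = - cls a := by
  have := proj_of_rel (Rel.hyp a)
  rw [map_add] at this
  exact (neg_eq_of_add_eq_zero_right this).symm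

theorem cls_add (a b s : Fˣ) (h : (s : F) = a + b) :
    cls a + cls b = cls s + cls (a * b * s) := by
  have := proj_of_rel (Rel.add a b s h)
  rw [map_sub, map_add, map_add] at this
  exact sub_eq_zero.1 this

theorem cls_sq (b : Fˣ) : cls (b ^ 2) = 1 := by
  have := cls_sq' 1 b
  rwa [one_mul, cls_one] at this

theorem cls_mul_self (a : Fˣ) : cls a * cls a = 1 := by
  rw [← cls_mul, ← pow_two, cls_sq]

theorem lift_aux {R : Type*} [CommRing R] (f : Fˣ →* R)
    (hsq : ∀ b : Fˣ, f b * f b = 1) (hneg : f (-1) = -1)
    (hadd : ∀ a b s : Fˣ, (s : F) = a + b → f a + f b = f s + f a * f b * f s)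
    (x : MonoidAlgebra ℤ Fˣ) (hx : x ∈ relIdeal F) :
    (MonoidAlgebra.lift ℤ R Fˣ f).toRingHom x = 0 := by
  have : relIdeal F ≤ RingHom.ker (MonoidAlgebra.lift ℤ R Fˣ f).toRingHom := by
    refine Ideal.span_le.2 ?_
    rintro _ (⟨a, b⟩ | ⟨a⟩ | ⟨a, b, s, h⟩)
    · simp [RingHom.mem_ker, gen, pow_two, hsq]
    · have : (-a : Fˣ) = (-1) * a := by simp
      simp [RingHom.mem_ker, gen, this, -neg_mul, -one_mul, hneg]
      ring
    · have := hadd a b s h
      simp only [SetLike.mem_coe, RingHom.mem_ker, gen, map_sub, map_add, AlgHom.toRingHom_eq_coe,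
        RingHom.coe_coe, MonoidAlgebra.lift_of, map_mul]
      rw [this, sub_self]
  exact this hx

/-- A ring homomorphism from the Witt ring: a homomorphism on `Fˣ` which satisfies the relations
extends uniquely. -/
def lift {R : Type*} [CommRing R] (f : Fˣ →* R)
    (hsq : ∀ b : Fˣ, f b * f b = 1) (hneg : f (-1) = -1)
    (hadd : ∀ a b s : Fˣ, (s : F) = a + b → f a + f b = f s + f a * f b * f s) :
    WittRing F →+* R :=
  Ideal.Quotient.lift (relIdeal F) (MonoidAlgebra.lift ℤ R Fˣ f).toRingHom
    (lift_aux f hsq hneg hadd)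

@[simp] theorem lift_cls {R : Type*} [CommRing R] (f : Fˣ →* R) (hsq hneg hadd) (a : Fˣ) :
    lift f hsq hneg hadd (cls a) = f a := by
  change (MonoidAlgebra.lift ℤ R Fˣ f) (MonoidAlgebra.of ℤ Fˣ a) = f a
  simp

/-- Induction principle: every element of the Witt ring is a sum of classes of forms of rank
one. -/
theorem induction {p : WittRing F → Prop} (x : WittRing F) (h0 : p 0) (h1 : ∀ a, p (cls a))
    (hadd : ∀ x y, p x → p y → p (x + y)) : p x := by
  have hneg : ∀ a, p (-cls a) := fun a => by rw [← cls_neg]; exact h1 _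
  have hz : ∀ (n : ℤ) (a : Fˣ), p (n • cls a) := by
    intro n a
    induction n using Int.induction_on with
    | zero => simpa using h0
    | succ n ih => rw [add_smul, one_smul]; exact hadd _ _ ih (h1 a)
    | pred n ih => rw [sub_smul, one_smul, sub_eq_add_neg]; exact hadd _ _ ih (hneg a)
  obtain ⟨y, rfl⟩ := proj_surjective x
  induction y using MonoidAlgebra.induction_linear with
  | zero => simpa using h0
  | add f g hf hg => rw [map_add]; exact hadd _ _ hf hg
  | single a n =>
    have : (MonoidAlgebra.single a n : MonoidAlgebra ℤ Fˣ) = n • gen F a := by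
      simp [gen]
    rw [this, map_zsmul]
    exact hz n a

theorem hom_ext {R : Type*} [AddCommGroup R] {f g : WittRing F →+ R}
    (h : ∀ a, f (cls a) = g (cls a)) : f = g := by
  refine AddMonoidHom.ext fun x => ?_
  induction x using induction with
  | h0 => simp
  | h1 a => exact h a
  | hadd x y hx hy => rw [map_add, map_add, hx, hy]

theorem ringHom_ext {R : Type*} [CommRing R] {f g : WittRing F →+* R}
    (h : ∀ a, f (cls a) = g (cls a)) : f = g := by
  refine RingHom.ext fun x => ?_
  induction x using induction with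
  | h0 => simp
  | h1 a => exact h a
  | hadd x y hx hy => rw [map_add, map_add, hx, hy]

end Basic

section Functor

variable {F : Type u} {E : Type v} [Field F] [Field E]

/-- Functoriality of the Witt ring. -/
def map (φ : F →+* E) : WittRing F →+* WittRing E :=
  lift
    { toFun := fun a => cls (Units.map (φ : F →* E) a)
      map_one' := by simp
      map_mul' := fun a b => by rw [map_mul, cls_mul] }
    (fun b => cls_mul_self _)
    (by
      change cls (Units.map (φ : F →* E) (-1)) = -1
      have : Units.map (φ : F →* E) (-1) = -1 := by ext; simp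
      rw [this, cls_neg, cls_one])
    (by
      intro a b s h
      change cls (Units.map (φ : F →* E) a) + cls (Units.map (φ : F →* E) b) =
        cls (Units.map (φ : F →* E) s) + cls (Units.map (φ : F →* E) a) *
          cls (Units.map (φ : F →* E) b) * cls (Units.map (φ : F →* E) s)
      rw [← cls_mul, ← cls_mul]
      refine cls_add _ _ _ ?_
      simp [h])

@[simp] theorem map_cls (φ : F →+* E) (a : Fˣ) :
    map φ (cls a) = cls (Units.map (φ : F →* E) a) := by
  unfold map; rw [lift_cls]; rfl

@[simp] theorem map_pf (φ : F →+* E) (a : Fˣ) :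
    map φ (pf a) = pf (Units.map (φ : F →* E) a) := by
  unfold pf; rw [map_sub, map_one, map_cls]

end Functor


end Pool.Agent.TH132.W
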