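import Pool.Agent.TH132.W.Spec0

/-!
# The structure of a class over `k(c, d)` unramified on the torus, and the conditions along the
boundary curves
-/

noncomputable section

set_option linter.unusedSectionVars false

namespace Pool.Agent.TH132.W

open Polynomial IsLocalRing

universe u

theorem map_comp' {A B C : Type*} [Field A] [Field B] [Field C] (φ : A →+* B) (ψ : B →+* C)
    (x : WittRing A) : map ψ (map φ x) = map (ψ.comp φ) x := by
  have : (map ψ).comp (map φ) = map (ψ.comp φ) := by
    apply cz_ringHom_ext
    intro a _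
    rw [RingHom.comp_apply, map_cz, map_cz, map_cz]; rfl
  exact congrArg (fun f => f x) this

theorem map_id' {A : Type*} [Field A] (x : WittRing A) : map (RingHom.id A) x = x := by
  have : map (RingHom.id A) = RingHom.id _ := by
    apply cz_ringHom_ext
    intro a _
    rw [map_cz]; rfl
  exact congrArg (fun f => f x) this

section Torus

variable {k : Type u} (F K : Type u) [Field k] [Field F] [Field K] [Algebra k[X] F]
  [IsFractionRing k[X] F] [Algebra F[X] K] [IsFractionRing F[X] K]

theorem swapE_cK_algebraMap (f : k[X]) :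
    swapE (k := k) F K (cK K (algebraMap k[X] F f)) =
      algebraMap F[X] K (f.map (cK (F := k) F)) := by
  have h1 : cK K (algebraMap k[X] F f) = biv (k := k) F K (C f) := by
    simp [biv, cK]
  rw [h1, swapE_biv, Bivariate.swap_C, biv, RingHom.comp_apply]
  congr 1
  rw [coe_mapRingHom, Polynomial.map_map]
  rfl

theorem swapE_algebraMap (f : k[X]) :
    swapE (k := k) F K (algebraMap F[X] K (f.map (cK (F := k) F))) =
      cK K (algebraMap k[X] F f) := by
  rw [← swapE_cK_algebraMap, swapE_swapE]

/-- The image of a class over `k`. -/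
def qk (q : WittRing k) : WittRing K := map (cK (F := F) K) (map (cK (F := k) F) q)

theorem qk_eq (q : WittRing k) : qk F K q = map (kc (k := k) F K) q := by
  unfold qk kc; rw [map_comp']

theorem map_qk (θ : K →+* K) (hθ : ∀ a : k, θ (kc F K a) = kc F K a) (q : WittRing k) :
    map θ (qk F K q) = qk F K q := by
  have h1 : θ.comp (kc (k := k) F K) = kc (k := k) F K := RingHom.ext hθ
  rw [qk_eq, map_comp', h1]

theorem map_swap_swap (w : WittRing K) :
    map (swapE (k := k) F K) (map (swapE (k := k) F K) w) = w := by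
  rw [map_comp']
  have : (swapE (k := k) F K).comp (swapE (k := k) F K) = RingHom.id K := by
    refine RingHom.ext fun z => ?_
    rw [RingHom.comp_apply, RingHom.id_apply, swapE_swapE (k := k) F K z]
  rw [this, map_id']

theorem lam0_swap (v : WittRing F) :
    lam0 (F := F) K (map (swapE (k := k) F K) (map (cK (F := F) K) v)) =
      Dbl.map (map (cK (F := k) F)) (lam0 (F := k) F v) := by
  have : ((lam0 (F := F) K).comp (map (swapE (k := k) F K))).comp (map (cK (F := F) K)) =
      (Dbl.map (map (cK (F := k) F))).comp (lam0 (F := k) F) := by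
    apply ratInd_ext (F := k) F
    · rw [RingHom.comp_apply, RingHom.comp_apply, RingHom.comp_apply, lam0_X]
      have : map (swapE (k := k) F K) (map (cK (F := F) K) (pc F (X : k[X]))) =
          pc K (X : F[X]) := by
        unfold pc
        rw [map_cz, map_cz, swapE_cK_algebraMap, map_X]
      rw [this, lam0_X]
      ext <;> simp
    · intro f hf
      rw [RingHom.comp_apply, RingHom.comp_apply, RingHom.comp_apply, lam0_pc F hf]
      have : map (swapE (k := k) F K) (map (cK (F := F) K) (pc F f)) =
          pc K (f.map (cK (F := k) F)) := by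
        unfold pc
        rw [map_cz, map_cz, swapE_cK_algebraMap]
      have h0 : (f.map (cK (F := k) F)).coeff 0 ≠ 0 := by
        rw [coeff_map]; exact (map_ne_zero_iff _ (RingHom.injective _)).2 hf
      rw [this, lam0_pc K h0, coeff_map]
      have h1 := map_cz (cK (F := k) F) (f.coeff 0)
      ext <;> simp [h1]
  exact congrArg (fun f => f v) this

/-- The class with the coefficients `q`. -/
def form4 (q00 q10 q01 q11 : WittRing k) : WittRing K :=
  qk F K q00 + cz (cv (k := k) F K) * qk F K q10 + cz (tv (F := F) K) * qk F K q01 +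
    cz (cv (k := k) F K) * cz (tv (F := F) K) * qk F K q11

theorem torus2 (w : WittRing K)
    (h1 : ∀ (π : F[X]) (_ : π.Monic) (hi : Irreducible π), π ≠ X → (lamP K π hi w).im = 0)
    (h2 : ∀ (π : F[X]) (_ : π.Monic) (hi : Irreducible π), π ≠ X →
      (lamP K π hi (map (swapE (k := k) F K) w)).im = 0) :
    ∃ q00 q10 q01 q11 : WittRing k, w = form4 F K q00 q10 q01 q11 := by
  obtain ⟨u0, u1, hu⟩ := milnor_torus K w h1
  obtain ⟨v0, v1, hv⟩ := milnor_torus K (map (swapE (k := k) F K) w) h2
  have hw : w = map (swapE (k := k) F K) (map (cK (F := F) K) v0) +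
      map (cK (F := F) K) (pc F (X : k[X])) *
        map (swapE (k := k) F K) (map (cK (F := F) K) v1) := by
    have := congrArg (map (swapE (k := k) F K)) hv
    rw [map_swap_swap, _root_.map_add, _root_.map_mul] at this
    rw [this]
    congr 2
    unfold pc
    rw [map_cz, map_cz]
    congr 1
    exact swapE_tv F K
  have e1 : lam0 (F := F) K w = ⟨u0, u1⟩ := by
    rw [hu, _root_.map_add, _root_.map_mul, lam0_const, lam0_const, lam0_X]
    ext <;> simp
  have e2 : lam0 (F := F) K w = Dbl.map (map (cK (F := k) F)) (lam0 (F := k) F v0) +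
      cst (pc F (X : k[X])) * Dbl.map (map (cK (F := k) F)) (lam0 (F := k) F v1) := by
    rw [hw, _root_.map_add, _root_.map_mul, lam0_swap, lam0_swap, lam0_const]
  rw [e1] at e2
  have e3 := congrArg (fun z => z.re) e2
  have e4 := congrArg (fun z => z.im) e2
  refine ⟨(lam0 (F := k) F v0).re, (lam0 (F := k) F v1).re, (lam0 (F := k) F v0).im,
    (lam0 (F := k) F v1).im, ?_⟩
  simp only [QuadraticAlgebra.re_add, QuadraticAlgebra.re_mul, QuadraticAlgebra.im_add,
    QuadraticAlgebra.im_mul, Dbl.map_re, Dbl.map_im, cst_re, cst_im] at e3 e4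
  rw [hu, e3, e4]
  unfold form4 qk
  have hc : cz (cv (k := k) F K) = map (cK (F := F) K) (pc F (X : k[X])) := by
    unfold pc; rw [map_cz]; rfl
  have hd : cz (tv (F := F) K) = pc K (X : F[X]) := rfl
  rw [hc, hd]
  simp only [_root_.map_add, _root_.map_mul, zero_mul, mul_zero, add_zero]
  ring

end Torus

section Bdry

variable {F : Type u} (K : Type u) [Field F] [Field K] [Algebra F[X] K] [IsFractionRing F[X] K]

/-- The condition along a boundary curve. -/
theorem bdry (a : F) (hi : Irreducible (X ^ 2 - C a : F[X])) (u : F) (hu : u ≠ 0)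
    (z0 z1 z2 z3 : WittRing F)
    (h : (lamP K _ hi (map (cK (F := F) K) z0 + pc K (X : F[X]) * map (cK (F := F) K) z1 +
      cz (cK K u) * pc K (X ^ 2 - C a : F[X]) * (map (cK (F := F) K) z2 +
        pc K (X : F[X]) * map (cK (F := F) K) z3))).im = 0) :
    z3 = cz (-a) * z3 := by
  apply reciprocity K a hi z2
  have ha : a ≠ 0 := by
    rintro rfl
    rw [C_0, sub_zero] at hi
    exact absurd hi (not_irreducible_pow (by decide))
  have hX : rho K _ hi X ≠ 0 := by
    rw [Ne, rho_eq_zero]
    intro hd
    have h1 := natDegree_le_of_dvd hd X_ne_zero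
    rw [natDegree_X, natDegree_X_pow_sub_C] at h1
    omega
  have hu' : rho K _ hi (C u) ≠ 0 := by
    change ((rho K _ hi).comp C) u ≠ 0
    exact (map_ne_zero_iff _ (RingHom.injective _)).2 hu
  have h2 : lamP K _ hi (cz (cK K u)) = cst (cz (rho K _ hi (C u))) := lamP_pc K _ hi hu'
  simp only [_root_.map_add, _root_.map_mul, lamP_const, lamP_pc K _ hi hX, lamP_pi, h2] at h
  simp only [QuadraticAlgebra.im_add, QuadraticAlgebra.im_mul, QuadraticAlgebra.re_mul, cst_re,
    cst_im, QuadraticAlgebra.re_add] at h
  have h3 := congrArg (fun z => cz (rho K _ hi (C u)) * z) h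
  simp only [mul_zero] at h3
  have h4 := cz_sq hu'
  have h5 : ∀ z : WittRing (kap K _ hi), cz (rho K _ hi (C u)) * (cz (rho K _ hi (C u)) * z) = z :=
    fun z => by rw [← mul_assoc, h4, one_mul]
  rw [← h5 (map ((rho K _ hi).comp C) z2 + cz (rho K _ hi X) * map ((rho K _ hi).comp C) z3)]
  rw [← h3]
  ring

end Bdry

end Pool.Agent.TH132.W
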