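import Pool.Agent.TH132.W.DVR

/-!
# Additive maps from the Witt ring; the total symbol `cz`
-/

noncomputable section

namespace Pool.Agent.TH132.W

open IsLocalRing

universe u v

section Cz

variable {F : Type u} [Field F]

open Classical in
/-- The class `⟨a⟩`, zero for `a = 0`. -/
def cz : F →*₀ WittRing F where
  toFun a := if h : a = 0 then 0 else cls (Units.mk0 a h)
  map_zero' := by simp
  map_one' := by
    rw [dif_neg one_ne_zero]
    have : Units.mk0 (1 : F) one_ne_zero = 1 := by ext; rfl
    rw [this, cls_one]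
  map_mul' a b := by
    by_cases ha : a = 0
    · subst ha; simp
    by_cases hb : b = 0
    · subst hb; simp
    rw [dif_neg ha, dif_neg hb, dif_neg (mul_ne_zero ha hb), ← cls_mul]
    congr 1
    ext; simp

theorem cz_of_ne {a : F} (h : a ≠ 0) : cz a = cls (Units.mk0 a h) := dif_neg h

theorem cz_unit (a : Fˣ) : cz (a : F) = cls a := by
  rw [cz_of_ne a.ne_zero]; congr 1; ext; rfl

theorem cz_neg (a : F) : cz (-a) = - cz a := by
  by_cases ha : a = 0
  · subst ha; simp
  have : (-a) = ((-Units.mk0 a ha : Fˣ) : F) := by simp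
  rw [this, cz_unit, cls_neg, ← cz_unit]; simp

theorem cz_sq {b : F} (h : b ≠ 0) : cz b * cz b = 1 := by
  rw [cz_of_ne h, cls_mul_self]

theorem cz_mul_sq (a : F) {b : F} (h : b ≠ 0) : cz (a * b ^ 2) = cz a := by
  rw [map_mul, pow_two, map_mul, cz_sq h, mul_one]

/-- The relation holds for all `a` and `b`. -/
theorem cz_add (a b : F) : cz a + cz b = cz (a + b) + cz (a * b * (a + b)) := by
  by_cases ha : a = 0
  · subst ha; simp
  by_cases hb : b = 0
  · subst hb; simp
  by_cases hs : a + b = 0
  · have : b = -a := (neg_eq_of_add_eq_zero_right hs).symm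
    subst this
    rw [cz_neg]; simp
  rw [cz_of_ne ha, cz_of_ne hb, cz_of_ne hs,
    cls_add (Units.mk0 a ha) (Units.mk0 b hb) (Units.mk0 (a + b) hs) rfl,
    cz_of_ne (mul_ne_zero (mul_ne_zero ha hb) hs)]
  congr 2
  ext; simp

theorem map_cz {E : Type v} [Field E] (φ : F →+* E) (a : F) : map φ (cz a) = cz (φ a) := by
  by_cases ha : a = 0
  · subst ha; simp
  have h2 : φ a = ((Units.map (φ : F →* E) (Units.mk0 a ha) : Eˣ) : E) := by simp
  rw [cz_of_ne ha, map_cls, h2, cz_unit]

theorem cz_induction {p : WittRing F → Prop} (x : WittRing F) (h0 : p 0) (h1 : ∀ a, a ≠ 0 → p (cz a))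
    (hadd : ∀ x y, p x → p y → p (x + y)) : p x := by
  induction x using induction with
  | h0 => exact h0
  | h1 a => rw [← cz_unit]; exact h1 _ a.ne_zero
  | hadd x y hx hy => exact hadd x y hx hy

/-- The additive extension to the group ring. -/
def extAdd {M : Type v} [AddCommGroup M] (f : F → M) : MonoidAlgebra ℤ Fˣ →+ M :=
  (Finsupp.liftAddHom (fun a : Fˣ => (zmultiplesHom M (f a) : ℤ →+ M))).comp
    MonoidAlgebra.coeffAddEquiv.toAddMonoidHom

theorem extAdd_gen {M : Type v} [AddCommGroup M] (f : F → M) (a : Fˣ) :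
    extAdd f (gen F a) = f a := by
  unfold extAdd gen
  simp [MonoidAlgebra.coeffAddEquiv, MonoidAlgebra.of]

/-- Additive homomorphisms from the Witt ring. -/
def liftAdd {M : Type v} [AddCommGroup M] (f : F → M)
    (hsq : ∀ a b : F, a ≠ 0 → b ≠ 0 → f (a * b ^ 2) = f a)
    (hneg : ∀ a : F, a ≠ 0 → f a + f (-a) = 0)
    (hadd : ∀ a b : F, a ≠ 0 → b ≠ 0 → a + b ≠ 0 → f a + f b = f (a + b) + f (a * b * (a + b))) :
    WittRing F →+ M :=
  QuotientAddGroup.lift (relIdeal F).toAddSubgroup (extAdd f) (by
    intro x hx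
    have key : ∀ x ∈ relIdeal F, ∀ y : MonoidAlgebra ℤ Fˣ, extAdd f (y * x) = 0 := by
      intro x hx
      refine Submodule.span_induction (p := fun x _ => ∀ y : MonoidAlgebra ℤ Fˣ,
        extAdd f (y * x) = 0) ?_ ?_ ?_ ?_ hx
      · intro r hr y
        induction y using MonoidAlgebra.induction_linear with
        | zero => simp
        | add g h hg hh => rw [add_mul, map_add, hg, hh, add_zero]
        | single c n =>
          have h1 : (MonoidAlgebra.single c n : MonoidAlgebra ℤ Fˣ) = n • gen F c := by
            simp [gen]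
          rw [h1, smul_mul_assoc, map_zsmul]
          have h2 : extAdd f (gen F c * r) = 0 := by
            rcases hr with ⟨a, b⟩ | ⟨a⟩ | ⟨a, b, s, h⟩
            · rw [mul_sub, map_sub]
              have e1 : gen F c * gen F (a * b ^ 2) = gen F (c * a * b ^ 2) := by
                simp only [gen, ← map_mul]; congr 1; rw [mul_assoc]
              have e2 : gen F c * gen F a = gen F (c * a) := by simp only [gen, ← map_mul]
              rw [e1, e2, extAdd_gen, extAdd_gen, Units.val_mul, Units.val_pow_eq_pow_val,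
                hsq _ _ (c * a).ne_zero b.ne_zero, sub_self]
            · rw [mul_add, map_add]
              have e1 : gen F c * gen F (-a) = gen F (-(c * a)) := by
                simp only [gen, ← map_mul]; congr 1; ext; simp
              have e2 : gen F c * gen F a = gen F (c * a) := by simp only [gen, ← map_mul]
              rw [e1, e2, extAdd_gen, extAdd_gen, Units.val_neg, hneg _ (c * a).ne_zero]
            · rw [mul_sub, map_sub, mul_add, mul_add, map_add, map_add]
              have e (a : Fˣ) : gen F c * gen F a = gen F (c * a) := by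
                simp only [gen, ← map_mul]
              rw [e, e, e, e, extAdd_gen, extAdd_gen, extAdd_gen, extAdd_gen]
              have hs : ((c * s : Fˣ) : F) = (c * a : Fˣ) + (c * b : Fˣ) := by
                simp only [Units.val_mul, h]; ring
              have h3 := hadd (c * a : Fˣ) (c * b : Fˣ) (c * a).ne_zero (c * b).ne_zero
                (by rw [← hs]; exact (c * s).ne_zero)
              rw [h3, ← hs]
              have h4 : ((c * a : Fˣ) : F) * ((c * b : Fˣ) : F) * ((c * s : Fˣ) : F) =
                  ((c * (a * b * s) : Fˣ) : F) * (c : F) ^ 2 := by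
                simp only [Units.val_mul]; ring
              rw [h4, hsq _ _ (c * (a * b * s)).ne_zero c.ne_zero, sub_self]
          rw [h2, smul_zero]
      · intro y; rw [mul_zero, map_zero]
      · intro a b _ _ ha hb y; rw [mul_add, map_add, ha, hb, add_zero]
      · intro a b _ hb y
        rw [smul_eq_mul, ← mul_assoc]; exact hb _
    have := key x hx 1
    rwa [one_mul] at this)

theorem liftAdd_cz {M : Type v} [AddCommGroup M] (f : F → M) (hsq hneg hadd) {a : F}
    (ha : a ≠ 0) : liftAdd f hsq hneg hadd (cz a) = f a := by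
  rw [cz_of_ne ha]
  change extAdd f (gen F (Units.mk0 a ha)) = f a
  rw [extAdd_gen]; rfl

theorem cz_hom_ext {M : Type*} [AddCommGroup M] {f g : WittRing F →+ M}
    (h : ∀ a : F, a ≠ 0 → f (cz a) = g (cz a)) : f = g :=
  hom_ext fun a => by rw [← cz_unit]; exact h _ a.ne_zero

theorem cz_ringHom_ext {R : Type*} [CommRing R] {f g : WittRing F →+* R}
    (h : ∀ a : F, a ≠ 0 → f (cz a) = g (cz a)) : f = g :=
  ringHom_ext fun a => by rw [← cz_unit]; exact h _ a.ne_zero

end Cz

section DVRcz

variable {R : Type u} (K : Type v) [CommRing R] [IsDomain R] [IsDiscreteValuationRing R]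
  [Field K] [Algebra R K] [IsFractionRing R K]

theorem lam_cz_unit (ϖ : R) (hϖ : Irreducible ϖ) {a : R} (ha : IsUnit a) :
    lam K ϖ hϖ (cz (algebraMap R K a)) = cst (cz (residue R a)) := by
  obtain ⟨u, rfl⟩ := ha
  have h1 : algebraMap R K u =
      ((piU K ϖ hϖ ^ (0 : ℤ) * Units.map (algebraMap R K : R →* K) u : Kˣ) : K) := by simp
  have h2 : residue R (u : R) = ((Units.map (residue R : R →* ResidueField R) u : _ˣ) :
    ResidueField R) := by simp
  rw [h1, cz_unit, lam_mk, ez_zero, mul_one, h2, cz_unit]

theorem lam_cz_pi (ϖ : R) (hϖ : Irreducible ϖ) :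
    lam K ϖ hϖ (cz (algebraMap R K ϖ)) = ⟨0, 1⟩ := by
  have h1 : algebraMap R K ϖ =
      ((piU K ϖ hϖ ^ (1 : ℤ) * Units.map (algebraMap R K : R →* K) 1 : Kˣ) : K) := by simp [piU]
  rw [h1, cz_unit, lam_mk, ez_odd (by decide), map_one, cls_one, map_one, one_mul]

end DVRcz

end Pool.Agent.TH132.W
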