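import Pool.Agent.TH132.W.Basic

/-!
# Residue maps on the Witt ring at a discrete valuation
-/

noncomputable section

set_option linter.unusedSectionVars false

namespace Pool.Agent.TH132.W

open IsLocalRing

universe u v

section Dec

variable {R : Type u} (K : Type v) [CommRing R] [IsDomain R] [IsDiscreteValuationRing R]
  [Field K] [Algebra R K] [IsFractionRing R K]

/-- A uniformizer as a unit of the fraction field. -/
def piU (ϖ : R) (hϖ : Irreducible ϖ) : Kˣ :=
  Units.mk0 (algebraMap R K ϖ)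
    ((map_ne_zero_iff _ (IsFractionRing.injective R K)).2 hϖ.ne_zero)

/-- The map `(n, u) ↦ ϖ ^ n * u`. -/
def decHom (ϖ : R) (hϖ : Irreducible ϖ) : Multiplicative ℤ × Rˣ →* Kˣ :=
  MonoidHom.coprod (zpowersHom Kˣ (piU K ϖ hϖ)) (Units.map (algebraMap R K : R →* K))

theorem decHom_apply (ϖ : R) (hϖ : Irreducible ϖ) (n : ℤ) (u : Rˣ) :
    decHom K ϖ hϖ (Multiplicative.ofAdd n, u) =
      piU K ϖ hϖ ^ n * Units.map (algebraMap R K : R →* K) u := rfl

theorem decHom_surjective (ϖ : R) (hϖ : Irreducible ϖ) :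
    Function.Surjective (decHom K ϖ hϖ) := by
  intro a
  obtain ⟨n, u, h⟩ := IsDiscreteValuationRing.exists_units_eq_smul_zpow_of_irreducible hϖ
    (x := (a : K)) a.ne_zero
  refine ⟨(Multiplicative.ofAdd n, u), ?_⟩
  ext
  rw [decHom_apply, h]
  simp [piU, Units.smul_def, Algebra.smul_def, mul_comm]

theorem decHom_injective (ϖ : R) (hϖ : Irreducible ϖ) :
    Function.Injective (decHom K ϖ hϖ) := by
  rw [injective_iff_map_eq_one]
  rintro ⟨m, u⟩ h
  obtain ⟨n, hm⟩ : ∃ n : ℤ, m = Multiplicative.ofAdd n := ⟨m.toAdd, rfl⟩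
  rw [hm, decHom_apply] at h
  have h' : (algebraMap R K ϖ) ^ n * algebraMap R K u = 1 := by
    have := congrArg (Units.val) h
    simpa [piU] using this
  have hn : n = 0 := by
    rcases lt_trichotomy n 0 with hn | hn | hn
    · exfalso
      obtain ⟨k, rfl⟩ : ∃ k : ℕ, n = -(k : ℤ) := ⟨n.natAbs, by omega⟩
      have hk : k ≠ 0 := by omega
      rw [zpow_neg, zpow_natCast] at h'
      have h2 : algebraMap R K u = algebraMap R K (ϖ ^ k) := by
        rw [map_pow]
        have hne : (algebraMap R K ϖ) ^ k ≠ 0 := pow_ne_zero _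
          ((map_ne_zero_iff _ (IsFractionRing.injective R K)).2 hϖ.ne_zero)
        field_simp at h'
        exact h'
      have h3 := IsFractionRing.injective R K h2
      have : IsUnit (ϖ ^ k) := h3 ▸ u.isUnit
      exact hϖ.not_isUnit ((isUnit_pow_iff hk).1 this)
    · exact hn
    · exfalso
      obtain ⟨k, rfl⟩ : ∃ k : ℕ, n = (k : ℤ) := ⟨n.natAbs, by omega⟩
      have hk : k ≠ 0 := by omega
      rw [zpow_natCast, ← map_pow, ← map_mul, ← map_one (algebraMap R K)] at h'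
      have h3 := IsFractionRing.injective R K h'
      have : IsUnit (ϖ ^ k) := IsUnit.of_mul_eq_one _ h3
      exact hϖ.not_isUnit ((isUnit_pow_iff hk).1 this)
  subst hn
  rw [zpow_zero, one_mul, ← map_one (algebraMap R K)] at h'
  have h3 := IsFractionRing.injective R K h'
  have : u = 1 := by ext; exact h3
  rw [hm, this]; rfl

/-- The decomposition `a = ϖ ^ n * u` as an isomorphism of groups. -/
def dec (ϖ : R) (hϖ : Irreducible ϖ) : Kˣ ≃* Multiplicative ℤ × Rˣ :=
  (MulEquiv.ofBijective (decHom K ϖ hϖ) ⟨decHom_injective K ϖ hϖ, decHom_surjective K ϖ hϖ⟩).symm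

/-- The normalized valuation of a nonzero element of the fraction field. -/
def ord (ϖ : R) (hϖ : Irreducible ϖ) (a : Kˣ) : ℤ := (dec K ϖ hϖ a).1.toAdd

/-- The leading coefficient: the residue class of the unit `a / ϖ ^ n`, `n` the valuation of
`a`. -/
def lc (ϖ : R) (hϖ : Irreducible ϖ) : Kˣ →* (ResidueField R)ˣ :=
  (Units.map (residue R : R →* ResidueField R)).comp
    ((MonoidHom.snd _ _).comp (dec K ϖ hϖ).toMonoidHom)

variable {K}

theorem dec_mk (ϖ : R) (hϖ : Irreducible ϖ) (n : ℤ) (u : Rˣ) :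
    dec K ϖ hϖ (piU K ϖ hϖ ^ n * Units.map (algebraMap R K : R →* K) u) =
      (Multiplicative.ofAdd n, u) := by
  rw [← decHom_apply]
  exact (MulEquiv.ofBijective (decHom K ϖ hϖ) _).symm_apply_apply _

theorem ord_mk (ϖ : R) (hϖ : Irreducible ϖ) (n : ℤ) (u : Rˣ) :
    ord K ϖ hϖ (piU K ϖ hϖ ^ n * Units.map (algebraMap R K : R →* K) u) = n := by
  unfold ord; rw [dec_mk]; rfl

theorem lc_mk (ϖ : R) (hϖ : Irreducible ϖ) (n : ℤ) (u : Rˣ) :
    lc K ϖ hϖ (piU K ϖ hϖ ^ n * Units.map (algebraMap R K : R →* K) u) =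
      Units.map (residue R : R →* ResidueField R) u := by
  unfold lc
  simp only [MonoidHom.comp_apply, MulEquiv.toMonoidHom_eq_coe, MonoidHom.coe_coe, dec_mk,
    MonoidHom.coe_snd]

theorem ord_mul (ϖ : R) (hϖ : Irreducible ϖ) (a b : Kˣ) :
    ord K ϖ hϖ (a * b) = ord K ϖ hϖ a + ord K ϖ hϖ b := by
  unfold ord; rw [map_mul]; rfl

@[simp] theorem ord_one (ϖ : R) (hϖ : Irreducible ϖ) : ord K ϖ hϖ 1 = 0 := by
  unfold ord; rw [map_one]; rfl

theorem ord_inv (ϖ : R) (hϖ : Irreducible ϖ) (a : Kˣ) :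
    ord K ϖ hϖ a⁻¹ = - ord K ϖ hϖ a := by
  unfold ord; rw [map_inv]; rfl

/-- Every element is of the form `ϖ ^ n * u`. -/
theorem exists_mk (ϖ : R) (hϖ : Irreducible ϖ) (a : Kˣ) :
    ∃ (n : ℤ) (u : Rˣ), a = piU K ϖ hϖ ^ n * Units.map (algebraMap R K : R →* K) u := by
  obtain ⟨⟨n, u⟩, h⟩ := decHom_surjective K ϖ hϖ a
  exact ⟨n.toAdd, u, by rw [← decHom_apply]; exact h.symm⟩

/-- A unit of the valuation ring, as a unit of the fraction field. -/
theorem ord_unit (ϖ : R) (hϖ : Irreducible ϖ) (u : Rˣ) :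
    ord K ϖ hϖ (Units.map (algebraMap R K : R →* K) u) = 0 := by
  have := ord_mk (K := K) ϖ hϖ 0 u
  rwa [zpow_zero, one_mul] at this

theorem lc_unit (ϖ : R) (hϖ : Irreducible ϖ) (u : Rˣ) :
    lc K ϖ hϖ (Units.map (algebraMap R K : R →* K) u) =
      Units.map (residue R : R →* ResidueField R) u := by
  have := lc_mk (K := K) ϖ hϖ 0 u
  rwa [zpow_zero, one_mul] at this

theorem ord_pi (ϖ : R) (hϖ : Irreducible ϖ) : ord K ϖ hϖ (piU K ϖ hϖ) = 1 := by
  have := ord_mk (K := K) ϖ hϖ 1 1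
  rwa [zpow_one, map_one, mul_one] at this

theorem lc_pi (ϖ : R) (hϖ : Irreducible ϖ) : lc K ϖ hϖ (piU K ϖ hϖ) = 1 := by
  have := lc_mk (K := K) ϖ hϖ 1 1
  rwa [zpow_one, map_one, mul_one, map_one] at this

end Dec

/-! ### The group ring `W(κ)[ε]`, `ε² = 1` -/

section Eps

variable {A : Type u} [CommRing A]

/-- The ring `A[ε]`, `ε² = 1`. -/
abbrev Dbl (A : Type u) [CommRing A] : Type u := QuadraticAlgebra A 1 0

theorem eps_aux : (⟨0, 1⟩ : Dbl A) * ⟨0, 1⟩ = 1 := by
  ext <;> simp [QuadraticAlgebra.re_one, QuadraticAlgebra.im_one]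

/-- The unit `ε`. -/
def eps : (Dbl A)ˣ where
  val := ⟨0, 1⟩
  inv := ⟨0, 1⟩
  val_inv := eps_aux
  inv_val := eps_aux

theorem eps_mul_eps : (eps : (Dbl A)ˣ) * eps = 1 := by
  ext <;> simp [eps, QuadraticAlgebra.re_one, QuadraticAlgebra.im_one]

/-- The power `ε ^ n`. -/
def ez (n : ℤ) : Dbl A := ((eps ^ n : (Dbl A)ˣ) : Dbl A)

theorem ez_add (n m : ℤ) : (ez (n + m) : Dbl A) = ez n * ez m := by
  unfold ez; rw [zpow_add, Units.val_mul]

@[simp] theorem ez_zero : (ez 0 : Dbl A) = 1 := by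
  unfold ez; rw [zpow_zero, Units.val_one]

theorem ez_even {n : ℤ} (h : Even n) : (ez n : Dbl A) = 1 := by
  obtain ⟨m, rfl⟩ := h
  unfold ez
  rw [zpow_add, ← mul_zpow, eps_mul_eps, one_zpow, Units.val_one]

theorem ez_odd {n : ℤ} (h : Odd n) : (ez n : Dbl A) = ⟨0, 1⟩ := by
  obtain ⟨m, rfl⟩ := h
  unfold ez
  rw [zpow_add, zpow_one, zpow_mul, zpow_two, eps_mul_eps, one_zpow, one_mul]
  rfl

theorem ez_mul_self (n : ℤ) : (ez n : Dbl A) * ez n = 1 := by
  rw [← ez_add]; exact ez_even ⟨n, rfl⟩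

theorem cst_add (a b : A) : (⟨a + b, 0⟩ : Dbl A) = ⟨a, 0⟩ + ⟨b, 0⟩ := by ext <;> simp

theorem cst_mul (a b : A) : (⟨a * b, 0⟩ : Dbl A) = ⟨a, 0⟩ * ⟨b, 0⟩ := by ext <;> simp

/-- The constants in `A[ε]`. -/
def cst : A →+* Dbl A where
  toFun a := ⟨a, 0⟩
  map_one' := rfl
  map_zero' := rfl
  map_add' := cst_add
  map_mul' := cst_mul

@[simp] theorem cst_re (a : A) : (cst a : Dbl A).re = a := rfl
@[simp] theorem cst_im (a : A) : (cst a : Dbl A).im = 0 := rfl

/-- Functoriality of `A[ε]`. -/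
def Dbl.map {B : Type v} [CommRing B] (f : A →+* B) : Dbl A →+* Dbl B where
  toFun x := ⟨f x.re, f x.im⟩
  map_one' := by ext <;> simp [QuadraticAlgebra.re_one, QuadraticAlgebra.im_one]
  map_zero' := by ext <;> simp
  map_add' x y := by ext <;> simp
  map_mul' x y := by ext <;> simp

@[simp] theorem Dbl.map_re {B : Type v} [CommRing B] (f : A →+* B) (x : Dbl A) :
    (Dbl.map f x).re = f x.re := rfl
@[simp] theorem Dbl.map_im {B : Type v} [CommRing B] (f : A →+* B) (x : Dbl A) :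
    (Dbl.map f x).im = f x.im := rfl

/-- The augmentation `ε ↦ 1`. -/
def Dbl.aug : Dbl A →+* A where
  toFun x := x.re + x.im
  map_one' := by simp [QuadraticAlgebra.re_one, QuadraticAlgebra.im_one]
  map_zero' := by simp
  map_add' x y := by simp; ring
  map_mul' x y := by simp; ring

@[simp] theorem Dbl.aug_apply (x : Dbl A) : Dbl.aug x = x.re + x.im := rfl

end Eps

section Lam

variable {R : Type u} (K : Type v) [CommRing R] [IsDomain R] [IsDiscreteValuationRing R]
  [Field K] [Algebra R K] [IsFractionRing R K]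

/-- The value `⟨ū⟩ ε ^ n` at `ϖ ^ n * u`. -/
def lamFun (ϖ : R) (hϖ : Irreducible ϖ) (a : Kˣ) : Dbl (WittRing (ResidueField R)) :=
  cst (cls (lc K ϖ hϖ a)) * ez (ord K ϖ hϖ a)

theorem lamFun_one (ϖ : R) (hϖ : Irreducible ϖ) : lamFun K ϖ hϖ 1 = 1 := by simp [lamFun]

theorem lamFun_mul (ϖ : R) (hϖ : Irreducible ϖ) (a b : Kˣ) :
    lamFun K ϖ hϖ (a * b) = lamFun K ϖ hϖ a * lamFun K ϖ hϖ b := by
  unfold lamFun
  rw [map_mul, cls_mul, map_mul, ord_mul, ez_add]; ring

/-- The map `ϖ ^ n * u ↦ ⟨ū⟩ ε ^ n`. -/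
def lamHom (ϖ : R) (hϖ : Irreducible ϖ) : Kˣ →* Dbl (WittRing (ResidueField R)) where
  toFun := lamFun K ϖ hϖ
  map_one' := lamFun_one K ϖ hϖ
  map_mul' := lamFun_mul K ϖ hϖ

theorem lamHom_mk (ϖ : R) (hϖ : Irreducible ϖ) (n : ℤ) (u : Rˣ) :
    lamHom K ϖ hϖ (piU K ϖ hϖ ^ n * Units.map (algebraMap R K : R →* K) u) =
      cst (cls (Units.map (residue R : R →* ResidueField R) u)) *
        ez n := by
  change cst (cls (lc K ϖ hϖ _)) * ez (ord K ϖ hϖ _) = _
  rw [lc_mk, ord_mk]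

theorem lamHom_sq (ϖ : R) (hϖ : Irreducible ϖ) (a : Kˣ) :
    lamHom K ϖ hϖ a * lamHom K ϖ hϖ a = 1 := by
  change (cst (cls (lc K ϖ hϖ a)) * ez (ord K ϖ hϖ a)) *
    (cst (cls (lc K ϖ hϖ a)) * ez (ord K ϖ hϖ a)) = 1
  rw [mul_mul_mul_comm, ← map_mul, cls_mul_self, map_one, one_mul, ez_mul_self]

theorem lamHom_neg_one (ϖ : R) (hϖ : Irreducible ϖ) : lamHom K ϖ hϖ (-1) = -1 := by
  have h : (-1 : Kˣ) = piU K ϖ hϖ ^ (0 : ℤ) * Units.map (algebraMap R K : R →* K) (-1) := by
    ext; simp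
  rw [h, lamHom_mk]
  have : Units.map (residue R : R →* ResidueField R) (-1) = -1 := by ext; simp
  rw [this, cls_neg, cls_one, ez_zero, mul_one, map_neg, map_one]

theorem lamHom_add_of_lt (ϖ : R) (hϖ : Irreducible ϖ) (n m : ℤ) (hnm : n < m) (u v : Rˣ)
    (s : Kˣ) (h : (s : K) = (piU K ϖ hϖ ^ n * Units.map (algebraMap R K : R →* K) u : Kˣ) +
      (piU K ϖ hϖ ^ m * Units.map (algebraMap R K : R →* K) v : Kˣ)) :
    lamHom K ϖ hϖ s =
      lamHom K ϖ hϖ (piU K ϖ hϖ ^ n * Units.map (algebraMap R K : R →* K) u) := by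
  obtain ⟨k, hk⟩ : ∃ k : ℕ, m = n + (k + 1 : ℕ) := ⟨(m - n - 1).toNat, by omega⟩
  have hmem : ϖ ^ (k + 1) * (v : R) ∈ maximalIdeal R := by
    rw [hϖ.maximalIdeal_eq, pow_succ']
    exact Ideal.mem_span_singleton.2 ⟨ϖ ^ k * v, by ring⟩
  have hw : IsUnit ((u : R) + ϖ ^ (k + 1) * v) := by
    by_contra hcon
    have h1 : (u : R) + ϖ ^ (k + 1) * v ∈ maximalIdeal R := (mem_maximalIdeal _).2 hcon
    have h2 : (u : R) ∈ maximalIdeal R := by
      have := Ideal.sub_mem _ h1 hmem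
      rwa [add_sub_cancel_right] at this
    exact (mem_maximalIdeal _).1 h2 u.isUnit
  have hs : s = piU K ϖ hϖ ^ n * Units.map (algebraMap R K : R →* K) hw.unit := by
    ext
    rw [h, hk, zpow_add, zpow_natCast]
    simp only [Units.val_mul, Units.coe_map, MonoidHom.coe_coe, IsUnit.unit_spec, map_add,
      map_mul, map_pow, Units.val_pow_eq_pow_val]
    simp only [piU, Units.val_mk0]
    ring
  rw [hs, lamHom_mk, lamHom_mk]
  have hr : Units.map (residue R : R →* ResidueField R) hw.unit =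
      Units.map (residue R : R →* ResidueField R) u := by
    ext
    have h0 : residue R (ϖ ^ (k + 1) * (v : R)) = 0 := (residue_eq_zero_iff _).2 hmem
    simp only [Units.coe_map, MonoidHom.coe_coe, IsUnit.unit_spec, map_add, h0, add_zero]
  rw [hr]

theorem lamHom_add (ϖ : R) (hϖ : Irreducible ϖ) : ∀ a b s : Kˣ, (s : K) = a + b →
    lamHom K ϖ hϖ a + lamHom K ϖ hϖ b =
      lamHom K ϖ hϖ s + lamHom K ϖ hϖ a * lamHom K ϖ hϖ b * lamHom K ϖ hϖ s := by
  intro a b s h
  obtain ⟨n, u, rfl⟩ := exists_mk (K := K) ϖ hϖ a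
  obtain ⟨m, v, rfl⟩ := exists_mk (K := K) ϖ hϖ b
  rcases lt_trichotomy n m with hnm | hnm | hnm
  · rw [lamHom_add_of_lt K ϖ hϖ n m hnm u v s h]
    set x := lamHom K ϖ hϖ (piU K ϖ hϖ ^ n * Units.map (algebraMap R K : R →* K) u)
    set y := lamHom K ϖ hϖ (piU K ϖ hϖ ^ m * Units.map (algebraMap R K : R →* K) v)
    have hx : x * x = 1 := lamHom_sq K ϖ hϖ _
    calc x + y = x + x * x * y := by rw [hx, one_mul]
      _ = x + x * y * x := by ring
  · subst hnm
    by_cases hw : IsUnit ((u : R) + v)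
    · have hs : s = piU K ϖ hϖ ^ n * Units.map (algebraMap R K : R →* K) hw.unit := by
        ext
        rw [h]
        simp only [Units.val_mul, Units.coe_map, MonoidHom.coe_coe, IsUnit.unit_spec, map_add]
        ring
      have hc := cls_add (Units.map (residue R : R →* ResidueField R) u)
        (Units.map (residue R : R →* ResidueField R) v)
        (Units.map (residue R : R →* ResidueField R) hw.unit) (by simp)
      rw [hs, lamHom_mk, lamHom_mk, lamHom_mk]
      have hee : (ez n : Dbl (WittRing (ResidueField R))) * ez n = 1 := ez_mul_self n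
      rw [← add_mul, ← map_add, hc, map_add, cls_mul, cls_mul, map_mul, map_mul]
      linear_combination (-(cst (cls (Units.map (residue R : R →* ResidueField R) u)) *
        cst (cls (Units.map (residue R : R →* ResidueField R) v)) *
        cst (cls (Units.map (residue R : R →* ResidueField R) hw.unit)) * ez n)) * hee
    · have hv : Units.map (residue R : R →* ResidueField R) v =
          - Units.map (residue R : R →* ResidueField R) u := by
        ext
        have h1 : (u : R) + v ∈ maximalIdeal R := (mem_maximalIdeal _).2 hw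
        have h2 : residue R ((u : R) + v) = 0 := (residue_eq_zero_iff _).2 h1
        rw [map_add] at h2
        simp only [Units.coe_map, MonoidHom.coe_coe, Units.val_neg]
        exact (neg_eq_of_add_eq_zero_right h2).symm
      have hfb : lamHom K ϖ hϖ (piU K ϖ hϖ ^ n * Units.map (algebraMap R K : R →* K) v) =
          - lamHom K ϖ hϖ (piU K ϖ hϖ ^ n * Units.map (algebraMap R K : R →* K) u) := by
        rw [lamHom_mk, lamHom_mk, hv, cls_neg, map_neg, neg_mul]
      rw [hfb]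
      have hx := lamHom_sq K ϖ hϖ (piU K ϖ hϖ ^ n * Units.map (algebraMap R K : R →* K) u)
      linear_combination (lamHom K ϖ hϖ s) * hx
  · rw [lamHom_add_of_lt K ϖ hϖ m n hnm v u s (by rw [h, add_comm])]
    set x := lamHom K ϖ hϖ (piU K ϖ hϖ ^ n * Units.map (algebraMap R K : R →* K) u)
    set y := lamHom K ϖ hϖ (piU K ϖ hϖ ^ m * Units.map (algebraMap R K : R →* K) v)
    have hx : y * y = 1 := lamHom_sq K ϖ hϖ _
    linear_combination (-x) * hx

/-- The homomorphism `W(K) → W(κ)[ε]`, `⟨ϖ ^ n * u⟩ ↦ ⟨ū⟩ ε ^ n`. -/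
def lam (ϖ : R) (hϖ : Irreducible ϖ) : WittRing K →+* Dbl (WittRing (ResidueField R)) :=
  lift (lamHom K ϖ hϖ) (lamHom_sq K ϖ hϖ) (lamHom_neg_one K ϖ hϖ) (lamHom_add K ϖ hϖ)

theorem lam_cls (ϖ : R) (hϖ : Irreducible ϖ) (a : Kˣ) :
    lam K ϖ hϖ (cls a) = lamHom K ϖ hϖ a := by
  unfold lam; rw [lift_cls]

theorem lam_mk (ϖ : R) (hϖ : Irreducible ϖ) (n : ℤ) (u : Rˣ) :
    lam K ϖ hϖ (cls (piU K ϖ hϖ ^ n * Units.map (algebraMap R K : R →* K) u)) =
      cst (cls (Units.map (residue R : R →* ResidueField R) u)) *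
        ez n := by
  rw [lam_cls, lamHom_mk]

theorem res2_add (ϖ : R) (hϖ : Irreducible ϖ) (x y : WittRing K) :
    (lam K ϖ hϖ (x + y)).im = (lam K ϖ hϖ x).im + (lam K ϖ hϖ y).im := by simp

/-- The second residue homomorphism `W(K) → W(κ)`, with respect to the uniformizer `ϖ`:
`⟨ϖ ^ n * u⟩ ↦ ⟨ū⟩` if `n` is odd, and `⟨ϖ ^ n * u⟩ ↦ 0` if `n` is even. -/
def res2 (ϖ : R) (hϖ : Irreducible ϖ) : WittRing K →+ WittRing (ResidueField R) :=
  AddMonoidHom.mk' (fun x => (lam K ϖ hϖ x).im) (res2_add K ϖ hϖ)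

theorem res2_apply (ϖ : R) (hϖ : Irreducible ϖ) (x : WittRing K) :
    res2 K ϖ hϖ x = (lam K ϖ hϖ x).im := rfl

/-- The defining property of the second residue homomorphism. -/
theorem res2_odd (ϖ : R) (hϖ : Irreducible ϖ) {n : ℤ} (hn : Odd n) (u : Rˣ) :
    res2 K ϖ hϖ (cls (piU K ϖ hϖ ^ n * Units.map (algebraMap R K : R →* K) u)) =
      cls (Units.map (residue R : R →* ResidueField R) u) := by
  rw [res2_apply, lam_mk, ez_odd hn]
  simp

theorem res2_even (ϖ : R) (hϖ : Irreducible ϖ) {n : ℤ} (hn : Even n) (u : Rˣ) :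
    res2 K ϖ hϖ (cls (piU K ϖ hϖ ^ n * Units.map (algebraMap R K : R →* K) u)) = 0 := by
  rw [res2_apply, lam_mk, ez_even hn]
  simp

end Lam

section Dom

variable {R : Type*} {K : Type*} [CommRing R] [IsDomain R] [IsDiscreteValuationRing R]
  [Field K] [Algebra R K] [IsFractionRing R K]
  {R' : Type*} {K' : Type*} [CommRing R'] [IsDomain R'] [IsDiscreteValuationRing R']
  [Field K'] [Algebra R' K'] [IsFractionRing R' K']

/-- Functoriality of the residue maps. -/
theorem lam_map (ϖ : R) (hϖ : Irreducible ϖ) (ϖ' : R') (hϖ' : Irreducible ϖ')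
    (τ : K →+* K') (g : R →+* R') [IsLocalHom g]
    (hg : ∀ a, algebraMap R' K' (g a) = τ (algebraMap R K a)) (hp : g ϖ = ϖ')
    (x : WittRing K) :
    lam K' ϖ' hϖ' (map τ x) = Dbl.map (map (ResidueField.map g)) (lam K ϖ hϖ x) := by
  have : (lam K' ϖ' hϖ').comp (map τ) =
      (Dbl.map (map (ResidueField.map g))).comp (lam K ϖ hϖ) := by
    apply ringHom_ext
    intro a
    obtain ⟨n, u, rfl⟩ := exists_mk (K := K) ϖ hϖ a
    rw [RingHom.comp_apply, RingHom.comp_apply, lam_mk, map_cls]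
    have h1 : Units.map (τ : K →* K') (piU K ϖ hϖ ^ n * Units.map (algebraMap R K : R →* K) u) =
        piU K' ϖ' hϖ' ^ n * Units.map (algebraMap R' K' : R' →* K') (Units.map (g : R →* R') u) := by
      ext
      simp [piU, ← hp, hg]
    rw [h1, lam_mk]
    have h2 : Units.map (residue R' : R' →* ResidueField R') (Units.map (g : R →* R') u) =
        Units.map (ResidueField.map g : ResidueField R →* ResidueField R')
          (Units.map (residue R : R →* ResidueField R) u) := by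
      ext; simp
    rw [h2]
    rcases Int.even_or_odd n with hn | hn
    · rw [ez_even hn, ez_even hn]
      ext <;> simp
    · rw [ez_odd hn, ez_odd hn]
      ext <;> simp
  exact congrArg (fun f => f x) this

end Dom

end Pool.Agent.TH132.W
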