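import Mathlib

/-!
# The unramified Milnor question in degree two: definitions

* `WittRing F` is the Witt ring of the field `F` (of characteristic different from two), in Witt's
  presentation: it is generated by the classes `⟨a⟩` of the forms of rank one, `a ∈ Fˣ`, with the
  multiplication `⟨a⟩⟨b⟩ = ⟨ab⟩` and the relations `⟨ab²⟩ = ⟨a⟩`, `⟨a⟩ + ⟨-a⟩ = 0` and
  `⟨a⟩ + ⟨b⟩ = ⟨a + b⟩ + ⟨ab(a + b)⟩` for `a + b ≠ 0` (see Lam, Introduction to quadratic forms
  over fields, II.4.3). `fund F` is the fundamental ideal `I(F)`.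
* `MilnorK2 F` is the second Milnor K-group.
* `IsPfisterLift α w` says that the class `w` in `I²(F)` lifts the image of `α ∈ K₂(F)` under the
  Pfister map `K₂(F) → I²(F) / I³(F)`, `{a, b} ↦ ⟨⟨a, b⟩⟩`.
* `IsSecondResidue` and `IsTameSymbol` say that a homomorphism is the second residue, the tame
  symbol: they are characterized by their values on generators.
* `UnramW`, `UnramK2` are the unramified classes on an integral scheme.
-/

noncomputable section

namespace Pool.Agent.TH132.W

open AlgebraicGeometry IsLocalRing TensorProduct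

universe u v

section Field

variable (F : Type u) [Field F]

/-- The generator `[a]` of the group ring `ℤ[Fˣ]`. -/
def gen (a : Fˣ) : MonoidAlgebra ℤ Fˣ := MonoidAlgebra.of ℤ Fˣ a

/-- The relations of the Witt ring. -/
inductive Rel : MonoidAlgebra ℤ Fˣ → Prop
  | sq (a b : Fˣ) : Rel (gen F (a * b ^ 2) - gen F a)
  | hyp (a : Fˣ) : Rel (gen F a + gen F (-a))
  | add (a b s : Fˣ) (h : (s : F) = a + b) :
      Rel (gen F a + gen F b - (gen F s + gen F (a * b * s)))

/-- The ideal generated by the relations. -/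
def relIdeal : Ideal (MonoidAlgebra ℤ Fˣ) := Ideal.span {x | Rel F x}

/-- The Witt ring `W(F)`. -/
def WittRing : Type u := MonoidAlgebra ℤ Fˣ ⧸ relIdeal F

/-- The ring structure of the quotient ring. -/
instance wittCommRing : CommRing (WittRing F) := Ideal.Quotient.commRing (relIdeal F)

variable {F} in
/-- The class `⟨a⟩` of a form of rank one. -/
def cls (a : Fˣ) : WittRing F := Ideal.Quotient.mk (relIdeal F) (gen F a)

variable {F} in
/-- The class `⟨⟨a⟩⟩ = ⟨1, -a⟩ = 1 - ⟨a⟩`. -/
def pf (a : Fˣ) : WittRing F := 1 - cls a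

/-- The fundamental ideal `I(F)`, generated by the classes `⟨⟨a⟩⟩`. -/
def fund : Ideal (WittRing F) := Ideal.span (Set.range pf)

/-- The power `I³(F)` as a subgroup. -/
def cube : AddSubgroup (WittRing F) := (fund F ^ 3).toAddSubgroup

/-- The Steinberg relations `a ⊗ b`, `a + b = 1`, and `a ⊗ (-a)`. -/
def steinberg : AddSubgroup (Additive Fˣ ⊗[ℤ] Additive Fˣ) :=
  AddSubgroup.closure ({x | ∃ a b : Fˣ, (a : F) + b = 1 ∧ x = Additive.ofMul a ⊗ₜ Additive.ofMul b} ∪
    {x | ∃ a : Fˣ, x = Additive.ofMul a ⊗ₜ Additive.ofMul (-a)})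

/-- The second Milnor K-group of a field. -/
def MilnorK2 : Type u := (Additive Fˣ ⊗[ℤ] Additive Fˣ) ⧸ steinberg F

/-- The group structure of the quotient group. -/
instance milnorK2Group : AddCommGroup (MilnorK2 F) :=
  QuotientAddGroup.Quotient.addCommGroup (steinberg F)

variable {F} in
/-- The symbol `{a, b}`. -/
def sym (a b : Fˣ) : MilnorK2 F :=
  QuotientAddGroup.mk (s := steinberg F) (Additive.ofMul a ⊗ₜ[ℤ] Additive.ofMul b)

variable {F} in
/-- The map `φ` is the Pfister map `K₂(F) → I²(F) / I³(F) ⊆ W(F) / I³(F)`,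
`{a, b} ↦ ⟨⟨a, b⟩⟩ = ⟨⟨a⟩⟩⟨⟨b⟩⟩`. -/
def IsPfisterMap (φ : MilnorK2 F →+ WittRing F ⧸ cube F) : Prop :=
  ∀ a b : Fˣ, φ (sym a b) = QuotientAddGroup.mk (pf a * pf b)

variable {F} in
/-- The class `w` lies in `I²(F)`, and its class in `I²(F) / I³(F)` is the image of `α` under the
Pfister map. -/
def IsPfisterLift (α : MilnorK2 F) (w : WittRing F) : Prop :=
  w ∈ fund F ^ 2 ∧ ∀ φ : MilnorK2 F →+ WittRing F ⧸ cube F,
    IsPfisterMap φ → φ α = QuotientAddGroup.mk w

end Field

section Valuation

variable {R : Type u} {K : Type v} [CommRing R] [IsDomain R] [IsDiscreteValuationRing R]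
  [Field K] [Algebra R K] [IsFractionRing R K]

/-- The residue class of a unit. -/
def resUnit (u : Rˣ) : (ResidueField R)ˣ := Units.map (residue R : R →* ResidueField R) u

/-- The map `δ` is the second residue homomorphism `W(K) → W(κ)` of the discrete valuation ring
`R` of `K`, with respect to the uniformizer `ϖ`: for a unit `u` of `R`, `⟨u ϖ ^ n⟩` is sent to `0` if
`n` is even and to `⟨ū⟩` if `n` is odd. -/
def IsSecondResidue (ϖ : R) (δ : WittRing K →+ WittRing (ResidueField R)) : Prop :=
  ∀ (n : ℤ) (u : Rˣ) (a : Kˣ), (a : K) = algebraMap R K ϖ ^ n * algebraMap R K u →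
    (Even n → δ (cls a) = 0) ∧ (Odd n → δ (cls a) = cls (resUnit u))

/-- The map `τ` is the tame symbol `K₂(K) → κˣ` of the discrete valuation ring `R` of `K`: if
`a = u ϖ ^ n` and `b = v ϖ ^ m` with units `u` and `v` of `R`, then `{a, b}` is sent to the residue
class `(-1) ^ (n m) ū ^ m / v̄ ^ n` of `(-1) ^ (n m) a ^ m / b ^ n`. -/
def IsTameSymbol (ϖ : R) (τ : MilnorK2 K →+ Additive (ResidueField R)ˣ) : Prop :=
  ∀ (n m : ℤ) (u v : Rˣ) (a b : Kˣ), (a : K) = algebraMap R K ϖ ^ n * algebraMap R K u →
    (b : K) = algebraMap R K ϖ ^ m * algebraMap R K v →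
      τ (sym a b) = Additive.ofMul ((-1) ^ (n * m) * (resUnit u ^ m / resUnit v ^ n))

variable (R) in
/-- The class `w` is unramified at the discrete valuation ring `R`: its second residue vanishes. -/
def UnramifiedWAt (w : WittRing K) : Prop :=
  ∀ ϖ : R, Irreducible ϖ → ∀ δ : WittRing K →+ WittRing (ResidueField R),
    IsSecondResidue ϖ δ → δ w = 0

variable (R) in
/-- The class `α` is unramified at the discrete valuation ring `R`: its tame symbol vanishes. -/
def UnramifiedK2At (α : MilnorK2 K) : Prop :=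
  ∀ ϖ : R, Irreducible ϖ →
    ∃ τ : MilnorK2 K →+ Additive (ResidueField R)ˣ, IsTameSymbol ϖ τ ∧ τ α = 0

end Valuation

section Scheme

variable (X : Scheme.{u}) [IsIntegral X]

/-- The class `w` in the Witt ring of the function field of `X` is unramified on `X`: it is
unramified at all points whose local ring is a discrete valuation ring. (For smooth `X` over a
field these are the points of codimension one.) -/
def UnramW (w : WittRing X.functionField) : Prop :=
  ∀ (x : X) [IsDiscreteValuationRing (X.presheaf.stalk x)],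
    UnramifiedWAt (X.presheaf.stalk x) w

/-- The class `α` in the second Milnor K-group of the function field of `X` is unramified on
`X`. -/
def UnramK2 (α : MilnorK2 X.functionField) : Prop :=
  ∀ (x : X) [IsDiscreteValuationRing (X.presheaf.stalk x)],
    UnramifiedK2At (X.presheaf.stalk x) α

end Scheme

end Pool.Agent.TH132.W
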