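import Pool.Agent.TH132.W.Core

/-!
# The embeddings adapted to the boundary curves, and the contradiction
-/

noncomputable section

set_option linter.unusedSectionVars false

namespace Pool.Agent.TH132.W

open Polynomial IsLocalRing

universe u

section Mu

variable {F : Type u} (K : Type u) [Field F] [Field K] [Algebra F[X] K] [IsFractionRing F[X] K]

/-- The endomorphism `t ↦ m / t`. -/
def muE {m : F} (hm : m ≠ 0) : K →+* K := (invE (F := F) K).comp (mulE K hm)

@[simp] theorem invE_cK (a : F) : invE (F := F) K (cK K a) = cK K a := endo_cK K _ _ a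

@[simp] theorem invE_tv : invE (F := F) K (tv (F := F) K) = (tv (F := F) K)⁻¹ := endo_tv K _ _

@[simp] theorem mulE_cK {m : F} (hm : m ≠ 0) (a : F) : mulE K hm (cK K a) = cK K a :=
  endo_cK K _ _ a

@[simp] theorem mulE_tv {m : F} (hm : m ≠ 0) :
    mulE K hm (tv (F := F) K) = cK K m * tv (F := F) K := endo_tv K _ _

@[simp] theorem muE_cK {m : F} (hm : m ≠ 0) (a : F) : muE K hm (cK K a) = cK K a := by
  unfold muE; rw [RingHom.comp_apply, mulE_cK, invE_cK]

@[simp] theorem muE_tv {m : F} (hm : m ≠ 0) :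
    muE K hm (tv (F := F) K) = cK K m * (tv (F := F) K)⁻¹ := by
  unfold muE; rw [RingHom.comp_apply, mulE_tv, map_mul, invE_cK, invE_tv]

end Mu

section Eta

variable {k : Type u} (F K : Type u) [Field k] [Field F] [Field K] [Algebra k[X] F]
  [IsFractionRing k[X] F] [Algebra F[X] K] [IsFractionRing F[X] K]

/-- The embedding `c ↦ y`, `d ↦ f(y) / x`. -/
def etaB (f : k[X]) (hf : f ≠ 0) : K →+* K :=
  (swapE (k := k) F K).comp (muE K (algebraMap_ne F hf))

/-- The embedding `c ↦ f(y) / x`, `d ↦ y`. -/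
def etaA (f : k[X]) (hf : f ≠ 0) : K →+* K :=
  (etaB F K f hf).comp (swapE (k := k) F K)

/-- The embedding `c ↦ y f(y) / x`, `d ↦ f(y) / x`. -/
def etaC (f : k[X]) (hf : f ≠ 0) : K →+* K :=
  ((etaA F K f hf).comp (mulE K (tv_ne (F := k) F))).comp (swapE (k := k) F K)

theorem kc_eq (a : k) : kc F K a = cK K (cK (F := k) F a) := rfl

theorem etaB_cv (f : k[X]) (hf : f ≠ 0) : etaB F K f hf (cv (k := k) F K) = tv (F := F) K := by
  unfold etaB
  rw [RingHom.comp_apply]
  have : muE K (algebraMap_ne F hf) (cv (k := k) F K) = cv (k := k) F K := muE_cK K _ _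
  rw [this, swapE_cv]

theorem etaB_tv (f : k[X]) (hf : f ≠ 0) : etaB F K f hf (tv (F := F) K) =
    algebraMap F[X] K (f.map (cK (F := k) F)) * (cv (k := k) F K)⁻¹ := by
  unfold etaB
  rw [RingHom.comp_apply, muE_tv, map_mul, map_inv₀, swapE_tv, swapE_cK_algebraMap]

theorem etaB_kc (f : k[X]) (hf : f ≠ 0) (a : k) : etaB F K f hf (kc F K a) = kc F K a := by
  unfold etaB
  rw [RingHom.comp_apply]
  have : muE K (algebraMap_ne F hf) (kc F K a) = kc F K a := muE_cK K _ _
  rw [this, swapE_kc]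

theorem etaA_cv (f : k[X]) (hf : f ≠ 0) : etaA F K f hf (cv (k := k) F K) =
    algebraMap F[X] K (f.map (cK (F := k) F)) * (cv (k := k) F K)⁻¹ := by
  unfold etaA; rw [RingHom.comp_apply, swapE_cv, etaB_tv]

theorem etaA_tv (f : k[X]) (hf : f ≠ 0) : etaA F K f hf (tv (F := F) K) = tv (F := F) K := by
  unfold etaA; rw [RingHom.comp_apply, swapE_tv (k := k), etaB_cv]

theorem etaA_kc (f : k[X]) (hf : f ≠ 0) (a : k) : etaA F K f hf (kc F K a) = kc F K a := by
  unfold etaA; rw [RingHom.comp_apply, swapE_kc, etaB_kc]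

theorem etaC_tv (f : k[X]) (hf : f ≠ 0) : etaC F K f hf (tv (F := F) K) =
    algebraMap F[X] K (f.map (cK (F := k) F)) * (cv (k := k) F K)⁻¹ := by
  unfold etaC
  rw [RingHom.comp_apply, RingHom.comp_apply, swapE_tv (k := k)]
  have : mulE K (tv_ne (F := k) F) (cv (k := k) F K) = cv (k := k) F K := mulE_cK K _ _
  rw [this, etaA_cv]

theorem etaC_cv (f : k[X]) (hf : f ≠ 0) : etaC F K f hf (cv (k := k) F K) =
    tv (F := F) K * (algebraMap F[X] K (f.map (cK (F := k) F)) * (cv (k := k) F K)⁻¹) := by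
  unfold etaC
  rw [RingHom.comp_apply, RingHom.comp_apply, swapE_cv (k := k), mulE_tv, map_mul, etaA_tv]
  have : etaA F K f hf (cK K (tv (F := k) F)) = etaA F K f hf (cv (k := k) F K) := rfl
  rw [this, etaA_cv, mul_comm]

theorem etaC_kc (f : k[X]) (hf : f ≠ 0) (a : k) : etaC F K f hf (kc F K a) = kc F K a := by
  unfold etaC
  rw [RingHom.comp_apply, RingHom.comp_apply, swapE_kc]
  have : mulE K (tv_ne (F := k) F) (kc F K a) = kc F K a := mulE_cK K _ _
  rw [this, etaA_kc]

theorem map_form4 (θ : K →+* K) (hθ : ∀ a : k, θ (kc F K a) = kc F K a)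
    (q00 q10 q01 q11 : WittRing k) :
    map θ (form4 F K q00 q10 q01 q11) =
      qk F K q00 + cz (θ (cv (k := k) F K)) * qk F K q10 + cz (θ (tv (F := F) K)) * qk F K q01 +
        cz (θ (cv (k := k) F K)) * cz (θ (tv (F := F) K)) * qk F K q11 := by
  unfold form4
  simp only [_root_.map_add, _root_.map_mul, map_cz, map_qk F K θ hθ]

theorem cv_ne : cv (k := k) F K ≠ 0 :=
  (map_ne_zero_iff _ (RingHom.injective _)).2 (tv_ne F)

/-- The polynomial `m (X² - a)`. -/
def fpol (m a : k) : k[X] := C m * (X ^ 2 - C a)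

theorem fpol_ne {m : k} (hm : m ≠ 0) (a : k) : fpol m a ≠ 0 :=
  mul_ne_zero (C_ne_zero.2 hm) (X_pow_sub_C_ne_zero (by norm_num) a)

theorem fpol_map (m a : k) : (fpol m a).map (cK (F := k) F) =
    C (cK F m) * (X ^ 2 - C (cK F a)) := by
  simp [fpol]

theorem cz_fpol {m : k} (a : k) :
    cz (algebraMap F[X] K ((fpol m a).map (cK (F := k) F)) * (cv (k := k) F K)⁻¹) =
      cz (cK K (cK F m * tv (F := k) F)) * pc K (X ^ 2 - C (cK F a) : F[X]) := by
  have h1 : algebraMap F[X] K ((fpol m a).map (cK (F := k) F)) * (cv (k := k) F K)⁻¹ =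
      (cK K (cK F m * tv (F := k) F) * algebraMap F[X] K (X ^ 2 - C (cK F a) : F[X])) *
        ((cv (k := k) F K)⁻¹) ^ 2 := by
    rw [fpol_map, map_mul, map_mul]
    have h2 : cK K (tv (F := k) F) = cv (k := k) F K := rfl
    have h3 : algebraMap F[X] K (C (cK F m)) = cK K (cK F m) := rfl
    rw [h2, h3]
    have := cv_ne (k := k) F K
    field_simp
  rw [h1, cz_mul_sq _ (inv_ne_zero (cv_ne F K)), map_mul]
  rfl

theorem bdryA {m : k} (hm : m ≠ 0) (a : k) (hi : Irreducible (X ^ 2 - C (cK F a) : F[X]))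
    (q00 q10 q01 q11 : WittRing k)
    (h : (lamP K _ hi (map (etaA F K (fpol m a) (fpol_ne hm a))
      (form4 F K q00 q10 q01 q11))).im = 0) : q11 = cz (-a) * q11 := by
  rw [map_form4 F K _ (etaA_kc F K _ _), etaA_cv, etaA_tv, cz_fpol] at h
  have h1 := bdry K (cK F a) hi (cK F m * tv (F := k) F)
    (mul_ne_zero ((map_ne_zero_iff _ (RingHom.injective _)).2 hm) (tv_ne F))
    (map (cK (F := k) F) q00) (map (cK (F := k) F) q01) (map (cK (F := k) F) q10)
    (map (cK (F := k) F) q11) (by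
      refine (congrArg (fun z => (lamP K _ hi z).im) ?_).trans h
      unfold qk pc tv
      ring)
  apply map_cK_injective F
  rw [_root_.map_mul, map_cz, map_neg, ← h1]

theorem bdryB {m : k} (hm : m ≠ 0) (a : k) (hi : Irreducible (X ^ 2 - C (cK F a) : F[X]))
    (q00 q10 q01 q11 : WittRing k)
    (h : (lamP K _ hi (map (etaB F K (fpol m a) (fpol_ne hm a))
      (form4 F K q00 q10 q01 q11))).im = 0) : q11 = cz (-a) * q11 := by
  rw [map_form4 F K _ (etaB_kc F K _ _), etaB_cv, etaB_tv, cz_fpol] at h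
  have h1 := bdry K (cK F a) hi (cK F m * tv (F := k) F)
    (mul_ne_zero ((map_ne_zero_iff _ (RingHom.injective _)).2 hm) (tv_ne F))
    (map (cK (F := k) F) q00) (map (cK (F := k) F) q10) (map (cK (F := k) F) q01)
    (map (cK (F := k) F) q11) (by
      refine (congrArg (fun z => (lamP K _ hi z).im) ?_).trans h
      unfold qk pc tv
      ring)
  apply map_cK_injective F
  rw [_root_.map_mul, map_cz, map_neg, ← h1]

theorem bdryC {m : k} (hm : m ≠ 0) (a : k) (hi : Irreducible (X ^ 2 - C (cK F a) : F[X]))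
    (q00 q10 q01 q11 : WittRing k)
    (h : (lamP K _ hi (map (etaC F K (fpol m a) (fpol_ne hm a))
      (form4 F K q00 q10 q01 q11))).im = 0) : q10 = cz (-a) * q10 := by
  rw [map_form4 F K _ (etaC_kc F K _ _), etaC_cv, etaC_tv, map_mul, cz_fpol] at h
  have hu : cK F m * tv (F := k) F ≠ 0 :=
    mul_ne_zero ((map_ne_zero_iff _ (RingHom.injective _)).2 hm) (tv_ne F)
  have e1 : cz (cK K (cK F m * tv (F := k) F)) * cz (cK K (cK F m * tv (F := k) F)) = 1 :=
    cz_sq ((map_ne_zero_iff _ (RingHom.injective _)).2 hu)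
  have e2 : pc K (X ^ 2 - C (cK F a) : F[X]) * pc K (X ^ 2 - C (cK F a) : F[X]) = 1 :=
    pc_sq K hi.ne_zero
  have h1 := bdry K (cK F a) hi (cK F m * tv (F := k) F) hu
    (map (cK (F := k) F) q00) (map (cK (F := k) F) q11) (map (cK (F := k) F) q01)
    (map (cK (F := k) F) q10) (by
      refine (congrArg (fun z => (lamP K _ hi z).im) ?_).trans h
      have hX : pc K (X : F[X]) = cz (tv (F := F) K) := rfl
      rw [hX]
      unfold qk
      linear_combination (-(cz (tv (F := F) K) * map (cK (F := F) K) (map (cK (F := k) F) q11) *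
        (cz (cK K (cK F m * tv (F := k) F)) * cz (cK K (cK F m * tv (F := k) F))))) * e2 -
        (cz (tv (F := F) K) * map (cK (F := F) K) (map (cK (F := k) F) q11)) * e1)
  apply map_cK_injective F
  rw [_root_.map_mul, map_cz, map_neg, ← h1]

theorem irred_or {a : k} (ha : a ≠ 0) :
    Irreducible (X ^ 2 - C (cK F a) : F[X]) ∨ cz a = 1 := by
  by_cases h : IsSquare (cK F a)
  · right
    obtain ⟨b, hb⟩ := h
    have hb0 : b ≠ 0 := by
      rintro rfl
      rw [mul_zero] at hb
      exact ((map_ne_zero_iff _ (RingHom.injective _)).2 ha) hb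
    apply map_cK_injective F
    rw [map_cz, hb, map_mul, cz_sq hb0, map_one]
  · left
    refine X_pow_sub_C_irreducible_of_prime Nat.prime_two ?_
    intro b hb
    exact h ⟨b, by rw [← hb, pow_two]⟩

theorem filt3 (q00 q10 q01 q11 : WittRing k) {a b : k}
    (h : form4 F K q00 q10 q01 q11 - ((1 - cz (cv (k := k) F K)) * (1 - cz (kc F K a)) +
      (1 - cz (tv (F := F) K)) * (1 - cz (kc F K b))) ∈ fund K ^ 3) :
    q10 + q11 + (1 - cz a) ∈ fund k ^ 2 := by
  have hc : ∀ q : WittRing k, qk F K q = map (cK (F := F) K) (map (cK (F := k) F) q) :=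
    fun _ => rfl
  have h1 := map_fund_le (swapE (k := k) F K) 3 h
  rw [map_sub, map_form4 F K _ (swapE_kc F K), swapE_cv, swapE_tv (k := k)] at h1
  simp only [_root_.map_add, _root_.map_mul, _root_.map_sub, map_one, map_cz, swapE_cv,
    swapE_tv (k := k), swapE_kc] at h1
  have e1 : cz (cv (k := k) F K) = map (cK (F := F) K) (pc F (X : k[X])) := by
    unfold pc; rw [map_cz]; rfl
  have e2 : ∀ a : k, cz (kc F K a) = map (cK (F := F) K) (map (cK (F := k) F) (cz a)) := by
    intro a; rw [map_cz, map_cz]; rfl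
  have e3 : cz (tv (F := F) K) = pc K (X : F[X]) := rfl
  rw [e1, e2, e2, e3, hc, hc, hc, hc] at h1
  have h2 := (lam0_filt (F := F) K 2 h1).1
  simp only [_root_.map_add, _root_.map_mul, _root_.map_sub, map_one, lam0_const, lam0_X] at h2
  simp only [QuadraticAlgebra.im_add, QuadraticAlgebra.im_mul, QuadraticAlgebra.re_mul, cst_re,
    cst_im, QuadraticAlgebra.re_sub, QuadraticAlgebra.im_sub,
    QuadraticAlgebra.re_one, QuadraticAlgebra.im_one] at h2
  have e4 : map (cK (F := k) F) (q10 + (1 - cz a)) + pc F (X : k[X]) * map (cK (F := k) F) q11 ∈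
      fund F ^ 2 := by
    convert h2 using 1
    simp only [_root_.map_add, _root_.map_sub, map_one]
    ring
  have h3 := (lam0_filt (F := k) F 1 e4).2
  simp only [_root_.map_add, _root_.map_mul, lam0_const, lam0_X] at h3
  simp only [QuadraticAlgebra.im_add, QuadraticAlgebra.im_mul, QuadraticAlgebra.re_mul, cst_re,
    cst_im, QuadraticAlgebra.re_add] at h3
  convert h3 using 1
  ring

/-- **The contradiction.** -/
theorem core {p r i : k} (hp : p ≠ 0) (hr : r ≠ 0) (hi : i ^ 2 = -1)
    (hpr : (1 - cz p) * (1 - cz r) ∉ fund k ^ 3) (w : WittRing K)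
    (h1 : ∀ (π : F[X]) (_ : π.Monic) (hi : Irreducible π), π ≠ X → (lamP K π hi w).im = 0)
    (h2 : ∀ (π : F[X]) (_ : π.Monic) (hi : Irreducible π), π ≠ X →
      (lamP K π hi (map (swapE (k := k) F K) w)).im = 0)
    (hA : ∀ hi : Irreducible (X ^ 2 - C (cK F (r / p)) : F[X]),
      (lamP K _ hi (map (etaA F K (fpol p (r / p)) (fpol_ne hp _)) w)).im = 0)
    (hB : ∀ hi : Irreducible (X ^ 2 - C (cK F r) : F[X]),
      (lamP K _ hi (map (etaB F K (fpol 1 r) (fpol_ne one_ne_zero _)) w)).im = 0)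
    (hC : ∀ hi : Irreducible (X ^ 2 - C (cK F p) : F[X]),
      (lamP K _ hi (map (etaC F K (fpol 1 p) (fpol_ne one_ne_zero _)) w)).im = 0)
    (hw : w - ((1 - cz (cv (k := k) F K)) * (1 - cz (kc F K (r / p))) +
      (1 - cz (tv (F := F) K)) * (1 - cz (kc F K r))) ∈ fund K ^ 3) : False := by
  have hi0 : i ≠ 0 := by rintro rfl; rw [zero_pow two_ne_zero] at hi; simp at hi
  have hm1 : cz (-1 : k) = 1 := by
    rw [← hi, pow_two, map_mul, cz_sq hi0]
  have h20 : (2 : WittRing k) = 0 := by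
    have := cz_neg (1 : k)
    rw [hm1, map_one] at this
    linear_combination this
  have hneg : ∀ a : k, cz (-a) = cz a := by
    intro a
    rw [neg_eq_neg_one_mul, map_mul, hm1, one_mul]
  have hrp : cz (r / p) = cz r * cz p := by
    have : r / p = r * p * (p⁻¹) ^ 2 := by field_simp
    rw [this, cz_mul_sq _ (inv_ne_zero hp), map_mul]
  have hpp := cz_sq hp
  have iA : Irreducible (X ^ 2 - C (cK F (r / p)) : F[X]) := by
    rcases irred_or F (div_ne_zero hr hp) with h | h
    · exact h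
    · exfalso
      apply hpr
      rw [hrp] at h
      have h3 : cz r = cz p := by linear_combination (-cz r) * hpp + cz p * h
      have h4 : (1 - cz p) * (1 - cz r) = 0 := by
        rw [h3]
        linear_combination hpp + (1 - cz p) * h20
      rw [h4]; exact zero_mem _
  have iB : Irreducible (X ^ 2 - C (cK F r) : F[X]) := by
    rcases irred_or F hr with h | h
    · exact h
    · exfalso
      apply hpr
      rw [h, sub_self, mul_zero]
      exact zero_mem _
  have iC : Irreducible (X ^ 2 - C (cK F p) : F[X]) := by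
    rcases irred_or F hp with h | h
    · exact h
    · exfalso
      apply hpr
      rw [h, sub_self, zero_mul]
      exact zero_mem _
  obtain ⟨q00, q10, q01, q11, rfl⟩ := torus2 F K w h1 h2
  have cA := bdryA F K hp (r / p) iA q00 q10 q01 q11 (hA iA)
  have cB := bdryB F K one_ne_zero r iB q00 q10 q01 q11 (hB iB)
  have cC := bdryC F K one_ne_zero p iC q00 q10 q01 q11 (hC iC)
  rw [hneg] at cA cB cC
  rw [hrp] at cA
  have h3 := filt3 F K q00 q10 q01 q11 hw
  rw [hrp] at h3
  apply hpr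
  have h4 := Ideal.mul_mem_mul h3 (one_sub_cz_mem hp)
  rw [← pow_succ] at h4
  convert h4 using 1
  -- `⟨⟨p⟩⟩ q11 = 0` and `⟨⟨p⟩⟩ q10 = 0`
  have hrr := cz_sq hr
  have e1 : cz p * q11 = q11 := by
    have e : cz r * (cz r * cz p * q11) = cz p * q11 := by linear_combination (cz p * q11) * hrr
    rw [← cA] at e
    rw [← e, ← cB]
  linear_combination (-(1 - cz p) * cz r) * h20 + e1 - cC - cz r * hpp

end Eta

end Pool.Agent.TH132.W
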