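import Pool.Agent.TH132.W.Spec0

/-!
# The Pfister form `⟨⟨2, t⟩⟩` over the field `𝔽₅(t)`
-/

noncomputable section

set_option linter.unusedSectionVars false

namespace Pool.Agent.TH132.W

open Polynomial

instance : Fact (Nat.Prime 5) := ⟨by norm_num⟩

/-- The group homomorphism `(𝔽₅)ˣ → {1, ε}`. -/
def chi5 : (ZMod 5)ˣ →* Dbl (ZMod 2) where
  toFun a := if (a : ZMod 5) ^ 2 = 1 then 1 else ⟨0, 1⟩
  map_one' := by simp
  map_mul' a b := by
    have key : ∀ a b : ZMod 5, a ≠ 0 → b ≠ 0 →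
        (a ^ 2 = 1 ∧ b ^ 2 = 1 ∧ (a * b) ^ 2 = 1) ∨ (a ^ 2 = 1 ∧ b ^ 2 ≠ 1 ∧ (a * b) ^ 2 ≠ 1) ∨
        (a ^ 2 ≠ 1 ∧ b ^ 2 = 1 ∧ (a * b) ^ 2 ≠ 1) ∨ (a ^ 2 ≠ 1 ∧ b ^ 2 ≠ 1 ∧ (a * b) ^ 2 = 1) := by
      decide
    rw [Units.val_mul]
    rcases key a b a.ne_zero b.ne_zero with ⟨h1, h2, h3⟩ | ⟨h1, h2, h3⟩ | ⟨h1, h2, h3⟩ |
      ⟨h1, h2, h3⟩
    · rw [if_pos h1, if_pos h2, if_pos h3, one_mul]
    · rw [if_pos h1, if_neg h2, if_neg h3, one_mul]
    · rw [if_neg h1, if_pos h2, if_neg h3, mul_one]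
    · rw [if_neg h1, if_neg h2, if_pos h3]
      ext <;> simp [QuadraticAlgebra.re_one, QuadraticAlgebra.im_one]

theorem chi5_sq (b : (ZMod 5)ˣ) : chi5 b * chi5 b = 1 := by
  change (if (b : ZMod 5) ^ 2 = 1 then (1 : Dbl (ZMod 2)) else ⟨0, 1⟩) *
    (if (b : ZMod 5) ^ 2 = 1 then 1 else ⟨0, 1⟩) = 1
  split_ifs
  · rw [one_mul]
  · ext <;> simp [QuadraticAlgebra.re_one, QuadraticAlgebra.im_one]

theorem dbl_two : (1 : Dbl (ZMod 2)) = -1 := by
  ext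
  · simp only [QuadraticAlgebra.re_one, QuadraticAlgebra.re_neg]; decide
  · simp only [QuadraticAlgebra.im_one, QuadraticAlgebra.im_neg]; decide

theorem dbl_add_self (x : Dbl (ZMod 2)) : x + x = 0 := by
  have h : (1 : Dbl (ZMod 2)) + 1 = 0 := by
    conv_lhs => rw [dbl_two]
    rw [← dbl_two]
    have := dbl_two
    linear_combination this
  linear_combination x * h

/-- The homomorphism `W(𝔽₅) → 𝔽₂[ε]`, `ε² = 1`. -/
def psi5 : WittRing (ZMod 5) →+* Dbl (ZMod 2) :=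
  lift chi5 chi5_sq (by
    change (if ((-1 : (ZMod 5)ˣ) : ZMod 5) ^ 2 = 1 then (1 : Dbl (ZMod 2)) else ⟨0, 1⟩) = -1
    rw [if_pos (by simp)]
    exact dbl_two) (by
    intro a b s h
    have hs := chi5_sq s
    have ha := chi5_sq a
    have hb := chi5_sq b
    have e : ∀ a b : (ZMod 5)ˣ, ((a : ZMod 5) ^ 2 = 1 ∧ (b : ZMod 5) ^ 2 = 1) ∨
        ((a : ZMod 5) ^ 2 ≠ 1 ∧ (b : ZMod 5) ^ 2 ≠ 1) → chi5 a = chi5 b := by
      intro a b h
      change (if (a : ZMod 5) ^ 2 = 1 then (1 : Dbl (ZMod 2)) else ⟨0, 1⟩) =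
        (if (b : ZMod 5) ^ 2 = 1 then (1 : Dbl (ZMod 2)) else ⟨0, 1⟩)
      rcases h with ⟨h1, h2⟩ | ⟨h1, h2⟩
      · rw [if_pos h1, if_pos h2]
      · rw [if_neg h1, if_neg h2]
    have h3 : chi5 a = chi5 s ∨ chi5 b = chi5 s ∨ chi5 a = chi5 b := by
      by_cases ha : (a : ZMod 5) ^ 2 = 1
      · by_cases hb : (b : ZMod 5) ^ 2 = 1
        · exact Or.inr (Or.inr (e _ _ (Or.inl ⟨ha, hb⟩)))
        · by_cases hs : (s : ZMod 5) ^ 2 = 1
          · exact Or.inl (e _ _ (Or.inl ⟨ha, hs⟩))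
          · exact Or.inr (Or.inl (e _ _ (Or.inr ⟨hb, hs⟩)))
      · by_cases hb : (b : ZMod 5) ^ 2 = 1
        · by_cases hs : (s : ZMod 5) ^ 2 = 1
          · exact Or.inr (Or.inl (e _ _ (Or.inl ⟨hb, hs⟩)))
          · exact Or.inl (e _ _ (Or.inr ⟨ha, hs⟩))
        · exact Or.inr (Or.inr (e _ _ (Or.inr ⟨ha, hb⟩)))
    rcases h3 with h3 | h3 | h3
    · rw [h3]
      linear_combination (-chi5 b) * hs
    · rw [h3]
      linear_combination (-chi5 a) * hs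
    · rw [h3]
      linear_combination (-chi5 s) * hb + dbl_add_self (chi5 b) - dbl_add_self (chi5 s))

/-- The unit `2`. -/
def u2 : (ZMod 5)ˣ := Units.mk0 2 (by decide)

theorem two_zero5 : (2 : WittRing (ZMod 5)) = 0 := by
  have h1 : (-1 : (ZMod 5)ˣ) = u2 ^ 2 := by
    ext; simp only [u2]; decide
  have h2 := cls_neg (1 : (ZMod 5)ˣ)
  rw [h1, cls_sq, cls_one] at h2
  linear_combination h2

theorem cls5 (a : (ZMod 5)ˣ) : cls a = 1 ∨ cls a = cls u2 := by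
  have key : ∀ a : ZMod 5, a ≠ 0 → a = 1 ^ 2 ∨ a = 2 ^ 2 ∨ a = 2 * 1 ^ 2 ∨ a = 2 * 2 ^ 2 := by
    decide
  rcases key a a.ne_zero with h | h | h | h
  · left
    have : a = 1 := by ext; simpa using h
    rw [this, cls_one]
  · left
    have : a = u2 ^ 2 := by ext; simpa [u2] using h
    rw [this, cls_sq]
  · right
    have : a = u2 := by ext; simpa [u2] using h
    rw [this]
  · right
    have : a = u2 * u2 ^ 2 := by ext; simpa [u2] using h
    rw [this, cls_sq']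

theorem pf5 (a : (ZMod 5)ˣ) : pf a = 0 ∨ pf a = pf u2 := by
  unfold pf
  rcases cls5 a with h | h
  · left; rw [h, sub_self]
  · right; rw [h]

theorem fund5_sq : fund (ZMod 5) ^ 2 = ⊥ := by
  rw [pow_two, fund, Ideal.span_mul_span', Ideal.span_eq_bot]
  rintro _ ⟨_, ⟨a, rfl⟩, _, ⟨b, rfl⟩, rfl⟩
  change pf a * pf b = 0
  have h2 : pf u2 * pf u2 = 0 := by
    unfold pf
    linear_combination (1 - cls u2) * two_zero5 + cls_mul_self u2
  rcases pf5 a with ha | ha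
  · rw [ha, zero_mul]
  · rcases pf5 b with hb | hb
    · rw [hb, mul_zero]
    · rw [ha, hb, h2]

theorem cls_u2_ne : cls u2 ≠ (1 : WittRing (ZMod 5)) := by
  intro h
  have h1 := congrArg psi5 h
  rw [map_one] at h1
  have h2 : psi5 (cls u2) = ⟨0, 1⟩ := by
    unfold psi5
    rw [lift_cls]
    change (if (u2 : ZMod 5) ^ 2 = 1 then (1 : Dbl (ZMod 2)) else ⟨0, 1⟩) = ⟨0, 1⟩
    rw [if_neg]
    simp only [u2]
    decide
  rw [h2] at h1
  have h3 := congrArg (fun z => z.re) h1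
  simp [QuadraticAlgebra.re_one] at h3

theorem pfister5 {K : Type} [Field K] [Algebra (ZMod 5)[X] K] [IsFractionRing (ZMod 5)[X] K] :
    (1 - cz (cK (F := ZMod 5) K 2)) * (1 - cz (tv (F := ZMod 5) K)) ∉ fund K ^ 3 := by
  intro h
  have h1 := (lam0_filt (F := ZMod 5) K 2 h).1
  rw [fund5_sq, Ideal.mem_bot] at h1
  have e1 : cz (cK (F := ZMod 5) K 2) = map (cK (F := ZMod 5) K) (cz 2) := by rw [map_cz]
  have e2 : cz (tv (F := ZMod 5) K) = pc K (X : (ZMod 5)[X]) := rfl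
  rw [e1, e2] at h1
  simp only [_root_.map_mul, _root_.map_sub, map_one, lam0_const, lam0_X] at h1
  simp only [QuadraticAlgebra.im_mul, cst_re,
    cst_im, QuadraticAlgebra.re_sub, QuadraticAlgebra.im_sub,
    QuadraticAlgebra.re_one, QuadraticAlgebra.im_one] at h1
  apply cls_u2_ne
  have e3 : cls u2 = cz (2 : ZMod 5) := by rw [← cz_unit]; rfl
  rw [e3]
  linear_combination h1

end Pool.Agent.TH132.W
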