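import Pool.Agent.TH132.W.Etas

/-!
# Comparison of local rings
-/

noncomputable section

set_option linter.unusedSectionVars false

namespace Pool.Agent.TH132.W

open Polynomial IsLocalRing

universe u v

section Geom

variable {k : Type u} {F K : Type u} [Field k] [Field F] [Field K] [Algebra k[X] F]
  [IsFractionRing k[X] F] [Algebra F[X] K] [IsFractionRing F[X] K]
  {π : F[X]} {hi : Irreducible π}
  {A : Type v} [CommRing A] [IsDomain A] {L : Type v} [Field L] [Algebra A L] [IsFractionRing A L]

/-- Elements of `K` which are quotients `θ(a) / θ(b)` with `θ(b)` a unit at `π`. -/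
def Quo (π : F[X]) (hi : Irreducible π) (ψ : A →+* K) (x : K) : Prop :=
  ∃ a b : A, x * ψ b = ψ a ∧ ∃ y : K, y ∈ Oloc K π hi ∧ ψ b * y = 1

theorem isUnit_iff_exists_mem {x : K} (hx : x ∈ Oloc K π hi) :
    IsUnit (⟨x, hx⟩ : Oloc K π hi) ↔ ∃ y ∈ Oloc K π hi, x * y = 1 := by
  rw [isUnit_iff_exists_inv]
  constructor
  · rintro ⟨⟨y, hy⟩, h⟩
    exact ⟨y, hy, congrArg Subtype.val h⟩
  · rintro ⟨y, hy, h⟩
    exact ⟨⟨y, hy⟩, Subtype.ext h⟩

/-- The comparison of the local rings. -/
theorem geom_equiv (θ : L →+* K) (hA : ∀ a : A, θ (algebraMap A L a) ∈ Oloc K π hi)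
    (hk : ∀ c : k, ∃ a : A, θ (algebraMap A L a) = kc (k := k) F K c)
    (hx : Quo π hi (θ.comp (algebraMap A L)) (cv (k := k) F K))
    (hy : Quo π hi (θ.comp (algebraMap A L)) (tv (F := F) K))
    (R : Type v) [CommRing R] [Algebra A R] [Algebra R L] [IsScalarTower A R L]
    (P : Ideal A) [P.IsPrime] (hP : P = (maximalIdeal (Oloc K π hi)).comap
      ((θ.comp (algebraMap A L)).codRestrict (Oloc K π hi) hA))
    [IsLocalization.AtPrime R P] :
    ∃ e : R ≃+* Oloc K π hi, ∀ z : R, (e z : K) = θ (algebraMap R L z) := by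
  set gA : A →+* Oloc K π hi := (θ.comp (algebraMap A L)).codRestrict (Oloc K π hi) hA with hgA
  have hu : ∀ y : P.primeCompl, IsUnit (gA y) := by
    rintro ⟨y, hy⟩
    by_contra hcon
    apply hy
    rw [hP]
    exact (mem_maximalIdeal _).2 hcon
  set g : R →+* Oloc K π hi := IsLocalization.lift (M := P.primeCompl) hu with hg
  have hcomp : ∀ z : R, (g z : K) = θ (algebraMap R L z) := by
    intro z
    obtain ⟨a, b, rfl⟩ := IsLocalization.exists_mk'_eq P.primeCompl z
    have h1 : (g (IsLocalization.mk' R a b) : K) * (gA b : K) = gA a := by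
      rw [hg]
      have := IsLocalization.lift_mk'_spec (M := P.primeCompl) (S := R) (g := gA) (hg := hu) a
        (IsLocalization.lift (M := P.primeCompl) hu (IsLocalization.mk' R a b)) b
      have h2 := this.1 rfl
      rw [mul_comm]
      exact (congrArg Subtype.val h2).symm
    have h2 : θ (algebraMap R L (IsLocalization.mk' R a b)) * (gA b : K) = gA a := by
      change θ (algebraMap R L (IsLocalization.mk' R a b)) * θ (algebraMap A L b) =
        θ (algebraMap A L a)
      rw [← map_mul]
      congr 1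
      rw [IsScalarTower.algebraMap_apply A R L, ← map_mul, IsLocalization.mk'_spec,
        ← IsScalarTower.algebraMap_apply A R L]
    have h3 : (gA b : K) ≠ 0 := by
      intro h0
      have h4 : gA b = 0 := Subtype.ext h0
      have h5 := hu b
      rw [h4] at h5
      exact not_isUnit_zero h5
    exact mul_right_cancel₀ h3 (h1.trans h2.symm)
  have hinjRL : Function.Injective (algebraMap R L) := by
    rw [injective_iff_map_eq_zero]
    intro z hz
    obtain ⟨a, b, rfl⟩ := IsLocalization.exists_mk'_eq P.primeCompl z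
    have h2 : algebraMap A L a = 0 := by
      rw [IsScalarTower.algebraMap_apply A R L, ← IsLocalization.mk'_spec R a b, map_mul, hz,
        zero_mul]
    have h3 : a = 0 := (map_eq_zero_iff _ (IsFractionRing.injective A L)).1 h2
    rw [h3, IsLocalization.mk'_zero]
  have hinj : Function.Injective g := by
    intro x y hxy
    have h1 := congrArg Subtype.val hxy
    rw [hcomp, hcomp] at h1
    exact hinjRL (θ.injective h1)
  -- elements of the image
  let S : Subring K := g.range.map (Oloc K π hi).subtype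
  have hSg : ∀ a : A, θ (algebraMap A L a) ∈ S := by
    intro a
    refine ⟨g (algebraMap A R a), ⟨_, rfl⟩, ?_⟩
    change (g (algebraMap A R a) : K) = _
    rw [hcomp, ← IsScalarTower.algebraMap_apply]
  have hSinv : ∀ x y : K, x ∈ S → y ∈ Oloc K π hi → x * y = 1 → y ∈ S := by
    rintro x y ⟨_, ⟨z, rfl⟩, rfl⟩ hy hxy
    obtain ⟨a, b, rfl⟩ := IsLocalization.exists_mk'_eq P.primeCompl z
    have hga : IsUnit (gA a) := by
      have h1 : IsUnit (g (IsLocalization.mk' R a b)) :=
        isUnit_iff_exists_inv.2 ⟨⟨y, hy⟩, Subtype.ext hxy⟩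
      have h2 : g (IsLocalization.mk' R a b) * gA b = gA a := by
        have := IsLocalization.lift_mk'_spec (M := P.primeCompl) (S := R) (g := gA) (hg := hu) a
          (IsLocalization.lift (M := P.primeCompl) hu (IsLocalization.mk' R a b)) b
        rw [mul_comm]; exact (this.1 rfl).symm
      rw [← h2]; exact h1.mul (hu b)
    have haP : a ∈ P.primeCompl := by
      intro haP
      rw [hP] at haP
      exact (mem_maximalIdeal _).1 haP hga
    have hz : IsUnit (IsLocalization.mk' R a b) := by
      have h1 : IsUnit (algebraMap A R a) := IsLocalization.map_units R (⟨a, haP⟩ : P.primeCompl)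
      rw [← IsLocalization.mk'_spec R a b] at h1
      exact isUnit_of_mul_isUnit_left h1
    obtain ⟨z', hz'⟩ := isUnit_iff_exists_inv.1 hz
    refine ⟨g z', ⟨_, rfl⟩, ?_⟩
    have h1 : (g (IsLocalization.mk' R a b) : K) * (g z' : K) = 1 := by
      have := congrArg (fun z => ((g z : Oloc K π hi) : K)) hz'
      simpa using this
    have hxy' : (g (IsLocalization.mk' R a b) : K) * y = 1 := hxy
    have h0 : (g (IsLocalization.mk' R a b) : K) ≠ 0 := left_ne_zero_of_mul_eq_one hxy'
    exact mul_left_cancel₀ h0 (h1.trans hxy'.symm)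
  have hQ : ∀ x : K, Quo π hi (θ.comp (algebraMap A L)) x → x ∈ S := by
    rintro x ⟨a, b, hab, y, hy, hby⟩
    have h1 : y ∈ S := hSinv _ y (hSg b) hy hby
    have h2 : x = θ (algebraMap A L a) * y := by
      rw [RingHom.comp_apply, RingHom.comp_apply] at hab
      rw [RingHom.comp_apply] at hby
      rw [← hab, mul_assoc, hby, mul_one]
    rw [h2]; exact mul_mem (hSg a) h1
  have hSk : ∀ c : k, kc (k := k) F K c ∈ S := by
    intro c
    obtain ⟨a, ha⟩ := hk c
    rw [← ha]; exact hSg a
  have hSb : ∀ f : k[X][X], biv (k := k) F K f ∈ S := by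
    have h1 : ∀ f : k[X], biv (k := k) F K (C f) ∈ S := by
      intro f
      induction f using Polynomial.induction_on' with
      | add p q hp hq => rw [C_add, map_add]; exact add_mem hp hq
      | monomial n a =>
        rw [← C_mul_X_pow_eq_monomial, C_mul, map_mul, C_pow, map_pow, biv_CC, biv_CX]
        exact mul_mem (hSk a) (pow_mem (hQ _ hx) n)
    intro f
    induction f using Polynomial.induction_on' with
    | add p q hp hq => rw [map_add]; exact add_mem hp hq
    | monomial n a =>
      rw [← C_mul_X_pow_eq_monomial, map_mul, map_pow, biv_X]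
      exact mul_mem (h1 a) (pow_mem (hQ _ hy) n)
  have key : ∀ f : F[X], ∃ (b : k[X]) (g : k[X][X]), b ≠ 0 ∧
      algebraMap F[X] K f * biv (k := k) F K (C b) = biv (k := k) F K g := by
    intro f
    obtain ⟨b, hbm, hb⟩ := IsLocalization.integerNormalization_spec (nonZeroDivisors k[X]) f
    refine ⟨b, IsLocalization.integerNormalization (nonZeroDivisors k[X]) f,
      nonZeroDivisors.ne_zero hbm, ?_⟩
    change _ = algebraMap F[X] K ((IsLocalization.integerNormalization
      (nonZeroDivisors k[X]) f).map (algebraMap k[X] F))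
    rw [hb]
    have h1 : (b • f : F[X]) = C (algebraMap k[X] F b) * f := by
      ext n
      rw [coeff_smul, coeff_C_mul, Algebra.smul_def]
    rw [h1, map_mul, mul_comm]
    congr 1
    simp [biv]
  -- nonzero constants of `F` are in the image
  have hSF : ∀ f : F[X], ¬ π ∣ f → ∃ y ∈ Oloc K π hi, algebraMap F[X] K f * y = 1 := by
    intro f hf
    have h0 : algebraMap F[X] K f ≠ 0 := algebraMap_ne K (by rintro rfl; exact hf (dvd_zero _))
    exact ⟨(algebraMap F[X] K f)⁻¹, ⟨1, f, hf, by rw [map_one, inv_mul_cancel₀ h0]⟩,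
      mul_inv_cancel₀ h0⟩
  have hSC : ∀ b : k[X], b ≠ 0 → ∃ y ∈ S, biv (k := k) F K (C b) * y = 1 := by
    intro b hb
    have h1 : ¬ π ∣ C (algebraMap k[X] F b) := by
      intro h
      have h2 : IsUnit (C (algebraMap k[X] F b)) := isUnit_C.2 (isUnit_iff_ne_zero.2
        ((map_ne_zero_iff _ (IsFractionRing.injective k[X] F)).2 hb))
      exact hi.not_isUnit (isUnit_of_dvd_unit h h2)
    obtain ⟨y, hy, hby⟩ := hSF _ h1
    have h3 : biv (k := k) F K (C b) = algebraMap F[X] K (C (algebraMap k[X] F b)) := by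
      simp [biv]
    refine ⟨y, hSinv _ y (hSb (C b)) hy (by rw [h3]; exact hby), by rw [h3]; exact hby⟩
  have hsurj : Function.Surjective g := by
    rintro ⟨z, f, f', hf', hz⟩
    have hzS : z ∈ S := by
      obtain ⟨b, h, hb, e⟩ := key f
      obtain ⟨b', h', hb', e'⟩ := key f'
      obtain ⟨y, hy, hy1⟩ := hSC b hb
      obtain ⟨y', hy', hy1'⟩ := hSC b' hb'
      -- `f = h / b`, `f' = h' / b'`
      have hfS : algebraMap F[X] K f ∈ S := by
        have : algebraMap F[X] K f = biv (k := k) F K h * y := by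
          rw [← e, mul_assoc, hy1, mul_one]
        rw [this]; exact mul_mem (hSb h) hy
      have hfS' : algebraMap F[X] K f' ∈ S := by
        have : algebraMap F[X] K f' = biv (k := k) F K h' * y' := by
          rw [← e', mul_assoc, hy1', mul_one]
        rw [this]; exact mul_mem (hSb h') hy'
      obtain ⟨t, ht, ht1⟩ := hSF f' hf'
      have htS := hSinv _ t hfS' ht ht1
      have : z = algebraMap F[X] K f * t := by
        rw [← hz, mul_assoc, ht1, mul_one]
      rw [this]; exact mul_mem hfS htS
    obtain ⟨_, ⟨w, rfl⟩, hw⟩ := hzS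
    exact ⟨w, Subtype.ext hw⟩
  exact ⟨RingEquiv.ofBijective g ⟨hinj, hsurj⟩, hcomp⟩

/-- Unramified classes pull back to unramified classes. -/
theorem geom_res (θ : L →+* K) (hA : ∀ a : A, θ (algebraMap A L a) ∈ Oloc K π hi)
    (hk : ∀ c : k, ∃ a : A, θ (algebraMap A L a) = kc (k := k) F K c)
    (hx : Quo π hi (θ.comp (algebraMap A L)) (cv (k := k) F K))
    (hy : Quo π hi (θ.comp (algebraMap A L)) (tv (F := F) K)) (w : WittRing L)
    (hw : ∀ (P : Ideal A) [P.IsPrime], ∃ (R : Type v) (_ : CommRing R) (_ : IsDomain R)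
      (_ : Algebra A R) (_ : Algebra R L) (_ : IsScalarTower A R L) (_ : IsLocalization.AtPrime R P)
      (_ : IsFractionRing R L), ∀ [IsDiscreteValuationRing R] (ϖ : R) (hϖ : Irreducible ϖ),
        res2 L ϖ hϖ w = 0) :
    (lamP K π hi (map θ w)).im = 0 := by
  set gA : A →+* Oloc K π hi := (θ.comp (algebraMap A L)).codRestrict (Oloc K π hi) hA with hgA
  obtain ⟨R, _, _, _, _, _, _, _, hR⟩ := hw ((maximalIdeal (Oloc K π hi)).comap gA)
  obtain ⟨e, he⟩ := geom_equiv θ hA hk hx hy R ((maximalIdeal (Oloc K π hi)).comap gA) rfl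
  have hD : IsDiscreteValuationRing R :=
    IsDiscreteValuationRing.RingEquivClass.isDiscreteValuationRing e.symm
  have hirr : Irreducible (e.symm (pol K π hi)) :=
    (MulEquiv.irreducible_iff e.symm).2 (pol_irreducible K π hi)
  have h1 := hR (e.symm (pol K π hi)) hirr
  rw [res2_apply] at h1
  have hloc : IsLocalHom (e : R →+* Oloc K π hi) := by
    constructor
    intro a ha
    have := ha.map e.symm
    simpa using this
  have h2 := lam_map (K := L) (K' := K) (e.symm (pol K π hi)) hirr (pol K π hi)
    (pol_irreducible K π hi) θ (e : R →+* Oloc K π hi) (by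
      intro a; exact he a) (by simp) w
  rw [lamP, h2, Dbl.map_im, h1, map_zero]

end Geom

end Pool.Agent.TH132.W
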