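import Pool.Agent.TH132.W.Rat

/-!
# Some endomorphisms of rational function fields, and a reciprocity law
-/

noncomputable section

set_option linter.unusedSectionVars false

namespace Pool.Agent.TH132.W

open Polynomial IsLocalRing

universe u v w

section Inv

variable {F : Type u} (K : Type u) [Field F] [Field K] [Algebra F[X] K] [IsFractionRing F[X] K]

/-- The variable `t`. -/
def tv : K := algebraMap F[X] K X

theorem tv_ne : tv (F := F) K ≠ 0 := algebraMap_ne K X_ne_zero

theorem cK_injective : Function.Injective (cK (F := F) K) := RingHom.injective _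

theorem eval₂_tv (f : F[X]) : eval₂ (cK (F := F) K) (tv (F := F) K) f = algebraMap F[X] K f := by
  have := hom_eval₂ f (C : F →+* F[X]) (algebraMap F[X] K) X
  rw [← cK.eq_1 (F := F) (K := K)] at this
  rw [show (tv (F := F) K) = algebraMap F[X] K X from rfl, ← this, eval₂_C_X]

/-- The endomorphism of `K = F(t)` over `F` with `t ↦ g`. -/
def endo (g : K) (hg : Function.Injective (eval₂RingHom (cK (F := F) K) g)) : K →+* K :=
  IsFractionRing.lift (A := F[X]) hg

theorem endo_algebraMap (g : K) (hg : Function.Injective (eval₂RingHom (cK (F := F) K) g))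
    (f : F[X]) : endo K g hg (algebraMap F[X] K f) = eval₂ (cK (F := F) K) g f :=
  IsFractionRing.lift_algebraMap hg f

@[simp] theorem endo_tv (g : K) (hg : Function.Injective (eval₂RingHom (cK (F := F) K) g)) :
    endo K g hg (tv (F := F) K) = g := by
  unfold tv; rw [endo_algebraMap, eval₂_X]

@[simp] theorem endo_cK (g : K) (hg : Function.Injective (eval₂RingHom (cK (F := F) K) g))
    (a : F) : endo K g hg (cK K a) = cK K a := by
  change endo K g hg (algebraMap F[X] K (C a)) = _
  rw [endo_algebraMap, eval₂_C]

theorem inj_inv : Function.Injective (eval₂RingHom (cK (F := F) K) (tv (F := F) K)⁻¹) := by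
  rw [injective_iff_map_eq_zero]
  intro f hf
  rw [coe_eval₂RingHom] at hf
  let _ : Invertible (tv (F := F) K)⁻¹ := invertibleOfNonzero (inv_ne_zero (tv_ne K))
  rw [← eval₂_reverse_eq_zero_iff] at hf
  rw [invOf_eq_inv, inv_inv, eval₂_tv] at hf
  have h1 : f.reverse = 0 := (map_eq_zero_iff _ (IsFractionRing.injective F[X] K)).1 hf
  exact reverse_eq_zero.1 h1

theorem inj_mul {m : F} (hm : m ≠ 0) :
    Function.Injective (eval₂RingHom (cK (F := F) K) (cK K m * tv (F := F) K)) := by
  rw [injective_iff_map_eq_zero]
  intro f hf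
  rw [coe_eval₂RingHom] at hf
  have h1 : eval₂ (cK (F := F) K) (cK K m * tv (F := F) K) f =
      algebraMap F[X] K (f.comp (C m * X)) := by
    rw [← eval₂_tv, eval₂_comp]
    congr 1
    rw [eval₂_mul, eval₂_C, eval₂_X]
  rw [h1] at hf
  have h2 : f.comp (C m * X) = 0 := (map_eq_zero_iff _ (IsFractionRing.injective F[X] K)).1 hf
  exact (comp_C_mul_X_eq_zero_iff (mem_nonZeroDivisors_of_ne_zero hm)).1 h2

/-- The endomorphism `t ↦ 1 / t`. -/
def invE : K →+* K := endo K (tv (F := F) K)⁻¹ (inj_inv K)

/-- The endomorphism `t ↦ m * t`. -/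
def mulE {m : F} (hm : m ≠ 0) : K →+* K := endo K (cK K m * tv (F := F) K) (inj_mul K hm)

/-- **Reciprocity**: if `q + ⟨√a⟩ q' = 0` in `W(F(√a))` then `⟨⟨-a⟩⟩ q' = 0` in `W(F)`. -/
theorem reciprocity (a : F) (hi : Irreducible (X ^ 2 - C a : F[X])) (q q' : WittRing F)
    (h : map ((rho K _ hi).comp C) q + cz (rho K _ hi X) * map ((rho K _ hi).comp C) q' = 0) :
    q' = cz (-a) * q' := by
  have hX := irreducible_X (R := F)
  have ha : a ≠ 0 := by
    rintro rfl
    rw [C_0, sub_zero] at hi
    exact absurd hi (not_irreducible_pow (by decide))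
  set P : F[X] := X ^ 2 - C a with hP
  have hPm : P.Monic := monic_X_pow_sub_C a two_ne_zero
  set Θ : WittRing K := pc K P * (map (cK (F := F) K) q + pc K (X : F[X]) * map (cK (F := F) K) q')
    with hΘ
  obtain ⟨v₀, v₁, hv⟩ := milnor_torus K Θ (by
    intro π hm hi' hπ
    rw [hΘ, map_mul, map_add, map_mul, lamP_const, lamP_const]
    have hr : rho K π hi' X ≠ 0 := by
      rw [Ne, rho_eq_zero]
      intro h
      exact hπ (eq_of_monic_of_associated hm monic_X (hi'.associated_of_dvd hX h))
    rw [lamP_pc K π hi' hr]
    by_cases hπP : π = P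
    · subst hπP
      rw [lamP_pi]
      simpa using h
    · have hr2 : rho K π hi' P ≠ 0 := by
        rw [Ne, rho_eq_zero]
        intro h
        exact hπP (eq_of_monic_of_associated hm hPm (hi'.associated_of_dvd hi h))
      rw [lamP_pc K π hi' hr2]
      simp)
  -- the residue at zero
  have hPX : rho K X hX P = rho K X hX (C (-a)) := by
    have : rho K X hX (P - C (-a)) = 0 := by
      rw [rho_eq_zero, X_dvd_iff]; simp [hP]
    rw [map_sub] at this
    exact sub_eq_zero.1 this
  have hPX0 : rho K X hX P ≠ 0 := by
    rw [hPX, Ne, rho_eq_zero, X_dvd_iff]; simpa using ha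
  have hmapinj : Function.Injective (map ((rho K X hX).comp C)) := by
    have hbij : Function.Bijective ((rho K X hX).comp C) := by
      refine ⟨RingHom.injective _, ?_⟩
      intro x
      obtain ⟨f, rfl⟩ := rho_surjective K X hX x
      refine ⟨f.coeff 0, ?_⟩
      have h1 : rho K X hX (f - C (f.coeff 0)) = 0 := by
        rw [rho_eq_zero, X_dvd_iff]; simp
      rw [map_sub] at h1
      exact (sub_eq_zero.1 h1).symm
    let e := RingEquiv.ofBijective _ hbij
    intro x y hxy
    have h1 := congrArg (map (e.symm : _ →+* F)) hxy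
    have h2 : ∀ z, map (e.symm : _ →+* F) (map ((rho K X hX).comp C) z) = z := by
      intro z
      have : (map (e.symm : _ →+* F)).comp (map ((rho K X hX).comp C)) = RingHom.id _ := by
        apply cz_ringHom_ext
        intro a _
        rw [RingHom.comp_apply, map_cz, map_cz, RingHom.id_apply]
        congr 1
        exact e.symm_apply_apply a
      exact congrArg (fun f => f z) this
    rwa [h2, h2] at h1
  have e1 : v₁ = cz (-a) * q' := by
    apply hmapinj
    have h1 := congrArg (fun z => (lamP K X hX z).im) hv
    simp only [hΘ, map_mul, map_add, lamP_const, lamP_pi] at h1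
    rw [lamP_pc K X hX hPX0, hPX] at h1
    rw [map_mul, map_cz]
    simpa using h1.symm
  -- the residue at infinity
  have e2 : v₁ = q' := by
    apply hmapinj
    have h0 := congrArg (map (invE (F := F) K)) hv
    have hc : ∀ z, map (invE (F := F) K) (map (cK (F := F) K) z) = map (cK (F := F) K) z := by
      intro z
      have : (map (invE (F := F) K)).comp (map (cK (F := F) K)) = map (cK (F := F) K) := by
        apply cz_ringHom_ext
        intro a _
        rw [RingHom.comp_apply, map_cz, map_cz]
        congr 1
        exact endo_cK K _ _ a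
      exact congrArg (fun f => f z) this
    have hx : map (invE (F := F) K) (pc K (X : F[X])) = pc K (X : F[X]) := by
      unfold pc
      rw [map_cz]
      have : invE (F := F) K (algebraMap F[X] K X) =
          algebraMap F[X] K X * ((tv (F := F) K)⁻¹) ^ 2 := by
        rw [show algebraMap F[X] K X = tv (F := F) K from rfl]
        rw [invE, endo_tv]
        field_simp [tv_ne (F := F) K]
      rw [this, cz_mul_sq _ (inv_ne_zero (tv_ne K))]
    have hp : map (invE (F := F) K) (pc K P) = pc K (1 - C a * X ^ 2 : F[X]) := by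
      unfold pc
      rw [map_cz]
      have : invE (F := F) K (algebraMap F[X] K P) =
          algebraMap F[X] K (1 - C a * X ^ 2) * ((tv (F := F) K)⁻¹) ^ 2 := by
        rw [invE, endo_algebraMap, hP, eval₂_sub, eval₂_pow, eval₂_X, eval₂_C, map_sub, map_mul,
          map_one, map_pow]
        rw [show algebraMap F[X] K X = tv (F := F) K from rfl,
          show algebraMap F[X] K (C a) = cK K a from rfl]
        field_simp [tv_ne (F := F) K]
      rw [this, cz_mul_sq _ (inv_ne_zero (tv_ne K))]
    rw [hΘ, map_mul, map_add, map_mul, map_add, map_mul, hc, hc, hc, hc, hx, hp] at h0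
    have hr1 : rho K X hX (1 - C a * X ^ 2 : F[X]) = 1 := by
      have : rho K X hX (1 - C a * X ^ 2 - 1 : F[X]) = 0 := by
        rw [rho_eq_zero, X_dvd_iff]; simp
      rw [map_sub, map_one] at this
      exact sub_eq_zero.1 this
    have h1 := congrArg (fun z => (lamP K X hX z).im) h0
    simp only [map_mul, map_add, lamP_const, lamP_pi] at h1
    rw [lamP_pc K X hX (by rw [hr1]; exact one_ne_zero), hr1] at h1
    simpa using h1.symm
  exact e2.symm.trans e1

end Inv

/-! ### Two variables -/

section Two

variable {k : Type u} (F K : Type u) [Field k] [Field F] [Field K] [Algebra k[X] F]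
  [IsFractionRing k[X] F] [Algebra F[X] K] [IsFractionRing F[X] K]

/-- The inclusion of polynomials in two variables. -/
def biv : k[X][X] →+* K := (algebraMap F[X] K).comp (mapRingHom (algebraMap k[X] F))

theorem biv_injective : Function.Injective (biv (k := k) F K) :=
  (IsFractionRing.injective F[X] K).comp (map_injective _ (IsFractionRing.injective k[X] F))

/-- The first variable. -/
def cv : K := cK K (tv (F := k) F)

/-- The constants. -/
def kc : k →+* K := (cK (F := F) K).comp (cK (F := k) F)

theorem biv_X : biv (k := k) F K X = tv (F := F) K := by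
  simp [biv, tv]

theorem biv_CX : biv (k := k) F K (C X) = cv (k := k) F K := by
  simp [biv, cv, tv, cK]

theorem biv_CC (a : k) : biv (k := k) F K (C (C a)) = kc F K a := by
  simp [biv, kc, cK]

theorem biv_div_surjective (z : K) :
    ∃ f g : k[X][X], g ≠ 0 ∧ z = biv (k := k) F K f / biv (k := k) F K g := by
  have key : ∀ f : F[X], ∃ (b : k[X]) (g : k[X][X]), b ≠ 0 ∧
      algebraMap F[X] K f * biv (k := k) F K (C b) = biv (k := k) F K g := by
    intro f
    obtain ⟨b, hbm, hb⟩ := IsLocalization.integerNormalization_spec (nonZeroDivisors k[X]) f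
    refine ⟨b, IsLocalization.integerNormalization (nonZeroDivisors k[X]) f,
      nonZeroDivisors.ne_zero hbm, ?_⟩
    change _ = algebraMap F[X] K ((IsLocalization.integerNormalization
      (nonZeroDivisors k[X]) f).map (algebraMap k[X] F))
    rw [hb]
    have h1 : (b • f : F[X]) = C (algebraMap k[X] F b) * f := by
      ext n
      rw [coeff_smul, coeff_C_mul, Algebra.smul_def]
    rw [h1, map_mul, mul_comm]
    congr 1
    simp [biv]
  obtain ⟨f, g, hg, rfl⟩ := IsFractionRing.div_surjective (A := F[X]) z
  obtain ⟨b, f', hb, hf'⟩ := key f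
  obtain ⟨b', g', hb', hg'⟩ := key g
  have hb1 : biv (k := k) F K (C b) ≠ 0 :=
    (map_ne_zero_iff _ (biv_injective F K)).2 (C_ne_zero.2 hb)
  have hb2 : biv (k := k) F K (C b') ≠ 0 :=
    (map_ne_zero_iff _ (biv_injective F K)).2 (C_ne_zero.2 hb')
  have hg0 : algebraMap F[X] K g ≠ 0 := algebraMap_ne K (nonZeroDivisors.ne_zero hg)
  refine ⟨f' * C b', g' * C b, ?_, ?_⟩
  · rintro h
    have h1 : biv (k := k) F K (g' * C b) = 0 := by rw [h, map_zero]
    rw [map_mul, ← hg'] at h1
    exact mul_ne_zero (mul_ne_zero hg0 hb2) hb1 h1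
  · rw [map_mul, map_mul, ← hf', ← hg']
    field_simp

theorem bivFrac : @IsFractionRing k[X][X] _ K _ (biv (k := k) F K).toAlgebra := by
  let _ : Algebra k[X][X] K := (biv (k := k) F K).toAlgebra
  have : FaithfulSMul k[X][X] K := by
    rw [faithfulSMul_iff_algebraMap_injective]
    exact biv_injective F K
  exact IsFractionRing.of_field k[X][X] K (by
    intro z
    obtain ⟨f, g, _, h⟩ := biv_div_surjective (k := k) F K z
    exact ⟨f, g, h⟩)

/-- The endomorphism of `K` exchanging the two variables. -/
def swapE : K →+* K :=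
  letI : Algebra k[X][X] K := (biv (k := k) F K).toAlgebra
  haveI : IsFractionRing k[X][X] K := bivFrac F K
  IsFractionRing.lift (A := k[X][X])
    (g := (biv (k := k) F K).comp (Bivariate.swap (R := k) : k[X][X] →+* k[X][X]))
    ((biv_injective F K).comp (Bivariate.swap (R := k)).injective)

theorem swapE_biv (f : k[X][X]) :
    swapE (k := k) F K (biv (k := k) F K f) = biv (k := k) F K (Bivariate.swap f) := by
  let _ : Algebra k[X][X] K := (biv (k := k) F K).toAlgebra
  have : IsFractionRing k[X][X] K := bivFrac F K
  exact IsFractionRing.lift_algebraMap (A := k[X][X])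
    (g := (biv (k := k) F K).comp (Bivariate.swap (R := k) : k[X][X] →+* k[X][X]))
    ((biv_injective F K).comp (Bivariate.swap (R := k)).injective) f

@[simp] theorem swapE_tv : swapE (k := k) F K (tv (F := F) K) = cv (k := k) F K := by
  rw [← biv_X (k := k), swapE_biv, Bivariate.swap_Y, biv_CX]

@[simp] theorem swapE_cv : swapE (k := k) F K (cv (k := k) F K) = tv (F := F) K := by
  rw [← biv_CX (k := k), swapE_biv, Bivariate.swap_X, biv_X]

@[simp] theorem swapE_kc (a : k) : swapE (k := k) F K (kc F K a) = kc F K a := by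
  rw [← biv_CC, swapE_biv, Bivariate.swap_C_C]

theorem swapE_swapE (z : K) : swapE (k := k) F K (swapE (k := k) F K z) = z := by
  obtain ⟨f, g, hg, rfl⟩ := biv_div_surjective (k := k) F K z
  rw [map_div₀, map_div₀, swapE_biv, swapE_biv, swapE_biv, swapE_biv, Bivariate.swap_swap_apply,
    Bivariate.swap_swap_apply]

end Two

end Pool.Agent.TH132.W
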