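import Pool.Agent.TH132.W.DVR
import Pool.Agent.TH132.W.Defs

/-!
# The second Milnor K-group of a field, the tame symbol, and the Pfister map
-/

noncomputable section

set_option linter.unusedSectionVars false

namespace Pool.Agent.TH132.W

open IsLocalRing TensorProduct

universe u v

section Def

variable {F : Type u} [Field F]

/-- A biadditive map as an additive map of additive groups. -/
def bilin {M : Type v} [AddCommGroup M] (f : Fˣ → Fˣ → M)
    (h1 : ∀ a a' b, f (a * a') b = f a b + f a' b) (h2 : ∀ a b b', f a (b * b') = f a b + f a b') :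
    Additive Fˣ →+ Additive Fˣ →+ M :=
  AddMonoidHom.mk' (fun a => AddMonoidHom.mk' (fun b => f a.toMul b.toMul)
    (fun b b' => h2 a.toMul b.toMul b'.toMul))
    (fun a a' => AddMonoidHom.ext fun b => h1 a.toMul a'.toMul b.toMul)

theorem bilin_zsmul {M : Type v} [AddCommGroup M] (f : Fˣ → Fˣ → M)
    (h1 : ∀ a a' b, f (a * a') b = f a b + f a' b) (h2 : ∀ a b b', f a (b * b') = f a b + f a b')
    (n : ℤ) (a b : Additive Fˣ) : bilin f h1 h2 (n • a) b = bilin f h1 h2 a (n • b) := by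
  rw [map_zsmul, map_zsmul]; rfl

theorem liftK2_aux {M : Type v} [AddCommGroup M] (f : Fˣ → Fˣ → M)
    (h1 : ∀ a a' b, f (a * a') b = f a b + f a' b) (h2 : ∀ a b b', f a (b * b') = f a b + f a b')
    (h3 : ∀ a b : Fˣ, (a : F) + b = 1 → f a b = 0) (h4 : ∀ a : Fˣ, f a (-a) = 0) :
    steinberg F ≤ (TensorProduct.liftAddHom (bilin f h1 h2) (bilin_zsmul f h1 h2)).ker := by
  rw [steinberg, AddSubgroup.closure_le]
  rintro _ (⟨a, b, h, rfl⟩ | ⟨a, rfl⟩)
  · exact h3 a b h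
  · exact h4 a

/-- Homomorphisms from `K₂` are the biadditive maps killing the Steinberg relations. -/
def liftK2 {M : Type v} [AddCommGroup M] (f : Fˣ → Fˣ → M)
    (h1 : ∀ a a' b, f (a * a') b = f a b + f a' b) (h2 : ∀ a b b', f a (b * b') = f a b + f a b')
    (h3 : ∀ a b : Fˣ, (a : F) + b = 1 → f a b = 0) (h4 : ∀ a : Fˣ, f a (-a) = 0) :
    MilnorK2 F →+ M :=
  QuotientAddGroup.lift (steinberg F)
    (TensorProduct.liftAddHom (bilin f h1 h2) (bilin_zsmul f h1 h2)) (liftK2_aux f h1 h2 h3 h4)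

theorem liftK2_sym {M : Type v} [AddCommGroup M] (f : Fˣ → Fˣ → M) (h1 h2 h3 h4) (a b : Fˣ) :
    liftK2 f h1 h2 h3 h4 (sym a b) = f a b := rfl

theorem mem_cube {x : WittRing F} : x ∈ cube F ↔ x ∈ fund F ^ 3 := Iff.rfl

/-- The class of the Pfister form `⟨⟨a, b⟩⟩` modulo `I³`. -/
def pfFun (a b : Fˣ) : WittRing F ⧸ cube F := QuotientAddGroup.mk (pf a * pf b)

theorem pf_mem_fund (a : Fˣ) : pf a ∈ fund F := Ideal.subset_span ⟨a, rfl⟩

theorem mk_eq_of_sub {x y : WittRing F} (h : x - y ∈ fund F ^ 3) :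
    (QuotientAddGroup.mk x : WittRing F ⧸ cube F) = QuotientAddGroup.mk y := by
  rw [QuotientAddGroup.eq, mem_cube]
  have e : -x + y = -(x - y) := by ring
  rw [e]
  exact neg_mem h

theorem sub_of_mk_eq {x y : WittRing F}
    (h : (QuotientAddGroup.mk x : WittRing F ⧸ cube F) = QuotientAddGroup.mk y) :
    x - y ∈ fund F ^ 3 := by
  rw [QuotientAddGroup.eq, mem_cube] at h
  have e : x - y = -(-x + y) := by ring
  rw [e]
  exact neg_mem h

theorem pfFun_mul_left (a a' b : Fˣ) : pfFun (a * a') b = pfFun a b + pfFun a' b := by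
  unfold pfFun
  rw [← QuotientAddGroup.mk_add]
  apply mk_eq_of_sub
  have h := Ideal.mul_mem_mul (Ideal.mul_mem_mul (pf_mem_fund a) (pf_mem_fund a')) (pf_mem_fund b)
  have e : pf (a * a') * pf b - (pf a * pf b + pf a' * pf b) = -(pf a * pf a' * pf b) := by
    unfold pf; rw [cls_mul]; ring
  rw [e, neg_mem_iff, pow_succ, pow_two]
  exact h

theorem pfFun_mul_right (a b b' : Fˣ) : pfFun a (b * b') = pfFun a b + pfFun a b' := by
  unfold pfFun
  rw [← QuotientAddGroup.mk_add]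
  apply mk_eq_of_sub
  have h := Ideal.mul_mem_mul (Ideal.mul_mem_mul (pf_mem_fund a) (pf_mem_fund b)) (pf_mem_fund b')
  have e : pf a * pf (b * b') - (pf a * pf b + pf a * pf b') = -(pf a * pf b * pf b') := by
    unfold pf; rw [cls_mul]; ring
  rw [e, neg_mem_iff, pow_succ, pow_two]
  exact h

theorem pfFun_steinberg (a b : Fˣ) (h : (a : F) + b = 1) : pfFun a b = 0 := by
  have e : pf a * pf b = 0 := by
    have := cls_add a b 1 (by rw [h]; rfl)
    rw [mul_one, cls_one, cls_mul] at this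
    unfold pf
    linear_combination -this
  unfold pfFun
  rw [e]; rfl

theorem pfFun_neg (a : Fˣ) : pfFun a (-a) = 0 := by
  have e : pf a * pf (-a) = 0 := by
    unfold pf; rw [cls_neg]
    linear_combination -cls_mul_self a
  unfold pfFun
  rw [e]; rfl

/-- **The Pfister map** `K₂(F) → I²(F) / I³(F) ⊆ W(F) / I³(F)`, `{a, b} ↦ ⟨⟨a, b⟩⟩`. -/
def pfister : MilnorK2 F →+ WittRing F ⧸ cube F :=
  liftK2 pfFun pfFun_mul_left pfFun_mul_right pfFun_steinberg pfFun_neg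

theorem pfister_is : IsPfisterMap (pfister (F := F)) := fun _ _ => rfl

end Def

section Tame

variable {R : Type u} (K : Type v) [CommRing R] [IsDomain R] [IsDiscreteValuationRing R]
  [Field K] [Algebra R K] [IsFractionRing R K]

theorem lc_neg_one (ϖ : R) (hϖ : Irreducible ϖ) : lc K ϖ hϖ (-1) = -1 := by
  have h : (-1 : Kˣ) = Units.map (algebraMap R K : R →* K) (-1) := by ext; simp
  rw [h, lc_unit]
  ext; simp

theorem ord_neg_one (ϖ : R) (hϖ : Irreducible ϖ) : ord K ϖ hϖ (-1) = 0 := by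
  have h : (-1 : Kˣ) = Units.map (algebraMap R K : R →* K) (-1) := by ext; simp
  rw [h, ord_unit]

theorem lc_neg (ϖ : R) (hϖ : Irreducible ϖ) (a : Kˣ) : lc K ϖ hϖ (-a) = - lc K ϖ hϖ a := by
  rw [← neg_one_mul, map_mul, lc_neg_one, neg_one_mul]

theorem ord_neg (ϖ : R) (hϖ : Irreducible ϖ) (a : Kˣ) : ord K ϖ hϖ (-a) = ord K ϖ hϖ a := by
  rw [← neg_one_mul, ord_mul, ord_neg_one, zero_add]

/-- If the valuation of `a` is less than the valuation of `b`, then `a` and `a + b` have the same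
valuation and the same leading coefficient. -/
theorem add_of_lt (ϖ : R) (hϖ : Irreducible ϖ) (a b s : Kˣ) (h : (s : K) = a + b)
    (hlt : ord K ϖ hϖ a < ord K ϖ hϖ b) :
    ord K ϖ hϖ s = ord K ϖ hϖ a ∧ lc K ϖ hϖ s = lc K ϖ hϖ a := by
  obtain ⟨n, u, rfl⟩ := exists_mk (K := K) ϖ hϖ a
  obtain ⟨m, v, rfl⟩ := exists_mk (K := K) ϖ hϖ b
  rw [ord_mk, ord_mk] at hlt
  obtain ⟨k, hk⟩ : ∃ k : ℕ, m = n + (k + 1 : ℕ) := ⟨(m - n - 1).toNat, by omega⟩
  have hmem : ϖ ^ (k + 1) * (v : R) ∈ maximalIdeal R := by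
    rw [hϖ.maximalIdeal_eq, pow_succ']
    exact Ideal.mem_span_singleton.2 ⟨ϖ ^ k * v, by ring⟩
  have hw : IsUnit ((u : R) + ϖ ^ (k + 1) * v) := by
    by_contra hcon
    have h1 : (u : R) + ϖ ^ (k + 1) * v ∈ maximalIdeal R := (mem_maximalIdeal _).2 hcon
    have h2 : (u : R) ∈ maximalIdeal R := by
      have := Ideal.sub_mem _ h1 hmem
      rwa [add_sub_cancel_right] at this
    exact (mem_maximalIdeal _).1 h2 u.isUnit
  have hs : s = piU K ϖ hϖ ^ n * Units.map (algebraMap R K : R →* K) hw.unit := by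
    ext
    rw [h, hk, zpow_add, zpow_natCast]
    simp only [Units.val_mul, Units.coe_map, MonoidHom.coe_coe, IsUnit.unit_spec, map_add,
      map_mul, map_pow, Units.val_pow_eq_pow_val]
    simp only [piU, Units.val_mk0]
    ring
  have hr : Units.map (residue R : R →* ResidueField R) hw.unit =
      Units.map (residue R : R →* ResidueField R) u := by
    ext
    have h0 : residue R (ϖ ^ (k + 1) * (v : R)) = 0 := (residue_eq_zero_iff _).2 hmem
    simp only [Units.coe_map, MonoidHom.coe_coe, IsUnit.unit_spec, map_add, h0, add_zero]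
  rw [hs, ord_mk, ord_mk, lc_mk, lc_mk, hr]
  exact ⟨rfl, rfl⟩

/-- The value `(-1) ^ (v(a) v(b)) * (a ^ v(b) / b ^ v(a))` modulo the maximal ideal. -/
def tameVal (ϖ : R) (hϖ : Irreducible ϖ) (a b : Kˣ) : (ResidueField R)ˣ :=
  (-1) ^ (ord K ϖ hϖ a * ord K ϖ hϖ b) *
    (lc K ϖ hϖ a ^ ord K ϖ hϖ b * (lc K ϖ hϖ b ^ ord K ϖ hϖ a)⁻¹)

theorem rearr {G : Type*} [CommGroup G] (a b c d e f : G) :
    (a * b) * ((c * d) * (e * f)⁻¹) = (a * (c * e⁻¹)) * (b * (d * f⁻¹)) := by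
  rw [mul_inv]; ac_rfl

theorem tame_neg {G : Type*} [Field G] (x : Gˣ) (n : ℤ) :
    (-1) ^ (n * n) * (x ^ n * ((-x) ^ n)⁻¹) = 1 := by
  rcases Int.even_or_odd n with h | h
  · rw [(h.mul_left n).neg_one_zpow, h.neg_zpow, mul_inv_cancel, mul_one]
  · rw [(h.mul h).neg_one_zpow, h.neg_zpow]
    ext
    simp only [Units.val_mul, Units.val_neg, Units.val_one, Units.val_inv_eq_inv_val]
    have := (x ^ n).ne_zero
    field_simp

/-- The Steinberg relation for a pair with different valuations. -/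
theorem tameVal_aux (ϖ : R) (hϖ : Irreducible ϖ) (a b : Kˣ) (h : (a : K) + b = 1)
    (hlt : ord K ϖ hϖ a < ord K ϖ hϖ b) : tameVal K ϖ hϖ a b = 1 ∧ tameVal K ϖ hϖ b a = 1 := by
  obtain ⟨h1, h2⟩ := add_of_lt K ϖ hϖ a b 1 (by rw [h]; rfl) hlt
  rw [ord_one] at h1
  rw [map_one] at h2
  unfold tameVal
  rw [← h1, ← h2]
  simp

/-- The tame symbol of a symbol. -/
def tameFun (ϖ : R) (hϖ : Irreducible ϖ) (a b : Kˣ) : Additive (ResidueField R)ˣ :=
  Additive.ofMul (tameVal K ϖ hϖ a b)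

theorem tameFun_mul_left (ϖ : R) (hϖ : Irreducible ϖ) (a a' b : Kˣ) :
    tameFun K ϖ hϖ (a * a') b = tameFun K ϖ hϖ a b + tameFun K ϖ hϖ a' b := by
  unfold tameFun
  rw [← ofMul_mul]
  congr 1
  unfold tameVal
  rw [ord_mul, map_mul, add_mul, zpow_add, mul_zpow, zpow_add]
  exact rearr _ _ _ _ _ _

theorem tameFun_mul_right (ϖ : R) (hϖ : Irreducible ϖ) (a b b' : Kˣ) :
    tameFun K ϖ hϖ a (b * b') = tameFun K ϖ hϖ a b + tameFun K ϖ hϖ a b' := by
  unfold tameFun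
  rw [← ofMul_mul]
  congr 1
  unfold tameVal
  rw [ord_mul, map_mul, mul_add, zpow_add, mul_zpow, zpow_add]
  exact rearr _ _ _ _ _ _

theorem tameFun_steinberg (ϖ : R) (hϖ : Irreducible ϖ) (a b : Kˣ) (h : (a : K) + b = 1) :
    tameFun K ϖ hϖ a b = 0 := by
  change Additive.ofMul (tameVal K ϖ hϖ a b) = Additive.ofMul 1
  congr 1
  rcases lt_trichotomy (ord K ϖ hϖ a) (ord K ϖ hϖ b) with hlt | heq | hlt
  · exact (tameVal_aux K ϖ hϖ a b h hlt).1
  · -- both valuations are equal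
    by_cases h0 : ord K ϖ hϖ a = 0
    · unfold tameVal
      rw [← heq, h0]; simp
    · -- the valuation is negative and `b = -a` to leading order
      have hs : ((b : Kˣ) : K) = (-a : Kˣ) + (1 : Kˣ) := by
        rw [Units.val_neg, Units.val_one, ← h]; ring
      rcases lt_or_gt_of_ne h0 with hneg | hpos
      · have h3 := add_of_lt K ϖ hϖ (-a) 1 b hs (by rw [ord_neg, ord_one]; exact hneg)
        rw [ord_neg, lc_neg] at h3
        unfold tameVal
        rw [h3.1, h3.2]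
        exact tame_neg _ _
      · exfalso
        have h4 := add_of_lt K ϖ hϖ 1 (-a) b (by rw [hs, add_comm]) (by
          rw [ord_neg, ord_one]; exact hpos)
        rw [ord_one] at h4
        omega
  · exact (tameVal_aux K ϖ hϖ b a (by rw [add_comm, h]) hlt).2

theorem tameFun_neg (ϖ : R) (hϖ : Irreducible ϖ) (a : Kˣ) : tameFun K ϖ hϖ a (-a) = 0 := by
  change Additive.ofMul (tameVal K ϖ hϖ a (-a)) = Additive.ofMul 1
  congr 1
  unfold tameVal
  rw [ord_neg, lc_neg]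
  exact tame_neg _ _

/-- **The tame symbol** `K₂(K) → κˣ`. -/
def tame (ϖ : R) (hϖ : Irreducible ϖ) : MilnorK2 K →+ Additive (ResidueField R)ˣ :=
  liftK2 (tameFun K ϖ hϖ) (tameFun_mul_left K ϖ hϖ) (tameFun_mul_right K ϖ hϖ)
    (tameFun_steinberg K ϖ hϖ) (tameFun_neg K ϖ hϖ)

theorem tame_sym (ϖ : R) (hϖ : Irreducible ϖ) (a b : Kˣ) :
    tame K ϖ hϖ (sym a b) = Additive.ofMul ((-1) ^ (ord K ϖ hϖ a * ord K ϖ hϖ b) *
      (lc K ϖ hϖ a ^ ord K ϖ hϖ b * (lc K ϖ hϖ b ^ ord K ϖ hϖ a)⁻¹)) := rfl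

theorem eq_mk (ϖ : R) (hϖ : Irreducible ϖ) (n : ℤ) (u : Rˣ) (a : Kˣ)
    (h : (a : K) = algebraMap R K ϖ ^ n * algebraMap R K u) :
    a = piU K ϖ hϖ ^ n * Units.map (algebraMap R K : R →* K) u := by
  ext
  rw [h]
  simp [piU]

theorem res2_is (ϖ : R) (hϖ : Irreducible ϖ) : IsSecondResidue ϖ (res2 K ϖ hϖ) := by
  intro n u a h
  have ha := eq_mk K ϖ hϖ n u a h
  constructor
  · intro hn
    rw [ha, res2_even K ϖ hϖ hn]
  · intro hn
    rw [ha, res2_odd K ϖ hϖ hn]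
    rfl

theorem tame_is (ϖ : R) (hϖ : Irreducible ϖ) : IsTameSymbol ϖ (tame K ϖ hϖ) := by
  intro n m u v a b ha hb
  rw [eq_mk K ϖ hϖ n u a ha, eq_mk K ϖ hϖ m v b hb, tame_sym, ord_mk, ord_mk, lc_mk, lc_mk,
    div_eq_mul_inv]
  rfl

end Tame

end Pool.Agent.TH132.W
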