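import Pool.Agent.TH132.W.Cz

/-!
# Milnor's theorem: unramified classes in the Witt ring of a rational function field are constant
-/

noncomputable section

set_option linter.unusedSectionVars false

namespace Pool.Agent.TH132.W

open Polynomial

universe u v

section Milnor

variable {F : Type u} (K : Type v) [Field F] [Field K] [Algebra F[X] K] [IsFractionRing F[X] K]

/-- The class of a polynomial. -/
def pc (f : F[X]) : WittRing K := cz (algebraMap F[X] K f)

@[simp] theorem pc_mul (f g : F[X]) : pc K (f * g) = pc K f * pc K g := by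
  unfold pc; rw [map_mul, map_mul]

@[simp] theorem pc_zero : pc K (0 : F[X]) = 0 := by unfold pc; rw [map_zero, map_zero]

@[simp] theorem pc_one : pc K (1 : F[X]) = 1 := by unfold pc; rw [map_one, map_one]

theorem pc_neg (f : F[X]) : pc K (-f) = - pc K f := by
  unfold pc; rw [map_neg, cz_neg]

theorem algebraMap_ne {f : F[X]} (hf : f ≠ 0) : algebraMap F[X] K f ≠ 0 :=
  (map_ne_zero_iff _ (IsFractionRing.injective F[X] K)).2 hf

theorem pc_sq {f : F[X]} (hf : f ≠ 0) : pc K f * pc K f = 1 := cz_sq (algebraMap_ne K hf)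

theorem pc_add (f g : F[X]) : pc K f + pc K g = pc K (f + g) + pc K f * pc K g * pc K (f + g) := by
  have := cz_add (algebraMap F[X] K f) (algebraMap F[X] K g)
  unfold pc
  rw [map_add, this, map_mul, map_mul]

/-- Residue data at an irreducible polynomial. -/
structure ResData (p : F[X]) where
  /-- the residue field -/
  κ : Type u
  [fld : Field κ]
  /-- the residue class map -/
  ρ : F[X] →+* κ
  surj : Function.Surjective ρ
  ker : ∀ g, ρ g = 0 ↔ p ∣ g
  /-- the second residue map -/
  res : WittRing K →+ WittRing κ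
  res_unit : ∀ g, ρ g ≠ 0 → res (pc K g) = 0
  res_pi : ∀ g, ρ g ≠ 0 → res (pc K (p * g)) = cz (ρ g)

attribute [instance] ResData.fld

/-- All irreducible factors have degree less than `d`. -/
def Sm (d : ℕ) (f : F[X]) : Prop := f ≠ 0 ∧ ∀ p, Irreducible p → p ∣ f → p.natDegree < d

theorem Sm.mul {d : ℕ} {f g : F[X]} (hf : Sm d f) (hg : Sm d g) : Sm d (f * g) := by
  refine ⟨mul_ne_zero hf.1 hg.1, fun p hp h => ?_⟩
  rcases hp.prime.dvd_or_dvd h with h | h
  · exact hf.2 p hp h
  · exact hg.2 p hp h

theorem Sm.of_natDegree_lt {d : ℕ} {f : F[X]} (hf : f ≠ 0) (h : f.natDegree < d) : Sm d f :=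
  ⟨hf, fun _ _ hpf => (natDegree_le_of_dvd hpf hf).trans_lt h⟩

/-- The subgroup generated by the classes of products of polynomials of degree less than `d`. -/
def L (d : ℕ) : AddSubgroup (WittRing K) := AddSubgroup.closure {x | ∃ f : F[X], Sm d f ∧ x = pc K f}

variable {K}

theorem pc_mem_L {d : ℕ} {f : F[X]} (hf : Sm d f) : pc K f ∈ L (F := F) K d :=
  AddSubgroup.subset_closure ⟨f, hf, rfl⟩

theorem mul_mem_L {d : ℕ} {h : F[X]} (hh : Sm d h) {x : WittRing K} (hx : x ∈ L (F := F) K d) :
    pc K h * x ∈ L (F := F) K d := by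
  refine AddSubgroup.closure_induction (p := fun x _ => pc K h * x ∈ L (F := F) K d)
    ?_ ?_ ?_ ?_ hx
  · rintro _ ⟨f, hf, rfl⟩
    rw [← pc_mul]; exact pc_mem_L (hh.mul hf)
  · rw [mul_zero]; exact zero_mem _
  · intro a b _ _ ha hb; rw [mul_add]; exact add_mem ha hb
  · intro a _ ha; rw [mul_neg]; exact neg_mem ha

theorem L_mono {d e : ℕ} (h : d ≤ e) : L (F := F) K d ≤ L (F := F) K e := by
  refine (AddSubgroup.closure_le _).2 ?_
  rintro _ ⟨f, hf, rfl⟩
  exact pc_mem_L ⟨hf.1, fun p hp hpf => (hf.2 p hp hpf).trans_le h⟩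

/-- Reduction modulo `π` of a product of two polynomials of small degree. -/
theorem reduce_two {d : ℕ} {π : F[X]} (hm : π.Monic) (hd : π.natDegree = d)
    {g h : F[X]} (hg : g ≠ 0) (hg' : g.natDegree < d) (hh : h ≠ 0) (hh' : h.natDegree < d) :
    pc K (π * (g * h)) - pc K (π * ((g * h) %ₘ π)) ∈ L (F := F) K d := by
  set q := (g * h) /ₘ π with hq
  set r := (g * h) %ₘ π with hr
  have hqr : π * q + r = g * h := by rw [hq, hr, add_comm]; exact modByMonic_add_div _ _
  have hrel := pc_add K (π * q) r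
  rw [hqr] at hrel
  have hpi := pc_sq K hm.ne_zero
  have hgh : g * h ≠ 0 := mul_ne_zero hg hh
  have e1 : pc K (π * (g * h)) - pc K (π * r) = pc K q - pc K (q * r * (g * h)) := by
    simp only [pc_mul] at hrel ⊢
    linear_combination (-pc K π) * hrel + (pc K q - pc K q * pc K r * (pc K g * pc K h)) * hpi
  rw [e1]
  by_cases hq0 : q = 0
  · rw [hq0]; simp [zero_mem]
  have hqd : q.natDegree < d := by
    rw [hq, natDegree_divByMonic _ hm, natDegree_mul hg hh]
    omega
  have hqS : Sm d q := Sm.of_natDegree_lt hq0 hqd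
  refine sub_mem (pc_mem_L hqS) ?_
  by_cases hr0 : r = 0
  · rw [hr0]; simp [zero_mem]
  have hrd : r.natDegree < d := by
    rw [← hd]
    exact natDegree_lt_natDegree hr0 (degree_modByMonic_lt _ hm)
  refine pc_mem_L ((hqS.mul (Sm.of_natDegree_lt hr0 hrd)).mul ?_)
  exact (Sm.of_natDegree_lt hg hg').mul (Sm.of_natDegree_lt hh hh')

/-- Reduction modulo `π` of a product of polynomials of small degree. -/
theorem reduce {d : ℕ} {π : F[X]} (hm : π.Monic) (hi : Irreducible π) (hd : π.natDegree = d)
    (G : F[X]) (hG : Sm d G) :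
    pc K (π * G) - pc K (π * (G %ₘ π)) ∈ L (F := F) K d := by
  have hd0 : 0 < d := hd ▸ hi.natDegree_pos
  induction G using WfDvdMonoid.induction_on_irreducible with
  | zero => exact absurd rfl hG.1
  | unit u hu =>
    have : u %ₘ π = u := by
      rw [modByMonic_eq_self_iff hm]
      refine degree_lt_degree ?_
      rw [natDegree_eq_zero_of_isUnit hu, hd]; exact hd0
    rw [this, sub_self]; exact zero_mem _
  | mul a p ha hp ih =>
    have hpd : p.natDegree < d := hG.2 p hp (dvd_mul_right p a)
    have haS : Sm d a := ⟨ha, fun q hq hqa => hG.2 q hq (hqa.mul_left p)⟩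
    have hpS : Sm d p := Sm.of_natDegree_lt hp.ne_zero hpd
    have h1 := mul_mem_L hpS (ih haS)
    set a' := a %ₘ π with ha'
    have hnd : ¬ π ∣ a := fun h => absurd (haS.2 π hi h) (by omega)
    have ha0 : a' ≠ 0 := by
      rw [ha']; intro h; exact hnd ((modByMonic_eq_zero_iff_dvd hm).1 h)
    have had : a'.natDegree < d := by
      rw [← hd]; exact natDegree_lt_natDegree ha0 (degree_modByMonic_lt _ hm)
    have h2 := reduce_two (K := K) hm hd hp.ne_zero hpd ha0 had
    have h3 : (p * a') %ₘ π = (p * a) %ₘ π := by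
      rw [ha', mul_modByMonic, mul_modByMonic p a,
        (modByMonic_eq_self_iff hm).2 (degree_modByMonic_lt a hm)]
    rw [h3] at h2
    have h4 := add_mem h1 h2
    have h5 : pc K p * (pc K (π * a) - pc K (π * a')) +
        (pc K (π * (p * a')) - pc K (π * ((p * a) %ₘ π))) =
        pc K (π * (p * a)) - pc K (π * ((p * a) %ₘ π)) := by
      simp only [pc_mul]; ring
    rwa [h5] at h4

/-! ### The maps `W(κ) → W(K) / L d` -/

namespace ResData

variable {π : F[X]} (D : ResData (F := F) K π)

/-- The representative of small degree of an element of the residue field. -/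
def rep (x : D.κ) : F[X] := (D.surj x).choose %ₘ π

theorem ρ_mod (hm : π.Monic) (g : F[X]) : D.ρ (g %ₘ π) = D.ρ g := by
  have h := modByMonic_add_div g π
  have h2 : D.ρ π = 0 := (D.ker π).2 dvd_rfl
  conv_rhs => rw [← h, map_add, map_mul, h2, zero_mul, add_zero]

theorem ρ_rep (hm : π.Monic) (x : D.κ) : D.ρ (D.rep x) = x := by
  rw [rep, D.ρ_mod hm]; exact (D.surj x).choose_spec

theorem mod_eq_of_ρ_eq (hm : π.Monic) {g h : F[X]} (e : D.ρ g = D.ρ h) : g %ₘ π = h %ₘ π := by
  have h1 : π ∣ g - h := (D.ker _).1 (by rw [map_sub, e, sub_self])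
  have h2 : (g - h) %ₘ π = 0 := (modByMonic_eq_zero_iff_dvd hm).2 h1
  rw [sub_modByMonic] at h2
  exact sub_eq_zero.1 h2

theorem rep_mod (hm : π.Monic) (x : D.κ) : D.rep x %ₘ π = D.rep x :=
  (modByMonic_eq_self_iff hm).2 (degree_modByMonic_lt _ hm)

theorem rep_ρ (hm : π.Monic) (g : F[X]) : D.rep (D.ρ g) = g %ₘ π := by
  rw [← D.rep_mod hm]
  exact D.mod_eq_of_ρ_eq hm (D.ρ_rep hm _)

theorem rep_ne (hm : π.Monic) {x : D.κ} (hx : x ≠ 0) : D.rep x ≠ 0 := by
  intro h; apply hx; rw [← D.ρ_rep hm x, h, map_zero]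

theorem rep_deg (hm : π.Monic) {x : D.κ} (hx : x ≠ 0) : (D.rep x).natDegree < π.natDegree :=
  natDegree_lt_natDegree (D.rep_ne hm hx) (degree_modByMonic_lt _ hm)

theorem sm_rep (hm : π.Monic) {x : D.κ} (hx : x ≠ 0) : Sm π.natDegree (D.rep x) :=
  Sm.of_natDegree_lt (D.rep_ne hm hx) (D.rep_deg hm hx)

/-- The class of `π` times a polynomial, modulo `L d`. -/
def val (π : F[X]) (d : ℕ) (g : F[X]) : WittRing K ⧸ L (F := F) K d :=
  QuotientAddGroup.mk (pc K (π * g))

theorem val_mod (hm : π.Monic) (hi : Irreducible π) {G : F[X]} (hG : Sm π.natDegree G) :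
    val (K := K) π π.natDegree (G %ₘ π) = val (K := K) π π.natDegree G := by
  unfold val
  rw [QuotientAddGroup.eq, neg_add_eq_sub]
  exact reduce hm hi rfl G hG

theorem val_rep (hm : π.Monic) (hi : Irreducible π) {G : F[X]} (hG : Sm π.natDegree G) :
    val (K := K) π π.natDegree (D.rep (D.ρ G)) = val (K := K) π π.natDegree G := by
  rw [D.rep_ρ hm, val_mod hm hi hG]

/-- The homomorphism `W(κ) → W(K) / L d`, `⟨ḡ⟩ ↦ ⟨π g⟩`. -/
def back (hm : π.Monic) (hi : Irreducible π) :
    WittRing D.κ →+ WittRing K ⧸ L (F := F) K π.natDegree :=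
  liftAdd (fun x => val (K := K) π π.natDegree (D.rep x))
    (by
      intro a b ha hb
      have hS : Sm π.natDegree (D.rep a * (D.rep b * D.rep b)) :=
        (D.sm_rep hm ha).mul ((D.sm_rep hm hb).mul (D.sm_rep hm hb))
      have h1 : D.ρ (D.rep a * (D.rep b * D.rep b)) = a * b ^ 2 := by
        rw [map_mul, map_mul, D.ρ_rep hm, D.ρ_rep hm, pow_two]
      have h2 := D.val_rep hm hi hS
      rw [h1] at h2
      rw [h2]
      unfold val
      congr 1
      simp only [pc_mul]
      have := pc_sq K (D.rep_ne hm hb)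
      linear_combination (pc K π * pc K (D.rep a)) * this)
    (by
      intro a ha
      have h1 : D.rep (-a) = - D.rep a := by
        have : -a = D.ρ (- D.rep a) := by rw [map_neg, D.ρ_rep hm]
        rw [this, D.rep_ρ hm]
        rw [neg_modByMonic, D.rep_mod hm]
      rw [h1]
      unfold val
      rw [← QuotientAddGroup.mk_add, mul_neg, pc_neg, add_neg_cancel]
      rfl)
    (by
      intro a b ha hb hs
      have h1 : D.rep (a + b) = D.rep a + D.rep b := by
        have : a + b = D.ρ (D.rep a + D.rep b) := by rw [map_add, D.ρ_rep hm, D.ρ_rep hm]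
        conv_lhs => rw [this, D.rep_ρ hm, add_modByMonic, D.rep_mod hm, D.rep_mod hm]
      have hS : Sm π.natDegree (D.rep a * D.rep b * D.rep (a + b)) :=
        ((D.sm_rep hm ha).mul (D.sm_rep hm hb)).mul (D.sm_rep hm hs)
      have h2 : D.ρ (D.rep a * D.rep b * D.rep (a + b)) = a * b * (a + b) := by
        rw [map_mul, map_mul, D.ρ_rep hm, D.ρ_rep hm, D.ρ_rep hm]
      have h3 := D.val_rep hm hi hS
      rw [h2] at h3
      rw [h3]
      unfold val
      rw [← QuotientAddGroup.mk_add, ← QuotientAddGroup.mk_add]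
      congr 1
      have hrel := pc_add K (π * D.rep a) (π * D.rep b)
      have hpi := pc_sq K hm.ne_zero
      rw [← mul_add, ← h1] at hrel
      simp only [pc_mul] at hrel ⊢
      linear_combination hrel + (pc K (D.rep a) * pc K (D.rep b) * pc K (D.rep (a + b)) *
        pc K π) * hpi)

theorem back_cz (hm : π.Monic) (hi : Irreducible π) {G : F[X]} (hG : Sm π.natDegree G) :
    D.back hm hi (cz (D.ρ G)) = QuotientAddGroup.mk (pc K (π * G)) := by
  have hG0 : D.ρ G ≠ 0 := by
    intro h
    exact absurd (hG.2 π hi ((D.ker G).1 h)) (lt_irrefl _)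
  unfold back
  rw [liftAdd_cz _ _ _ _ hG0]
  exact D.val_rep hm hi hG

end ResData

/-! ### The filtration step -/

variable (K) in
/-- The subgroup generated by `L d` and the classes of products of one monic irreducible
polynomial of degree `d` and polynomials of smaller degree. -/
def T (d : ℕ) : AddSubgroup (WittRing K) :=
  AddSubgroup.closure ({x | ∃ f : F[X], Sm d f ∧ x = pc K f} ∪
    {x | ∃ π f : F[X], π.Monic ∧ Irreducible π ∧ π.natDegree = d ∧ Sm d f ∧ x = pc K (π * f)})

theorem T_mul {d : ℕ} {p : F[X]} (hp : Irreducible p) (hpd : p.natDegree ≤ d) {x : WittRing K}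
    (hx : x ∈ T (F := F) K d) : pc K p * x ∈ T (F := F) K d := by
  have h1 : ∀ f : F[X], Sm d f → pc K f ∈ T (F := F) K d := fun f hf =>
    AddSubgroup.subset_closure (Or.inl ⟨f, hf, rfl⟩)
  have h2 : ∀ π f : F[X], π.Monic → Irreducible π → π.natDegree = d → Sm d f →
      pc K (π * f) ∈ T (F := F) K d := fun π f a b c e =>
    AddSubgroup.subset_closure (Or.inr ⟨π, f, a, b, c, e, rfl⟩)
  have hd : 0 < p.natDegree := hp.natDegree_pos
  refine AddSubgroup.closure_induction (p := fun x _ => pc K p * x ∈ T (F := F) K d)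
    ?_ ?_ ?_ ?_ hx
  · rcases hpd.lt_or_eq with hlt | heq
    · have hpS : Sm d p := Sm.of_natDegree_lt hp.ne_zero hlt
      rintro _ (⟨f, hf, rfl⟩ | ⟨π, f, hm, hi, hpi, hf, rfl⟩)
      · rw [← pc_mul]; exact h1 _ (hpS.mul hf)
      · have : pc K p * pc K (π * f) = pc K (π * (p * f)) := by simp only [pc_mul]; ring
        rw [this]; exact h2 _ _ hm hi hpi (hpS.mul hf)
    · -- `p = c * h` with `h` monic
      have hl : p.leadingCoeff ≠ 0 := leadingCoeff_ne_zero.2 hp.ne_zero
      set c : F := p.leadingCoeff with hc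
      set h : F[X] := p * C c⁻¹ with hh
      have hCu : IsUnit (C c⁻¹ : F[X]) := isUnit_C.2 (isUnit_iff_ne_zero.2 (inv_ne_zero hl))
      have hhm : h.Monic := by rw [hh, hc]; exact monic_mul_leadingCoeff_inv hp.ne_zero
      have hhi : Irreducible h := by
        rw [hh]; exact (irreducible_mul_isUnit hCu).2 hp
      have hhd : h.natDegree = d := by
        rw [hh, natDegree_mul_C (inv_ne_zero hl), heq]
      have hpc : p = C c * h := by
        rw [hh, mul_comm p, ← mul_assoc, ← C_mul, mul_inv_cancel₀ hl, C_1, one_mul]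
      have hcS : Sm d (C c : F[X]) := Sm.of_natDegree_lt (C_ne_zero.2 hl)
        (by rw [natDegree_C]; omega)
      rintro _ (⟨f, hf, rfl⟩ | ⟨π, f, hm, hi, hpi, hf, rfl⟩)
      · have : pc K p * pc K f = pc K (h * (C c * f)) := by
          rw [hpc]; simp only [pc_mul]; ring
        rw [this]; exact h2 _ _ hhm hhi hhd (hcS.mul hf)
      · have hG : Sm d (C c * f) := hcS.mul hf
        by_cases hph : π = h
        · have : pc K p * pc K (π * f) = pc K (C c * f) := by
            rw [hpc, hph]; simp only [pc_mul]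
            linear_combination (pc K (C c) * pc K f) * pc_sq K hhm.ne_zero
          rw [this]; exact h1 _ hG
        · set e : F[X] := h - π with he
          have he0 : e ≠ 0 := by rw [he]; exact sub_ne_zero.2 (Ne.symm hph)
          have hed : e.natDegree < d := by
            have hlt : e.degree < h.degree := by
              rw [he]
              refine degree_sub_lt_left ?_ hhm.ne_zero ?_
              · rw [degree_eq_natDegree hhm.ne_zero, degree_eq_natDegree hm.ne_zero, hhd, hpi]
              · rw [hhm.leadingCoeff, hm.leadingCoeff]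
            rw [← hhd]; exact natDegree_lt_natDegree he0 hlt
          have heS : Sm d e := Sm.of_natDegree_lt he0 hed
          have hrel := pc_add K π e
          have hsum : π + e = h := by rw [he]; ring
          rw [hsum] at hrel
          have : pc K p * pc K (π * f) =
              pc K (C c * f) + pc K (π * (e * (C c * f))) - pc K (h * (e * (C c * f))) := by
            rw [hpc]
            have hpi2 := pc_sq K hm.ne_zero
            simp only [pc_mul]
            linear_combination (-(pc K (C c) * pc K f * pc K π)) * hrel +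
              (pc K (C c) * pc K f - pc K (C c) * pc K f * pc K e * pc K h) * hpi2
          rw [this]
          refine sub_mem (add_mem (h1 _ hG) (h2 _ _ hm hi hpi (heS.mul hG))) ?_
          exact h2 _ _ hhm hhi hhd (heS.mul hG)
  · rw [mul_zero]; exact zero_mem _
  · intro a b _ _ ha hb; rw [mul_add]; exact add_mem ha hb
  · intro a _ ha; rw [mul_neg]; exact neg_mem ha

theorem L_succ_le_T {d : ℕ} (hd : 0 < d) : L (F := F) K (d + 1) ≤ T (F := F) K d := by
  refine (AddSubgroup.closure_le _).2 ?_
  rintro _ ⟨f, hf, rfl⟩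
  change pc K f ∈ T (F := F) K d
  induction f using WfDvdMonoid.induction_on_irreducible with
  | zero => exact absurd rfl hf.1
  | unit u hu =>
    refine AddSubgroup.subset_closure (Or.inl ⟨u, Sm.of_natDegree_lt hu.ne_zero ?_, rfl⟩)
    rw [natDegree_eq_zero_of_isUnit hu]; exact hd
  | mul a p ha hp ih =>
    rw [pc_mul]
    refine T_mul hp (Nat.lt_succ_iff.1 (hf.2 p hp (dvd_mul_right p a))) ?_
    exact ih ⟨ha, fun q hq hqa => hf.2 q hq (hqa.mul_left p)⟩

theorem filtration_step {d : ℕ} (hd : 0 < d)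
    (D : ∀ π : F[X], π.Monic → Irreducible π → ResData (F := F) K π)
    {w : WittRing K} (hw : w ∈ L (F := F) K (d + 1))
    (h0 : ∀ (π : F[X]) (hm : π.Monic) (hi : Irreducible π), (D π hm hi).res w = 0) :
    w ∈ L (F := F) K d := by
  classical
  let P : Type u := {π : F[X] // π.Monic ∧ Irreducible π ∧ π.natDegree = d}
  let ψ : P → WittRing K →+ WittRing K ⧸ L (F := F) K d := fun q =>
    q.2.2.2 ▸ (((D q.1 q.2.1 q.2.2.1).back q.2.1 q.2.2.1).comp (D q.1 q.2.1 q.2.2.1).res)
  have key : ∀ w ∈ T (F := F) K d, ∃ S : Finset P, ∀ S' : Finset P, S ⊆ S' →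
      (QuotientAddGroup.mk w : WittRing K ⧸ L (F := F) K d) = ∑ q ∈ S', ψ q w := by
    intro w hw
    refine AddSubgroup.closure_induction (p := fun w _ => ∃ S : Finset P, ∀ S' : Finset P,
      S ⊆ S' → (QuotientAddGroup.mk w : WittRing K ⧸ L (F := F) K d) = ∑ q ∈ S', ψ q w)
      ?_ ?_ ?_ ?_ hw
    · rintro _ (⟨f, hf, rfl⟩ | ⟨π, f, hm, hi, hpi, hf, rfl⟩)
      · refine ⟨∅, fun S' _ => ?_⟩
        rw [(QuotientAddGroup.eq_zero_iff _).2 (pc_mem_L hf)]
        refine (Finset.sum_eq_zero fun q _ => ?_).symm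
        obtain ⟨π, hm, hi, rfl⟩ := q
        change (D π hm hi).back hm hi ((D π hm hi).res (pc K f)) = 0
        rw [(D π hm hi).res_unit, map_zero]
        intro h
        exact absurd (hf.2 π hi (((D π hm hi).ker f).1 h)) (lt_irrefl _)
      · refine ⟨{⟨π, hm, hi, hpi⟩}, fun S' hS' => ?_⟩
        have hmem : (⟨π, hm, hi, hpi⟩ : P) ∈ S' := hS' (Finset.mem_singleton_self _)
        rw [Finset.sum_eq_single_of_mem _ hmem]
        · subst hpi
          change _ = (D π hm hi).back hm hi ((D π hm hi).res (pc K (π * f)))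
          rw [(D π hm hi).res_pi, (D π hm hi).back_cz hm hi hf]
          intro h
          exact absurd (hf.2 π hi (((D π hm hi).ker f).1 h)) (lt_irrefl _)
        · rintro ⟨π', hm', hi', hpi'⟩ _ hne
          subst hpi'
          change (D π' hm' hi').back hm' hi' ((D π' hm' hi').res (pc K (π * f))) = 0
          rw [(D π' hm' hi').res_unit, map_zero]
          intro h
          rcases hi'.prime.dvd_or_dvd (((D π' hm' hi').ker _).1 h) with h1 | h1
          · apply hne
            have : π' = π := by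
              have := (hi'.associated_of_dvd hi h1)
              exact eq_of_monic_of_associated hm' hm this
            subst this; rfl
          · exact absurd (hf.2 π' hi' h1) (lt_irrefl _)
    · refine ⟨∅, fun S' _ => ?_⟩
      simp
    · rintro a b _ _ ⟨S, hS⟩ ⟨S2, hS2⟩
      refine ⟨S ∪ S2, fun S' h => ?_⟩
      rw [QuotientAddGroup.mk_add, hS S' (Finset.union_subset_left h),
        hS2 S' (Finset.union_subset_right h), ← Finset.sum_add_distrib]
      simp only [map_add]
    · rintro a _ ⟨S, hS⟩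
      refine ⟨S, fun S' h => ?_⟩
      rw [QuotientAddGroup.mk_neg, hS S' h, ← Finset.sum_neg_distrib]
      simp only [map_neg]
  obtain ⟨S, hS⟩ := key w (L_succ_le_T hd hw)
  have h1 := hS S (Finset.Subset.refl S)
  rw [Finset.sum_eq_zero] at h1
  · exact (QuotientAddGroup.eq_zero_iff _).1 h1
  · rintro ⟨π, hm, hi, hpi⟩ _
    subst hpi
    change (D π hm hi).back hm hi ((D π hm hi).res w) = 0
    rw [h0, map_zero]

theorem mem_L_all (w : WittRing K) : ∃ d, w ∈ L (F := F) K (d + 1) := by
  induction w using cz_induction with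
  | h0 => exact ⟨0, zero_mem _⟩
  | h1 a ha =>
    obtain ⟨f, g, hg, rfl⟩ := IsFractionRing.div_surjective (A := F[X]) a
    have hg0 : g ≠ 0 := nonZeroDivisors.ne_zero hg
    have hf0 : f ≠ 0 := by rintro rfl; simp at ha
    have h1 : cz (algebraMap F[X] K f / algebraMap F[X] K g) = pc K (f * g) := by
      have hg1 := algebraMap_ne K hg0
      have : algebraMap F[X] K f / algebraMap F[X] K g =
          algebraMap F[X] K (f * g) * (algebraMap F[X] K g)⁻¹ ^ 2 := by
        rw [map_mul]; field_simp
      rw [this, cz_mul_sq _ (inv_ne_zero hg1)]; rfl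
    rw [h1]
    exact ⟨(f * g).natDegree, pc_mem_L (Sm.of_natDegree_lt (mul_ne_zero hf0 hg0)
      (Nat.lt_succ_self _))⟩
  | hadd x y hx hy =>
    obtain ⟨d, hd⟩ := hx
    obtain ⟨e, he⟩ := hy
    exact ⟨max d e, add_mem (L_mono (by omega) hd) (L_mono (by omega) he)⟩

variable (K) in
/-- The inclusion of the constants. -/
def cK : F →+* K := (algebraMap F[X] K).comp C

/-- **Milnor's theorem**: a class in the Witt ring of `F(t)` which is unramified at all monic
irreducible polynomials is constant. -/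
theorem milnor (D : ∀ π : F[X], π.Monic → Irreducible π → ResData (F := F) K π)
    (w : WittRing K)
    (h0 : ∀ (π : F[X]) (hm : π.Monic) (hi : Irreducible π), (D π hm hi).res w = 0) :
    ∃ v : WittRing F, w = map (cK (F := F) K) v := by
  have h1 : w ∈ L (F := F) K 1 := by
    obtain ⟨d, hd⟩ := mem_L_all (F := F) w
    induction d with
    | zero => exact hd
    | succ d ih => exact ih (filtration_step (Nat.succ_pos d) D hd h0)
  refine AddSubgroup.closure_induction (p := fun w _ => ∃ v : WittRing F,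
    w = map (cK (F := F) K) v) ?_ ?_ ?_ ?_ h1
  · rintro _ ⟨f, hf, rfl⟩
    have hdeg : f.natDegree = 0 := by
      by_contra hne
      obtain ⟨p, hp, hpf⟩ := WfDvdMonoid.exists_irreducible_factor
        (fun hu => hne (natDegree_eq_zero_of_isUnit hu)) hf.1
      have := hf.2 p hp hpf
      have := hp.natDegree_pos
      omega
    rw [eq_C_of_natDegree_eq_zero hdeg]
    exact ⟨cz (f.coeff 0), by rw [map_cz]; rfl⟩
  · exact ⟨0, by simp⟩
  · rintro a b _ _ ⟨v, rfl⟩ ⟨v', rfl⟩; exact ⟨v + v', by rw [_root_.map_add]⟩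
  · rintro a _ ⟨v, rfl⟩; exact ⟨-v, by rw [_root_.map_neg]⟩

end Milnor

end Pool.Agent.TH132.W
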