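import Pool.Agent.TH132.W.Milnor

/-!
# The discrete valuation rings of a rational function field
-/

noncomputable section

set_option linter.unusedSectionVars false
set_option linter.style.haveILetI false

namespace Pool.Agent.TH132.W

open Polynomial IsLocalRing

universe u v w

section Oloc

variable {F : Type u} (K : Type v) [Field F] [Field K] [Algebra F[X] K] [IsFractionRing F[X] K]
  (π : F[X]) (hi : Irreducible π)

/-- The local ring of `F[t]` at `π`, as a subring of `K`. -/
def Oloc : Subring K where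
  carrier := {x | ∃ f g : F[X], ¬ π ∣ g ∧ x * algebraMap F[X] K g = algebraMap F[X] K f}
  zero_mem' := ⟨0, 1, fun h => hi.not_isUnit (isUnit_of_dvd_one h), by simp⟩
  one_mem' := ⟨1, 1, fun h => hi.not_isUnit (isUnit_of_dvd_one h), by simp⟩
  add_mem' := by
    rintro x y ⟨f, g, hg, e⟩ ⟨f', g', hg', e'⟩
    refine ⟨f * g' + f' * g, g * g', fun h => (hi.prime.dvd_or_dvd h).elim hg hg', ?_⟩
    rw [map_add, map_mul, map_mul, map_mul, ← e, ← e']; ring
  mul_mem' := by
    rintro x y ⟨f, g, hg, e⟩ ⟨f', g', hg', e'⟩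
    refine ⟨f * f', g * g', fun h => (hi.prime.dvd_or_dvd h).elim hg hg', ?_⟩
    rw [map_mul, map_mul, ← e, ← e']; ring
  neg_mem' := by
    rintro x ⟨f, g, hg, e⟩
    exact ⟨-f, g, hg, by rw [map_neg, ← e]; ring⟩

theorem algebraMap_mem_Oloc (f : F[X]) : algebraMap F[X] K f ∈ Oloc K π hi :=
  ⟨f, 1, fun h => hi.not_isUnit (isUnit_of_dvd_one h), by simp⟩

instance : Algebra F[X] (Oloc K π hi) :=
  ((algebraMap F[X] K).codRestrict (Oloc K π hi) (algebraMap_mem_Oloc K π hi)).toAlgebra

@[simp] theorem Oloc.coe_algebraMap (f : F[X]) :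
    ((algebraMap F[X] (Oloc K π hi) f : Oloc K π hi) : K) = algebraMap F[X] K f := rfl

instance : IsScalarTower F[X] (Oloc K π hi) K := .of_algebraMap_eq fun _ => rfl

/-- The prime ideal generated by `π`. -/
abbrev idl (π : F[X]) : Ideal F[X] := Ideal.span {π}

theorem idl_prime (hi : Irreducible π) : (idl π).IsPrime :=
  (Ideal.span_singleton_prime hi.ne_zero).2 hi.prime

theorem idl_maximal (hi : Irreducible π) : (idl π).IsMaximal :=
  PrincipalIdealRing.isMaximal_of_irreducible hi

instance isLoc : letI := idl_prime π hi; IsLocalization.AtPrime (Oloc K π hi) (idl π) := by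
  letI := idl_prime π hi
  refine ⟨?_, ?_, ?_⟩
  · rintro ⟨g, hg⟩
    have hg' : ¬ π ∣ g := fun h => hg (Ideal.mem_span_singleton.2 h)
    have hg0 : algebraMap F[X] K g ≠ 0 := algebraMap_ne K (by rintro rfl; exact hg' (dvd_zero _))
    refine isUnit_iff_exists_inv.2 ⟨⟨(algebraMap F[X] K g)⁻¹, 1, g, hg', ?_⟩, ?_⟩
    · rw [map_one, inv_mul_cancel₀ hg0]
    · ext
      change algebraMap F[X] K g * (algebraMap F[X] K g)⁻¹ = 1
      exact mul_inv_cancel₀ hg0
  · rintro ⟨x, f, g, hg, e⟩
    refine ⟨⟨f, ⟨g, fun h => hg (Ideal.mem_span_singleton.1 h)⟩⟩, ?_⟩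
    ext
    exact e
  · intro f g h
    have h' : algebraMap F[X] K f = algebraMap F[X] K g := congrArg Subtype.val h
    exact ⟨1, by rw [IsFractionRing.injective F[X] K h']⟩

instance : IsDiscreteValuationRing (Oloc K π hi) := by
  letI := idl_prime π hi
  exact IsLocalization.AtPrime.isDiscreteValuationRing_of_dedekind_domain F[X]
    (by rw [Ne, Ideal.span_singleton_eq_bot]; exact hi.ne_zero) _ (P := idl π)

instance : IsFractionRing (Oloc K π hi) K := by
  letI := idl_prime π hi
  exact IsFractionRing.isFractionRing_of_isDomain_of_isLocalization (idl π).primeCompl _ _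

/-- The uniformizer `π`. -/
def pol : Oloc K π hi := algebraMap F[X] (Oloc K π hi) π

theorem mem_max_iff (f : F[X]) :
    algebraMap F[X] (Oloc K π hi) f ∈ maximalIdeal (Oloc K π hi) ↔ π ∣ f := by
  letI := idl_prime π hi
  rw [IsLocalization.AtPrime.to_map_mem_maximal_iff (Oloc K π hi) (idl π) f]
  exact Ideal.mem_span_singleton

theorem pol_irreducible : Irreducible (pol K π hi) := by
  letI := idl_prime π hi
  rw [IsDiscreteValuationRing.irreducible_iff_uniformizer]
  rw [← IsLocalization.AtPrime.map_eq_maximalIdeal (idl π) (Oloc K π hi), Ideal.map_span]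
  simp [pol]

/-- The residue field. -/
abbrev kap : Type v := ResidueField (Oloc K π hi)

/-- The residue class map on polynomials. -/
def rho : F[X] →+* kap K π hi := (residue (Oloc K π hi)).comp (algebraMap F[X] (Oloc K π hi))

theorem rho_eq_zero (f : F[X]) : rho K π hi f = 0 ↔ π ∣ f := by
  rw [← mem_max_iff K π hi, ← residue_eq_zero_iff]; rfl

theorem rho_surjective : Function.Surjective (rho K π hi) := by
  letI := idl_prime π hi
  letI := idl_maximal π hi
  intro x
  obtain ⟨y, hy⟩ := (IsLocalization.AtPrime.equivQuotMaximalIdeal (idl π)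
    (Oloc K π hi)).surjective x
  obtain ⟨f, rfl⟩ := Ideal.Quotient.mk_surjective y
  exact ⟨f, by rw [← hy]; rfl⟩

theorem isUnit_of_rho_ne {f : F[X]} (h : rho K π hi f ≠ 0) :
    IsUnit (algebraMap F[X] (Oloc K π hi) f) := by
  by_contra hcon
  exact h ((residue_eq_zero_iff _).2 ((mem_maximalIdeal _).2 hcon))

/-- The map `W(K) → W(κ)[ε]` at `π`. -/
abbrev lamP : WittRing K →+* Dbl (WittRing (kap K π hi)) :=
  lam K (pol K π hi) (pol_irreducible K π hi)

theorem lamP_pc {f : F[X]} (h : rho K π hi f ≠ 0) :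
    lamP K π hi (pc K f) = cst (cz (rho K π hi f)) := by
  have := lam_cz_unit K (pol K π hi) (pol_irreducible K π hi) (isUnit_of_rho_ne K π hi h)
  exact this

theorem lamP_pi : lamP K π hi (pc K π) = ⟨0, 1⟩ :=
  lam_cz_pi K (pol K π hi) (pol_irreducible K π hi)

theorem lamP_const (v : WittRing F) :
    lamP K π hi (map (cK (F := F) K) v) = cst (map ((rho K π hi).comp C) v) := by
  have : (lamP K π hi).comp (map (cK (F := F) K)) = cst.comp (map ((rho K π hi).comp C)) := by
    apply cz_ringHom_ext
    intro a ha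
    rw [RingHom.comp_apply, RingHom.comp_apply, map_cz, map_cz]
    have h1 : ((rho K π hi).comp C) a ≠ 0 := (map_ne_zero_iff _ (RingHom.injective _)).2 ha
    exact lamP_pc K π hi h1
  exact congrArg (fun f => f v) this


end Oloc

section Data

variable {F : Type u} (K : Type u) [Field F] [Field K] [Algebra F[X] K] [IsFractionRing F[X] K]
  (π : F[X]) (hi : Irreducible π)

/-- The residue data of the local ring of `F[t]` at `π`. -/
def rData : ResData (F := F) K π where
  κ := kap K π hi
  ρ := rho K π hi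
  surj := rho_surjective K π hi
  ker := rho_eq_zero K π hi
  res := res2 K (pol K π hi) (pol_irreducible K π hi)
  res_unit g hg := by rw [res2_apply]; exact congrArg _ (lamP_pc K π hi hg)
  res_pi g hg := by
    rw [res2_apply]
    change (lamP K π hi (pc K (π * g))).im = _
    rw [pc_mul, map_mul, lamP_pi, lamP_pc K π hi hg]
    simp

theorem milnor' (w : WittRing K)
    (h0 : ∀ (π : F[X]) (_ : π.Monic) (hi : Irreducible π), (lamP K π hi w).im = 0) :
    ∃ v : WittRing F, w = map (cK (F := F) K) v :=
  milnor (fun π _ hi => rData K π hi) w h0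

theorem map_surjective {E E' : Type*} [Field E] [Field E'] (φ : E →+* E')
    (h : Function.Surjective φ) : Function.Surjective (map φ) := by
  intro y
  induction y using cz_induction with
  | h0 => exact ⟨0, map_zero _⟩
  | h1 a ha =>
    obtain ⟨b, rfl⟩ := h a
    exact ⟨cz b, map_cz φ b⟩
  | hadd x y hx hy =>
    obtain ⟨a, rfl⟩ := hx
    obtain ⟨b, rfl⟩ := hy
    exact ⟨a + b, _root_.map_add _ _ _⟩

theorem irreducible_X' : Irreducible (X : F[X]) := irreducible_X

/-- A class unramified at all monic irreducible polynomials different from `t` is of the form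
`v₀ + ⟨t⟩ v₁` with constant classes `v₀` and `v₁`. -/
theorem milnor_torus (w : WittRing K)
    (h0 : ∀ (π : F[X]) (_ : π.Monic) (hi : Irreducible π), π ≠ X → (lamP K π hi w).im = 0) :
    ∃ v₀ v₁ : WittRing F, w = map (cK (F := F) K) v₀ + pc K (X : F[X]) * map (cK (F := F) K) v₁ := by
  have hX := irreducible_X (R := F)
  have hsurj : Function.Surjective ((rho K X hX).comp C) := by
    intro x
    obtain ⟨f, rfl⟩ := rho_surjective K X hX x
    refine ⟨f.coeff 0, ?_⟩
    have h1 : rho K X hX (f - C (f.coeff 0)) = 0 := by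
      rw [rho_eq_zero, X_dvd_iff]; simp
    rw [map_sub] at h1
    exact (sub_eq_zero.1 h1).symm
  obtain ⟨v₁, hv₁⟩ := map_surjective _ hsurj (lamP K X hX w).im
  obtain ⟨v₀, hv₀⟩ := milnor' K (w - pc K (X : F[X]) * map (cK (F := F) K) v₁) (by
    intro π hm hi
    rw [map_sub, map_mul, lamP_const, QuadraticAlgebra.im_sub]
    by_cases hπ : π = X
    · subst hπ
      rw [lamP_pi]
      simp [hv₁]
    · rw [h0 π hm hi hπ]
      have hr : rho K π hi X ≠ 0 := by
        rw [Ne, rho_eq_zero]
        intro h
        exact hπ (eq_of_monic_of_associated hm monic_X (hi.associated_of_dvd hX h))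
      rw [lamP_pc K π hi hr]
      simp)
  exact ⟨v₀, v₁, by rw [← hv₀]; ring⟩

end Data

end Pool.Agent.TH132.W
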