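import Pool.Agent.TH132.W.Smthb
import Pool.Agent.TH132.W.Alpha
import Pool.Agent.TH132.W.F5

/-!
# The counterexample as a scheme
-/

noncomputable section

set_option linter.unusedSectionVars false

namespace Pool.Agent.TH132.W

open Polynomial AlgebraicGeometry IsLocalRing

universe u v

section SpecA

variable (A : CommRingCat.{u}) [IsDomain A]

/-- The stalk as an algebra. -/
abbrev stAlg (y : Spec A) : Algebra A ((Spec A).presheaf.stalk y) :=
  StructureSheaf.stalkAlgebra A y

theorem stLoc (P : Ideal A) [hP : P.IsPrime] :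
    letI := stAlg A (⟨P, hP⟩ : PrimeSpectrum A)
    IsLocalization.AtPrime ((Spec A).presheaf.stalk (⟨P, hP⟩ : PrimeSpectrum A)) P :=
  StructureSheaf.IsLocalization.to_stalk A ⟨P, hP⟩

theorem stTower (y : Spec A) : letI := stAlg A y
    IsScalarTower A ((Spec A).presheaf.stalk y) (Spec A).functionField := by
  let _ := stAlg A y
  refine IsScalarTower.of_algebraMap_eq' ?_
  have h := StructureSheaf.toStalk_stalkSpecializes (R := A)
    ((genericPoint_spec (Spec A)).specializes (Set.mem_univ y : y ∈ _))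
  exact (congrArg (fun f => f.hom) h).symm

end SpecA

section Main

variable {k : Type u} (F K : Type u) [Field k] [Field F] [Field K] [Algebra k[X] F]
  [IsFractionRing k[X] F] [Algebra F[X] K] [IsFractionRing F[X] K] (p r : k)

/-- The coordinate ring as an object of the category. -/
abbrev AC : CommRingCat.{u} := CommRingCat.of (SA F K p r)

instance : IsDomain (AC F K p r) := inferInstanceAs (IsDomain (SA F K p r))

/-- The surface. -/
abbrev XS : Scheme.{u} := Spec (AC F K p r)

instance : IsIntegral (XS F K p r) := inferInstance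

/-- The function field. -/
abbrev LS : Type u := (XS F K p r).functionField

instance : Algebra (SA F K p r) (LS F K p r) :=
  instAlgebraCarrierFunctionFieldSpec (AC F K p r)

instance : IsFractionRing (SA F K p r) (LS F K p r) :=
  functionField_isFractionRing_of_affine (AC F K p r)

/-- The identification of the function field. -/
def toK : LS F K p r ≃ₐ[SA F K p r] K :=
  IsLocalization.algEquiv (nonZeroDivisors (SA F K p r)) _ _

/-- The identification of the function field, as a ring homomorphism. -/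
def eK : LS F K p r →+* K := ((toK F K p r : LS F K p r ≃+* K) : LS F K p r →+* K)

theorem eK_alg (a : SA F K p r) : eK F K p r (algebraMap _ _ a) = a :=
  (toK F K p r).commutes a

/-- Unramified classes have vanishing residues along all good embeddings. -/
theorem res_zero (w : WittRing (LS F K p r)) (hw : UnramW (XS F K p r) w)
    (θ : K →+* K) (hθ : ∀ a : k, θ (kc F K a) = kc F K a) (π : F[X]) (hi : Irreducible π)
    (hg : Good F K p r θ π hi) : (lamP K π hi (map θ (map (eK F K p r) w))).im = 0 := by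
  obtain ⟨g1, g2, g3⟩ := hg
  have hcomp : (θ.comp (eK F K p r)).comp (algebraMap (SA F K p r) (LS F K p r)) =
      θ.comp (SA F K p r).subtype := by
    ext a
    simp only [RingHom.comp_apply]
    rw [eK_alg]; rfl
  rw [map_comp']
  refine geom_res (k := k) (A := SA F K p r) (θ.comp (eK F K p r)) ?_ ?_ ?_ ?_ w ?_
  · intro a
    rw [RingHom.comp_apply, eK_alg]
    exact g1 a a.2
  · intro c
    refine ⟨⟨_, kc_mem_SA F K p r c⟩, ?_⟩
    rw [RingHom.comp_apply, eK_alg]
    exact hθ c
  · rw [hcomp]; exact g2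
  · rw [hcomp]; exact g3
  · intro P hP
    let y : XS F K p r := (⟨P, hP⟩ : PrimeSpectrum (AC F K p r))
    refine ⟨(XS F K p r).presheaf.stalk y, inferInstance, inferInstance, stAlg (AC F K p r) y,
      inferInstance, stTower (AC F K p r) y, stLoc (AC F K p r) P, inferInstance, ?_⟩
    intro _ ϖ hϖ
    exact hw y ϖ hϖ _ (res2_is _ ϖ hϖ)

/-- A nonzero element of the coordinate ring as a unit of the function field. -/
def uL (a : SA F K p r) (ha : (a : K) ≠ 0) : (LS F K p r)ˣ :=
  Units.mk0 (algebraMap (SA F K p r) (LS F K p r) a)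
    ((map_ne_zero_iff _ (IsFractionRing.injective (SA F K p r) (LS F K p r))).2
      (fun h => ha (congrArg Subtype.val h)))

theorem kc_ne {a : k} (ha : a ≠ 0) : kc F K a ≠ 0 :=
  (map_ne_zero_iff _ (RingHom.injective _)).2 ha

/-- The element `2 {c, d} - {c, r / p} + {d, r}`. -/
def alphaS (hp : p ≠ 0) (hr : r ≠ 0) : MilnorK2 (LS F K p r) :=
  (2 : ℤ) • sym (uL F K p r ⟨_, cv_mem_SA F K p r⟩ (cv_ne F K))
      (uL F K p r ⟨_, tv_mem_SA F K p r⟩ (tv_ne K)) -
    sym (uL F K p r ⟨_, cv_mem_SA F K p r⟩ (cv_ne F K))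
      (uL F K p r ⟨_, kc_mem_SA F K p r (r / p)⟩ (kc_ne F K (div_ne_zero hr hp))) +
    sym (uL F K p r ⟨_, tv_mem_SA F K p r⟩ (tv_ne K))
      (uL F K p r ⟨_, kc_mem_SA F K p r r⟩ (kc_ne F K hr))

theorem alpha_unram (hp : p ≠ 0) (hr : r ≠ 0) :
    UnramK2 (XS F K p r) (alphaS F K p r hp hr) := by
  intro x _ ϖ hϖ
  refine ⟨_, tame_is _ ϖ hϖ, ?_⟩
  let _ : Algebra (SA F K p r) ((XS F K p r).presheaf.stalk x) := stAlg (AC F K p r) x
  have hT : IsScalarTower (SA F K p r) ((XS F K p r).presheaf.stalk x) (LS F K p r) :=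
    stTower (AC F K p r) x
  set f : SA F K p r →+* (XS F K p r).presheaf.stalk x :=
    algebraMap (SA F K p r) ((XS F K p r).presheaf.stalk x) with hf
  have hval : ∀ (a : SA F K p r) (ha : (a : K) ≠ 0), ((uL F K p r a ha : (LS F K p r)ˣ) :
      LS F K p r) = algebraMap ((XS F K p r).presheaf.stalk x) (LS F K p r) (f a) := by
    intro a ha
    exact IsScalarTower.algebraMap_apply (SA F K p r) ((XS F K p r).presheaf.stalk x)
      (LS F K p r) a
  have hunit : ∀ a : k, a ≠ 0 → IsUnit (f ⟨_, kc_mem_SA F K p r a⟩) := by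
    intro a ha
    have h1 : IsUnit (⟨_, kc_mem_SA F K p r a⟩ : SA F K p r) := by
      refine isUnit_iff_exists_inv.2 ⟨⟨_, kc_mem_SA F K p r a⁻¹⟩, Subtype.ext ?_⟩
      change kc F K a * kc F K a⁻¹ = 1
      rw [← map_mul, mul_inv_cancel₀ ha, map_one]
    exact h1.map f
  have hc0 := cv_ne (k := k) F K
  have hd0 := tv_ne (F := F) K
  refine alpha_tame ϖ hϖ (f ⟨_, cv_mem_SA F K p r⟩) (f ⟨_, tv_mem_SA F K p r⟩)
    (f ⟨_, gg1_mem_SA F K p r⟩) (f ⟨_, gg2_mem_SA F K p r⟩) (f ⟨_, ff3_mem_SA F K p r⟩)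
    (f ⟨_, kc_mem_SA F K p r p⟩) (f ⟨_, kc_mem_SA F K p r r⟩) (f ⟨_, kc_mem_SA F K p r (r / p)⟩)
    (f ⟨_, hh_mem_SA F K p r⟩) (hunit p hp) (hunit r hr) (hunit _ (div_ne_zero hr hp))
    ?_ ?_ ?_ ?_ ?_ ?_ _ _ _ _ (hval _ _) (hval _ _) (hval _ _) (hval _ _)
  · rw [← map_mul]
    congr 1
    ext
    change kc F K (r / p) * kc F K p = kc F K r
    rw [← map_mul, div_mul_cancel₀ _ hp]
  · rw [← map_pow, ← map_pow, ← map_mul, ← map_add, ← map_sub]
    rfl
  · rw [← map_mul, ← map_mul]
    congr 1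
    ext
    change cv (k := k) F K * gg1 F K p r = tv (F := F) K * hh F K p r
    unfold gg1
    field_simp
  · rw [← map_mul, ← map_mul]
    congr 1
    ext
    change tv (F := F) K * gg2 F K p r = cv (k := k) F K * hh F K p r
    unfold gg2
    field_simp
  · rw [← map_mul, ← map_pow]
    congr 1
    ext
    change gg1 F K p r * gg2 F K p r = hh F K p r ^ 2
    unfold gg1 gg2
    field_simp
  · rw [← map_mul, ← map_mul, ← map_sub, ← map_mul]
    congr 1
    ext
    change tv (F := F) K * ff3 F K p r = (gg2 F K p r - kc F K p * gg1 F K p r) * hh F K p r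
    unfold gg1 gg2 ff3
    field_simp

theorem map_eK_pf (a : SA F K p r) (ha : (a : K) ≠ 0) :
    map (eK F K p r) (pf (uL F K p r a ha)) = 1 - cz (a : K) := by
  unfold pf
  rw [_root_.map_sub, map_one, ← cz_unit, map_cz]
  congr 2
  exact eK_alg F K p r a

/-- **The main theorem**: the element `α` of `K₂` does not lift to an unramified class. -/
theorem no_lift' {i : k} (hi : i ^ 2 = -1) (hp : p ≠ 0) (hr : r ≠ 0)
    (hpr : (1 - cz p) * (1 - cz r) ∉ fund k ^ 3) (w : WittRing (LS F K p r))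
    (hw : UnramW (XS F K p r) w)
    (he : w - (2 * (pf (uL F K p r ⟨_, cv_mem_SA F K p r⟩ (cv_ne F K)) *
        pf (uL F K p r ⟨_, tv_mem_SA F K p r⟩ (tv_ne K))) -
      pf (uL F K p r ⟨_, cv_mem_SA F K p r⟩ (cv_ne F K)) *
        pf (uL F K p r ⟨_, kc_mem_SA F K p r (r / p)⟩ (kc_ne F K (div_ne_zero hr hp))) +
      pf (uL F K p r ⟨_, tv_mem_SA F K p r⟩ (tv_ne K)) *
        pf (uL F K p r ⟨_, kc_mem_SA F K p r r⟩ (kc_ne F K hr))) ∈ fund (LS F K p r) ^ 3) :
    False := by
  have hid : ∀ a : k, RingHom.id K (kc F K a) = kc F K a := fun _ => rfl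
  refine core F K hp hr hi hpr (map (eK F K p r) w) ?_ ?_ ?_ ?_ ?_ ?_
  · intro π hm hi hπ
    have := res_zero F K p r w hw (RingHom.id K) hid π hi (good_id F K p r hi hm hπ)
    rwa [map_id'] at this
  · intro π hm hi hπ
    exact res_zero F K p r w hw (swapE (k := k) F K) (swapE_kc F K) π hi
      (good_swap F K p r hi hm hπ)
  · intro hi
    exact res_zero F K p r w hw _ (etaA_kc F K _ _) _ hi (good_A F K p r hp hi)
  · intro hi
    exact res_zero F K p r w hw _ (etaB_kc F K _ _) _ hi (good_B F K p r hi)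
  · intro hi
    exact res_zero F K p r w hw _ (etaC_kc F K _ _) _ hi (good_C F K p r hr hi)
  · set C := uL F K p r ⟨_, cv_mem_SA F K p r⟩ (cv_ne F K) with hC
    set D := uL F K p r ⟨_, tv_mem_SA F K p r⟩ (tv_ne K) with hD
    set A := uL F K p r ⟨_, kc_mem_SA F K p r (r / p)⟩ (kc_ne F K (div_ne_zero hr hp)) with hA
    set Q := uL F K p r ⟨_, kc_mem_SA F K p r r⟩ (kc_ne F K hr) with hQ
    have h3 : ∀ x y : WittRing (LS F K p r), x ∈ fund (LS F K p r) → y ∈ fund (LS F K p r) →
        2 * (x * y) ∈ fund (LS F K p r) ^ 3 := by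
      intro x y hx hy
      have := Ideal.mul_mem_mul (two_mem (F := LS F K p r)) (Ideal.mul_mem_mul hx hy)
      rwa [← pow_two, ← pow_succ'] at this
    have h4 : w - (pf C * pf A + pf D * pf Q) ∈ fund (LS F K p r) ^ 3 := by
      have e : w - (pf C * pf A + pf D * pf Q) =
          (w - (2 * (pf C * pf D) - pf C * pf A + pf D * pf Q)) + 2 * (pf C * pf D) -
            2 * (pf C * pf A) := by ring
      rw [e]
      exact sub_mem (add_mem he (h3 _ _ (pf_mem C) (pf_mem D))) (h3 _ _ (pf_mem C) (pf_mem A))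
    have h5 := map_fund_le (eK F K p r) 3 h4
    rw [_root_.map_sub, _root_.map_add, _root_.map_mul, _root_.map_mul, hC, hD, hA, hQ,
      map_eK_pf, map_eK_pf, map_eK_pf, map_eK_pf] at h5
    exact h5

/-- The element `α` does not lift to an unramified class. -/
theorem no_lift {i : k} (hi : i ^ 2 = -1) (hp : p ≠ 0) (hr : r ≠ 0)
    (hpr : (1 - cz p) * (1 - cz r) ∉ fund k ^ 3) (w : WittRing (LS F K p r))
    (hw : UnramW (XS F K p r) w) (he : IsPfisterLift (alphaS F K p r hp hr) w) : False := by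
  refine no_lift' F K p r hi hp hr hpr w hw ?_
  apply sub_of_mk_eq
  rw [← he.2 pfister pfister_is]
  set C := uL F K p r ⟨_, cv_mem_SA F K p r⟩ (cv_ne F K) with hC
  set D := uL F K p r ⟨_, tv_mem_SA F K p r⟩ (tv_ne K) with hD
  set A := uL F K p r ⟨_, kc_mem_SA F K p r (r / p)⟩ (kc_ne F K (div_ne_zero hr hp)) with hA
  set Q := uL F K p r ⟨_, kc_mem_SA F K p r r⟩ (kc_ne F K hr) with hQ
  change pfister ((2 : ℤ) • sym C D - sym C A + sym D Q) = _
  rw [_root_.map_add, _root_.map_sub, map_zsmul, two_zsmul, pfister_is, pfister_is, pfister_is,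
    ← QuotientAddGroup.mk_add, ← QuotientAddGroup.mk_sub, ← QuotientAddGroup.mk_add, two_mul]

end Main

end Pool.Agent.TH132.W
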