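import Pool.Agent.TH132.W.Surf

/-!
# The surface is smooth over the base field
-/

noncomputable section

set_option linter.unusedSectionVars false

namespace Pool.Agent.TH132.W

open Polynomial

universe u v

section Gen

variable {k A B K : Type u} [CommRing k] [CommRing A] [CommRing B] [Field K]

theorem smooth_of_bijective {R S : Type u} [CommRing R] [CommRing S] {f : R →+* S}
    (h : Function.Bijective f) : f.Smooth :=
  RingHom.Smooth.holdsForLocalizationAway.of_bijective f _ h

/-- Smoothness of a localization of `A ⊆ K` from a smooth algebra mapping isomorphically onto the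
localization. -/
theorem chart (ι : A →+* K) (hι : Function.Injective ι) (f : k →+* A) (j : k →+* B)
    (hj : j.Smooth) (φ : B →+* K) (hφ : Function.Injective φ) (hφj : ∀ a, φ (j a) = ι (f a))
    (r : A) (h1 : ∀ a : A, ∃ b : B, φ b = ι a) (h2 : ∃ b : B, φ b * ι r = 1)
    (h3 : ∀ b : B, ∃ (n : ℕ) (a : A), φ b * ι r ^ n = ι a) :
    ((algebraMap A (Localization.Away r)).comp f).Smooth := by
  choose g hg using h1
  let G : A →+* B :=
    { toFun := g
      map_one' := hφ (by rw [hg, map_one, map_one])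
      map_zero' := hφ (by rw [hg, map_zero, map_zero])
      map_add' := fun x y => hφ (by rw [hg, map_add, map_add, hg, hg])
      map_mul' := fun x y => hφ (by rw [hg, map_mul, map_mul, hg, hg]) }
  have hG : ∀ a, φ (G a) = ι a := hg
  let _ : Algebra A B := G.toAlgebra
  have hGa : ∀ a, algebraMap A B a = G a := fun _ => rfl
  have hloc : IsLocalization.Away r B := by
    refine ⟨?_, ?_, ?_⟩
    · rintro ⟨_, n, rfl⟩
      obtain ⟨b, hb⟩ := h2
      have h4 : G r * b = 1 := hφ (by rw [map_mul, hG, mul_comm, hb, map_one])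
      change IsUnit (G (r ^ n))
      rw [map_pow]
      exact (IsUnit.of_mul_eq_one _ h4).pow n
    · intro b
      obtain ⟨n, a, h⟩ := h3 b
      refine ⟨(a, ⟨r ^ n, n, rfl⟩), hφ ?_⟩
      change φ (b * G (r ^ n)) = φ (G a)
      rw [map_mul, hG, hG, map_pow, h]
    · intro x y h
      have : ι x = ι y := by rw [← hG, ← hG, ← hGa, ← hGa, h]
      exact ⟨1, by rw [hι this]⟩
  let e : Localization.Away r ≃ₐ[A] B := IsLocalization.algEquiv (Submonoid.powers r) _ _
  have h4 : (algebraMap A (Localization.Away r)).comp f =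
      ((e.symm : B ≃+* Localization.Away r) : B →+* Localization.Away r).comp j := by
    ext a
    have h5 : j a = G (f a) := hφ (by rw [hφj, hG])
    simp only [RingHom.comp_apply]
    rw [h5, ← hGa]
    exact (e.symm.commutes (f a)).symm
  rw [h4]
  exact hj.comp (smooth_of_bijective (e.symm : B ≃+* Localization.Away r).bijective)

end Gen

section StdB

variable {k : Type u} (F K : Type u) [Field k] [Field F] [Field K] [Algebra k[X] F]
  [IsFractionRing k[X] F] [Algebra F[X] K] [IsFractionRing F[X] K]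

/-- The polynomial `a + t s`. -/
def wpol (a : k) : k[X][X] := C (C a) + C X * X

/-- The algebra `k[t, s][z, 1/z] / (z² - a - t s)`. -/
def spair (h2 : (2 : k) ≠ 0) (a : k) : StandardEtalePair k[X][X] where
  f := X ^ 2 - C (wpol a)
  monic_f := monic_X_pow_sub_C _ two_ne_zero
  g := X
  cond := by
    refine ⟨C (C (C (2⁻¹))), 0, 1, ?_⟩
    have h3 : (C (C (C 2)) : k[X][X][X]) = 2 := by rw [map_ofNat, map_ofNat, map_ofNat]
    have h4 : (C (C (C 2)) : k[X][X][X]) * C (C (C (2⁻¹))) = 1 := by
      rw [← C_mul, ← C_mul, ← C_mul, mul_inv_cancel₀ h2, C_1, C_1, C_1]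
    rw [h3] at h4
    rw [derivative_sub, derivative_C, derivative_X_sq, sub_zero, mul_zero, add_zero, pow_one,
      map_ofNat]
    linear_combination X * h4

/-- The homomorphism `t ↦ c`, `s ↦ (d² - a) / c`. -/
def psi (a : k) : k[X][X] →+* K :=
  eval₂RingHom (eval₂RingHom (kc (k := k) F K) (cv (k := k) F K))
    ((tv (F := F) K ^ 2 - kc F K a) / cv (k := k) F K)

theorem psi_CC (a b : k) : psi F K a (C (C b)) = kc F K b := by simp [psi]

theorem psi_CX (a : k) : psi F K a (C X) = cv (k := k) F K := by simp [psi]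

theorem psi_X (a : k) : psi F K a X = (tv (F := F) K ^ 2 - kc F K a) / cv (k := k) F K := by
  simp [psi]

theorem psi_w (a : k) : psi F K a (wpol a) = tv (F := F) K ^ 2 := by
  unfold wpol
  rw [map_add, map_mul, psi_CC, psi_CX, psi_X]
  have := cv_ne (k := k) F K
  field_simp
  ring

/-- The polynomial `(X² - a) / t`. -/
def qpol (a : k) : F[X] := C (tv (F := k) F)⁻¹ * (X ^ 2 - C (cK F a))

theorem psi_eq (a : k) (u : k[X][X]) :
    psi F K a u = algebraMap F[X] K ((u.map (algebraMap k[X] F)).comp (qpol F a)) := by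
  have : psi F K a = (algebraMap F[X] K).comp ((compRingHom (qpol F a)).comp
      (mapRingHom (algebraMap k[X] F))) := by
    apply Polynomial.ringHom_ext'
    · apply Polynomial.ringHom_ext'
      · ext b
        simp only [RingHom.comp_apply, psi_CC]
        simp only [coe_mapRingHom, map_C, coe_compRingHom, C_comp]
        rfl
      · simp only [RingHom.comp_apply, psi_CX]
        simp only [coe_mapRingHom, map_C, coe_compRingHom, C_comp]
        rfl
    · rw [psi_X]
      simp only [RingHom.comp_apply, coe_mapRingHom, map_X, coe_compRingHom, X_comp]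
      unfold qpol
      rw [map_mul, map_sub, map_pow, div_eq_inv_mul]
      congr 1
      change (cK K (tv (F := k) F))⁻¹ = cK K (tv (F := k) F)⁻¹
      rw [map_inv₀]
  rw [this]; rfl

theorem psi_injective (a : k) : Function.Injective (psi F K a) := by
  rw [injective_iff_map_eq_zero]
  intro u hu
  rw [psi_eq] at hu
  have h1 : (u.map (algebraMap k[X] F)).comp (qpol F a) = 0 :=
    (map_eq_zero_iff _ (IsFractionRing.injective F[X] K)).1 hu
  rw [comp_eq_zero_iff] at h1
  rcases h1 with h1 | ⟨-, h1⟩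
  · exact (map_eq_zero_iff (mapRingHom (algebraMap k[X] F))
      (map_injective _ (IsFractionRing.injective k[X] F))).1 h1
  · exfalso
    have h2 := congrArg natDegree h1
    rw [natDegree_C, qpol, natDegree_C_mul (inv_ne_zero (tv_ne F)), natDegree_X_pow_sub_C] at h2
    omega

/-- The sign change of the second variable. -/
def tau : K →+* K := mulE K (neg_ne_zero.2 one_ne_zero : (-1 : F) ≠ 0)

theorem tau_tv : tau F K (tv (F := F) K) = - tv (F := F) K := by
  unfold tau; rw [mulE_tv, map_neg, map_one, neg_one_mul]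

theorem tau_cK (a : F) : tau F K (cK K a) = cK K a := mulE_cK K _ a

theorem tau_psi (a : k) (u : k[X][X]) : tau F K (psi F K a u) = psi F K a u := by
  have : (tau F K).comp (psi F K a) = psi F K a := by
    apply Polynomial.ringHom_ext'
    · apply Polynomial.ringHom_ext'
      · ext b
        simp only [RingHom.comp_apply, psi_CC]
        exact tau_cK F K _
      · simp only [RingHom.comp_apply, psi_CX]
        exact tau_cK F K _
    · simp only [RingHom.comp_apply, psi_X]
      rw [map_div₀, map_sub, map_pow, tau_tv, neg_sq]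
      congr 1
      · congr 1
        exact tau_cK F K _
      · exact tau_cK F K _
  exact congrArg (fun f => f u) this

theorem two_ne_of {E E' : Type*} [Field E] [Field E'] (φ : E →+* E') (h2 : (2 : E) ≠ 0) :
    (2 : E') ≠ 0 := by
  have := (map_ne_zero_iff φ φ.injective).2 h2
  rwa [map_ofNat] at this

theorem lin_indep (h2 : (2 : k) ≠ 0) (a : k) (u v : k[X][X])
    (h : psi F K a u + psi F K a v * tv (F := F) K = 0) : u = 0 ∧ v = 0 := by
  have h3 := congrArg (tau F K) h
  rw [map_add, map_mul, tau_psi, tau_psi, tau_tv, map_zero] at h3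
  have h20 := two_ne_of (kc (k := k) F K) h2
  have e1 : psi F K a u = 0 := by
    apply mul_left_cancel₀ h20
    linear_combination h + h3
  have e2 : psi F K a v = 0 := by
    apply mul_left_cancel₀ (mul_ne_zero h20 (tv_ne (F := F) K))
    linear_combination h - h3
  exact ⟨(map_eq_zero_iff _ (psi_injective F K a)).1 e1,
    (map_eq_zero_iff _ (psi_injective F K a)).1 e2⟩

/-- The algebra of a chart. -/
abbrev BR (h2 : (2 : k) ≠ 0) (a : k) : Type u := (spair h2 a).Ring

/-- The coordinate `z`. -/
abbrev zB (h2 : (2 : k) ≠ 0) (a : k) : BR h2 a := (spair h2 a).X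

theorem zB_isUnit (h2 : (2 : k) ≠ 0) (a : k) : IsUnit (zB h2 a) := by
  have h := (spair h2 a).hasMap_X.2
  change IsUnit (aeval (zB h2 a) (X : k[X][X][X])) at h
  rwa [aeval_X] at h

theorem zB_form (h2 : (2 : k) ≠ 0) (a : k) (b : BR h2 a) : ∃ (n : ℕ) (u v : k[X][X]),
    b * zB h2 a ^ n = algebraMap _ _ u + algebraMap _ _ v * zB h2 a := by
  let P := spair h2 a
  let e := P.equivAwayAdjoinRoot
  have heX : e P.X = algebraMap (AdjoinRoot P.f) _ (AdjoinRoot.root P.f) := by
    simp only [e, StandardEtalePair.equivAwayAdjoinRoot, AlgEquiv.ofAlgHom_apply]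
    exact P.lift_X _ _
  obtain ⟨⟨x, ⟨_, n, rfl⟩⟩, hx⟩ := IsLocalization.surj
    (Submonoid.powers (AdjoinRoot.mk P.f P.g)) (e b)
  obtain ⟨q, rfl⟩ := AdjoinRoot.mk_surjective x
  have hdeg : (q %ₘ P.f).natDegree ≤ 1 := by
    have h1 : (q %ₘ P.f).natDegree < P.f.natDegree := by
      apply natDegree_modByMonic_lt _ P.monic_f
      intro h
      have h4 : P.f.natDegree = 2 := natDegree_X_pow_sub_C
      rw [h, natDegree_one] at h4
      omega
    have h4 : P.f.natDegree = 2 := natDegree_X_pow_sub_C
    omega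
  obtain ⟨v, u, huv⟩ := exists_eq_X_add_C_of_natDegree_le_one hdeg
  refine ⟨n, u, v, ?_⟩
  apply e.injective
  have h5 : AdjoinRoot.mk P.f q = AdjoinRoot.of P.f u + AdjoinRoot.of P.f v * AdjoinRoot.root P.f := by
    have h6 := modByMonic_add_div q P.f
    have h7 : AdjoinRoot.mk P.f q = AdjoinRoot.mk P.f (q %ₘ P.f) := by
      conv_lhs => rw [← h6]
      rw [map_add, map_mul, AdjoinRoot.mk_self, zero_mul, add_zero]
    rw [h7, huv, map_add, map_mul, AdjoinRoot.mk_C, AdjoinRoot.mk_C, AdjoinRoot.mk_X]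
    ring
  have h8 : AdjoinRoot.mk P.f P.g = AdjoinRoot.root P.f := AdjoinRoot.mk_X
  simp only at hx
  rw [map_mul, map_pow, map_add, map_mul, AlgEquiv.commutes, AlgEquiv.commutes]
  change e b * e P.X ^ n = _ + _ * e P.X
  rw [heX, ← map_pow]
  have hx' : e b * algebraMap (AdjoinRoot P.f) (Localization.Away (AdjoinRoot.mk P.f P.g))
      (AdjoinRoot.root P.f ^ n) = algebraMap (AdjoinRoot P.f) _ (AdjoinRoot.mk P.f q) := by
    rw [← hx, ← h8]
  rw [hx', h5, map_add, map_mul]
  rfl

theorem psi_hasMap (h2 : (2 : k) ≠ 0) (a : k) :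
    letI := (psi F K a).toAlgebra
    (spair h2 a).HasMap (tv (F := F) K) := by
  let _ := (psi F K a).toAlgebra
  constructor
  · change eval₂ (psi F K a) (tv (F := F) K) (X ^ 2 - C (wpol a)) = 0
    rw [eval₂_sub, eval₂_pow, eval₂_X, eval₂_C, psi_w, sub_self]
  · change IsUnit (eval₂ (psi F K a) (tv (F := F) K) X)
    rw [eval₂_X]
    exact isUnit_iff_ne_zero.2 (tv_ne K)

/-- The embedding of the chart. -/
def phiB (h2 : (2 : k) ≠ 0) (a : k) : BR h2 a →+* K :=
  letI := (psi F K a).toAlgebra
  ((spair h2 a).lift (tv (F := F) K) (psi_hasMap F K h2 a) : BR h2 a →ₐ[k[X][X]] K).toRingHom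

theorem phiB_z (h2 : (2 : k) ≠ 0) (a : k) : phiB F K h2 a (zB h2 a) = tv (F := F) K := by
  let _ := (psi F K a).toAlgebra
  exact StandardEtalePair.lift_X _ _ _

theorem phiB_alg (h2 : (2 : k) ≠ 0) (a : k) (u : k[X][X]) :
    phiB F K h2 a (algebraMap _ _ u) = psi F K a u := by
  let _ := (psi F K a).toAlgebra
  exact AlgHom.commutes _ _

theorem phiB_injective (h2 : (2 : k) ≠ 0) (a : k) : Function.Injective (phiB F K h2 a) := by
  rw [injective_iff_map_eq_zero]
  intro b hb
  obtain ⟨n, u, v, h⟩ := zB_form h2 a b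
  have h1 := congrArg (phiB F K h2 a) h
  rw [map_mul, hb, zero_mul, map_add, map_mul, phiB_alg, phiB_alg, phiB_z] at h1
  obtain ⟨rfl, rfl⟩ := lin_indep F K h2 a u v h1.symm
  rw [map_zero, zero_mul, add_zero] at h
  exact (((zB_isUnit h2 a).pow n).mul_left_eq_zero).1 h

/-- The structure map of the chart. -/
def jB (h2 : (2 : k) ≠ 0) (a : k) : k →+* BR h2 a :=
  (algebraMap k[X][X] (BR h2 a)).comp ((C : k[X] →+* k[X][X]).comp C)

theorem jB_smooth (h2 : (2 : k) ≠ 0) (a : k) : (jB h2 a).Smooth := by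
  have h3 : ∀ (R : Type u) [CommRing R], (C : R →+* R[X]).Smooth := by
    intro R _
    have : Algebra.Smooth R R[X] := {}
    exact RingHom.smooth_algebraMap.2 this
  have h4 : (algebraMap k[X][X] (BR h2 a)).Smooth := RingHom.smooth_algebraMap.2 inferInstance
  exact ((h3 k).comp (h3 k[X])).comp h4

theorem phiB_jB (h2 : (2 : k) ≠ 0) (a b : k) : phiB F K h2 a (jB h2 a b) = kc F K b := by
  unfold jB
  rw [RingHom.comp_apply, phiB_alg]
  exact psi_CC F K a b

/-- The image of the chart is contained in every subring which contains the generators. -/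
theorem phiB_mem (h2 : (2 : k) ≠ 0) (a : k) (ρ : K →+* K) (S : Subring K)
    (h1 : ∀ b : k, ρ (kc F K b) ∈ S) (hc : ρ (cv (k := k) F K) ∈ S)
    (hs : ρ ((tv (F := F) K ^ 2 - kc F K a) / cv (k := k) F K) ∈ S)
    (hd : ρ (tv (F := F) K) ∈ S) (hd' : (ρ (tv (F := F) K))⁻¹ ∈ S) (b : BR h2 a) :
    ρ (phiB F K h2 a b) ∈ S := by
  have hpsi : ∀ u : k[X][X], ρ (psi F K a u) ∈ S := by
    have h3 : ∀ u : k[X], ρ (psi F K a (C u)) ∈ S := by
      intro u
      induction u using Polynomial.induction_on' with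
      | add p q hp hq => rw [C_add, map_add, map_add]; exact add_mem hp hq
      | monomial n b =>
        rw [← C_mul_X_pow_eq_monomial, C_mul, map_mul, C_pow, map_pow, psi_CC, psi_CX, map_mul,
          map_pow]
        exact mul_mem (h1 b) (pow_mem hc n)
    intro u
    induction u using Polynomial.induction_on' with
    | add p q hp hq => rw [map_add, map_add]; exact add_mem hp hq
    | monomial n b =>
      rw [← C_mul_X_pow_eq_monomial, map_mul, map_pow, psi_X, map_mul, map_pow]
      exact mul_mem (h3 b) (pow_mem hs n)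
  obtain ⟨n, u, v, h⟩ := zB_form h2 a b
  have h4 := congrArg (fun z => ρ (phiB F K h2 a z)) h
  simp only [map_mul, map_pow, map_add, phiB_alg, phiB_z] at h4
  have hne : ρ (tv (F := F) K) ≠ 0 := (map_ne_zero_iff _ (RingHom.injective _)).2 (tv_ne K)
  have h5 : ρ (phiB F K h2 a b) = (ρ (psi F K a u) + ρ (psi F K a v) * ρ (tv (F := F) K)) *
      ((ρ (tv (F := F) K))⁻¹) ^ n := by
    rw [← h4, mul_assoc, ← mul_pow, mul_inv_cancel₀ hne, one_pow, mul_one]
  rw [h5]
  exact mul_mem (add_mem (hpsi u) (mul_mem (hpsi v) hd)) (pow_mem hd' n)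

end StdB

end Pool.Agent.TH132.W
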