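import Pool.Agent.TH132.W.Smth

/-!
# The surface is smooth over the base field, assembly
-/

noncomputable section

set_option linter.unusedSectionVars false

namespace Pool.Agent.TH132.W

open Polynomial

universe u v

section LocS

variable {K : Type u} [Field K]

/-- The localization of a subring at the powers of an element. -/
def LocS (A : Subring K) (x : K) (hx : x ∈ A) : Subring K where
  carrier := {y | ∃ n : ℕ, y * x ^ n ∈ A}
  zero_mem' := ⟨0, by rw [zero_mul]; exact zero_mem A⟩
  one_mem' := ⟨0, by rw [pow_zero, one_mul]; exact one_mem A⟩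
  add_mem' := by
    rintro y z ⟨n, hn⟩ ⟨m, hm⟩
    refine ⟨n + m, ?_⟩
    have : (y + z) * x ^ (n + m) = (y * x ^ n) * x ^ m + (z * x ^ m) * x ^ n := by ring
    rw [this]
    exact add_mem (mul_mem hn (pow_mem hx m)) (mul_mem hm (pow_mem hx n))
  mul_mem' := by
    rintro y z ⟨n, hn⟩ ⟨m, hm⟩
    refine ⟨n + m, ?_⟩
    have : (y * z) * x ^ (n + m) = (y * x ^ n) * (z * x ^ m) := by ring
    rw [this]
    exact mul_mem hn hm
  neg_mem' := by
    rintro y ⟨n, hn⟩
    exact ⟨n, by rw [neg_mul]; exact neg_mem hn⟩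

theorem le_LocS {A : Subring K} {x : K} {hx : x ∈ A} {y : K} (hy : y ∈ A) : y ∈ LocS A x hx :=
  ⟨0, by rw [pow_zero, mul_one]; exact hy⟩

end LocS

section Sm

variable {k : Type u} (F K : Type u) [Field k] [Field F] [Field K] [Algebra k[X] F]
  [IsFractionRing k[X] F] [Algebra F[X] K] [IsFractionRing F[X] K] (p r : k)

/-- The structure map of the surface. -/
def strA : k →+* SA F K p r := (kc (k := k) F K).codRestrict (SA F K p r) (kc_mem_SA F K p r)

/-- The elements of a subring containing all generators. -/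
theorem SA_le' {S : Subring K} (hk : ∀ a : k, kc F K a ∈ S)
    (h1 : cv (k := k) F K ∈ S) (h2 : tv (F := F) K ∈ S) (h3 : gg1 F K p r ∈ S)
    (h4 : gg2 F K p r ∈ S) (h5 : ff3 F K p r ∈ S) : SA F K p r ≤ S := fun a ha =>
  SA_le F K p r (RingHom.id K) hk h1 h2 h3 h4 h5 a ha

theorem chart_of (h2 : (2 : k) ≠ 0) (a : k) (ρ : K →+* K)
    (hρ : ∀ b : k, ρ (kc F K b) = kc F K b) (β : BR h2 a) (x : K) (hx : x ∈ SA F K p r)
    (hβ : ρ (phiB F K h2 a β) ≠ 0)
    (T : Subring K) (hT : T = (ρ.comp (phiB F K h2 a)).range)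
    (hA : ∀ S : Subring K, T ≤ S → (ρ (phiB F K h2 a β))⁻¹ ∈ S → SA F K p r ≤ S)
    (hB : ∀ S : Subring K, T ≤ S → (ρ (phiB F K h2 a β))⁻¹ ∈ S → x⁻¹ ∈ S)
    (hx0 : x ≠ 0)
    (hc : ρ (cv (k := k) F K) ∈ LocS (SA F K p r) x hx)
    (hs : ρ ((tv (F := F) K ^ 2 - kc F K a) / cv (k := k) F K) ∈ LocS (SA F K p r) x hx)
    (hd : ρ (tv (F := F) K) ∈ LocS (SA F K p r) x hx)
    (hd' : (ρ (tv (F := F) K))⁻¹ ∈ LocS (SA F K p r) x hx)
    (hb' : (ρ (phiB F K h2 a β))⁻¹ ∈ LocS (SA F K p r) x hx) :
    ((algebraMap (SA F K p r) (Localization.Away (⟨x, hx⟩ : SA F K p r))).comp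
      (strA F K p r)).Smooth := by
  let φ : BR h2 a →+* K := ρ.comp (phiB F K h2 a)
  have hφ : Function.Injective φ := ρ.injective.comp (phiB_injective F K h2 a)
  have hβ' : φ β ≠ 0 := hβ
  have hu : IsUnit (φ β) := isUnit_iff_ne_zero.2 hβ
  let φ' : Localization.Away β →+* K := IsLocalization.Away.lift β hu
  have hφ'1 : ∀ b : BR h2 a, φ' (algebraMap _ _ b) = φ b := fun b =>
    IsLocalization.Away.lift_eq β hu b
  have hform : ∀ b : Localization.Away β, ∃ (b' : BR h2 a) (n : ℕ),
      φ' b = φ b' * ((φ β)⁻¹) ^ n ∧ b * algebraMap _ _ β ^ n = algebraMap _ _ b' := by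
    intro b
    obtain ⟨⟨b', ⟨_, n, rfl⟩⟩, h⟩ := IsLocalization.surj (Submonoid.powers β) b
    simp only at h
    refine ⟨b', n, ?_, by rw [← map_pow]; exact h⟩
    have h1 := congrArg φ' h
    rw [map_mul, hφ'1, hφ'1, map_pow] at h1
    rw [← h1, mul_assoc, ← mul_pow, mul_inv_cancel₀ hβ', one_pow, mul_one]
  have hφ' : Function.Injective φ' := by
    rw [injective_iff_map_eq_zero]
    intro b hb
    obtain ⟨b', n, h1, h3⟩ := hform b
    rw [hb] at h1
    have h4 : φ b' = 0 := by
      rcases mul_eq_zero.1 h1.symm with h | h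
      · exact h
      · exact absurd h (pow_ne_zero _ (inv_ne_zero hβ))
    have h5 : b' = 0 := (map_eq_zero_iff φ hφ).1 h4
    rw [h5, map_zero] at h3
    have h6 : IsUnit (algebraMap (BR h2 a) (Localization.Away β) β ^ n) :=
      (IsLocalization.Away.algebraMap_isUnit β).pow n
    exact (h6.mul_left_eq_zero).1 h3
  have hTle : T ≤ φ'.range := by
    rw [hT]
    rintro _ ⟨b, rfl⟩
    exact ⟨algebraMap _ _ b, hφ'1 b⟩
  have hinv : (ρ (phiB F K h2 a β))⁻¹ ∈ φ'.range := by
    obtain ⟨b, hb⟩ := isUnit_iff_exists_inv.1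
      (IsLocalization.Away.algebraMap_isUnit (S := Localization.Away β) β)
    refine ⟨b, ?_⟩
    have h1 := congrArg φ' hb
    rw [map_mul, hφ'1, map_one] at h1
    exact (eq_inv_of_mul_eq_one_right h1)
  refine chart (SA F K p r).subtype Subtype.val_injective (strA F K p r)
    ((algebraMap (BR h2 a) (Localization.Away β)).comp (jB h2 a)) ?_ φ' hφ' ?_ ⟨x, hx⟩ ?_ ?_ ?_
  · exact (jB_smooth h2 a).comp (RingHom.Smooth.holdsForLocalizationAway _ β)
  · intro b
    rw [RingHom.comp_apply, hφ'1]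
    change ρ (phiB F K h2 a (jB h2 a b)) = kc F K b
    rw [phiB_jB, hρ]
  · rintro ⟨a, ha⟩
    obtain ⟨b, hb⟩ := hA _ hTle hinv ha
    exact ⟨b, hb⟩
  · obtain ⟨b, hb⟩ := hB _ hTle hinv
    refine ⟨b, ?_⟩
    rw [hb]
    exact inv_mul_cancel₀ hx0
  · intro b
    obtain ⟨b', n, h1, -⟩ := hform b
    have h3 : φ b' ∈ LocS (SA F K p r) x hx := phiB_mem F K h2 a ρ _
      (fun b => by rw [hρ]; exact le_LocS (kc_mem_SA F K p r b)) hc hs hd hd' b'
    have h4 : φ' b ∈ LocS (SA F K p r) x hx := by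
      rw [h1]; exact mul_mem h3 (pow_mem hb' n)
    obtain ⟨m, hm⟩ := h4
    exact ⟨m, ⟨_, hm⟩, rfl⟩

theorem hh_ne (hp : p ≠ 0) : hh F K p r ≠ 0 := by
  have h1 : hh F K p r = algebraMap F[X] K (C (cK F p) * X ^ 2 +
      C (tv (F := k) F ^ 2 - cK F r)) := by
    rw [map_add, map_mul, map_pow]
    have e1 : algebraMap F[X] K (C (tv (F := k) F ^ 2 - cK F r)) =
      cv (k := k) F K ^ 2 - kc F K r := by
      change cK K (tv (F := k) F ^ 2 - cK F r) = _
      rw [map_sub, map_pow]; rfl
    rw [e1]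
    unfold hh
    change _ = kc F K p * tv (F := F) K ^ 2 + _
    ring
  rw [h1]
  apply algebraMap_ne
  intro h
  have h2 := congrArg (fun f => coeff f 2) h
  simp only [coeff_add, coeff_C_mul, coeff_X_pow, coeff_C, coeff_zero] at h2
  have h3 : cK F p ≠ 0 := (map_ne_zero_iff _ (RingHom.injective _)).2 hp
  apply h3
  simpa using h2

theorem smooth_A (h2 : (2 : k) ≠ 0) (hp : p ≠ 0) (hr : r ≠ 0) : (strA F K p r).Smooth := by
  have hc0 := cv_ne (k := k) F K
  have hd0 := tv_ne (F := F) K
  have hp0 : kc F K p ≠ 0 := (map_ne_zero_iff _ (RingHom.injective _)).2 hp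
  have hr0 : kc F K r ≠ 0 := (map_ne_zero_iff _ (RingHom.injective _)).2 hr
  have hh0 := hh_ne F K p r hp
  have hcA := cv_mem_SA F K p r
  have hdA := tv_mem_SA F K p r
  have hhA := hh_mem_SA F K p r
  -- membership in the image of a chart
  have hmem : ∀ (a : k) (ρ : K →+* K) (hρ : ∀ b : k, ρ (kc F K b) = kc F K b) (S : Subring K),
      (ρ.comp (phiB F K h2 a)).range ≤ S →
      (∀ b : k, kc F K b ∈ S) ∧ ρ (cv (k := k) F K) ∈ S ∧
      ρ ((tv (F := F) K ^ 2 - kc F K a) / cv (k := k) F K) ∈ S ∧ ρ (tv (F := F) K) ∈ S ∧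
      (ρ (tv (F := F) K))⁻¹ ∈ S := by
    intro a ρ hρ S hS
    refine ⟨fun b => hS ⟨jB h2 a b, ?_⟩, hS ⟨algebraMap k[X][X] _ (C X), ?_⟩,
      hS ⟨algebraMap k[X][X] _ X, ?_⟩, hS ⟨zB h2 a, ?_⟩, ?_⟩
    · rw [RingHom.comp_apply, phiB_jB, hρ]
    · rw [RingHom.comp_apply, phiB_alg, psi_CX]
    · rw [RingHom.comp_apply, phiB_alg, psi_X]
    · rw [RingHom.comp_apply, phiB_z]
    · obtain ⟨z', hz'⟩ := isUnit_iff_exists_inv.1 (zB_isUnit h2 a)
      refine hS ⟨z', ?_⟩
      have h1 := congrArg (ρ.comp (phiB F K h2 a)) hz'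
      rw [map_mul, map_one, RingHom.comp_apply, phiB_z] at h1
      exact eq_inv_of_mul_eq_one_right h1
  refine RingHom.Smooth.ofLocalizationSpanTarget (strA F K p r)
    {(⟨_, hcA⟩ : SA F K p r), ⟨_, hdA⟩, ⟨_, hhA⟩} ?_ ?_
  · rw [Ideal.eq_top_iff_one]
    have hc' : (⟨_, hcA⟩ : SA F K p r) ∈
      Ideal.span {(⟨_, hcA⟩ : SA F K p r), ⟨_, hdA⟩, ⟨_, hhA⟩} := Ideal.subset_span (by simp)
    have hd' : (⟨_, hdA⟩ : SA F K p r) ∈
      Ideal.span {(⟨_, hcA⟩ : SA F K p r), ⟨_, hdA⟩, ⟨_, hhA⟩} := Ideal.subset_span (by simp)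
    have hh' : (⟨_, hhA⟩ : SA F K p r) ∈
      Ideal.span {(⟨_, hcA⟩ : SA F K p r), ⟨_, hdA⟩, ⟨_, hhA⟩} := Ideal.subset_span (by simp)
    have e : (1 : SA F K p r) = ⟨_, kc_mem_SA F K p r r⁻¹⟩ *
        (⟨_, hcA⟩ * ⟨_, hcA⟩ + ⟨_, kc_mem_SA F K p r p⟩ * ⟨_, hdA⟩ * ⟨_, hdA⟩ - ⟨_, hhA⟩) := by
      ext
      change (1 : K) = kc F K r⁻¹ * (cv (k := k) F K * cv (k := k) F K +
        kc F K p * tv (F := F) K * tv (F := F) K - hh F K p r)
      unfold hh
      rw [map_inv₀]
      field_simp
      ring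
    rw [e]
    exact Ideal.mul_mem_left _ _ (sub_mem (add_mem (Ideal.mul_mem_left _ _ hc')
      (Ideal.mul_mem_left _ _ hd')) hh')
  · rintro ⟨x, hx⟩
    simp only [Set.mem_insert_iff, Set.mem_singleton_iff] at hx
    rcases hx with rfl | rfl | rfl
    · -- the chart of `c`
      have e1 := swapE_cv (k := k) F K
      have e2 := swapE_tv (k := k) F K
      have e3 : swapE (k := k) F K ((tv (F := F) K ^ 2 - kc F K r) / cv (k := k) F K) =
          (cv (k := k) F K ^ 2 - kc F K r) / tv (F := F) K := by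
        rw [map_div₀, map_sub, map_pow, e1, e2, swapE_kc]
      refine chart_of F K p r h2 r (swapE (k := k) F K) (swapE_kc F K) 1 _ hcA ?_ _ rfl ?_ ?_ hc0
        ?_ ?_ ?_ ?_ ?_
      · rw [map_one, map_one]; exact one_ne_zero
      · intro S hS _
        obtain ⟨m1, m2, m3, m4, m5⟩ := hmem r (swapE (k := k) F K) (swapE_kc F K) S hS
        rw [e1] at m2
        rw [e3] at m3
        rw [e2] at m4 m5
        set s : K := (cv (k := k) F K ^ 2 - kc F K r) / tv (F := F) K with hs
        have hhs : hh F K p r = tv (F := F) K * (s + kc F K p * tv (F := F) K) := by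
          rw [hs]; unfold hh; field_simp; ring
        refine SA_le' F K p r m1 m4 m2 ?_ ?_ ?_
        · unfold gg1
          rw [div_eq_mul_inv, hhs]
          exact mul_mem (mul_mem m2 (mul_mem m2 (add_mem m3 (mul_mem (m1 p) m2)))) m5
        · have : gg2 F K p r = cv (k := k) F K * (s + kc F K p * tv (F := F) K) := by
            unfold gg2; rw [hhs]; field_simp
          rw [this]
          exact mul_mem m4 (add_mem m3 (mul_mem (m1 p) m2))
        · have : ff3 F K p r = (s + kc F K p * tv (F := F) K) ^ 2 *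
              (cv (k := k) F K ^ 2 - kc F K p * tv (F := F) K ^ 2) * (cv (k := k) F K)⁻¹ := by
            unfold ff3; rw [hhs]; field_simp
          rw [this]
          exact mul_mem (mul_mem (pow_mem (add_mem m3 (mul_mem (m1 p) m2)) 2)
            (sub_mem (pow_mem m4 2) (mul_mem (m1 p) (pow_mem m2 2)))) m5
      · intro S hS _
        obtain ⟨m1, m2, m3, m4, m5⟩ := hmem r (swapE (k := k) F K) (swapE_kc F K) S hS
        rwa [e2] at m5
      · rw [e1]; exact le_LocS hdA
      · rw [e3]
        refine ⟨1, ?_⟩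
        have : (cv (k := k) F K ^ 2 - kc F K r) / tv (F := F) K * cv (k := k) F K ^ 1 =
            gg2 F K p r - kc F K p * (cv (k := k) F K * tv (F := F) K) := by
          unfold gg2 hh; field_simp; ring
        rw [this]
        exact sub_mem (gg2_mem_SA F K p r) (mul_mem (kc_mem_SA F K p r p) (mul_mem hcA hdA))
      · rw [e2]; exact le_LocS hcA
      · rw [e2]
        exact ⟨1, by rw [pow_one, inv_mul_cancel₀ hc0]; exact one_mem _⟩
      · rw [map_one, map_one, inv_one]; exact one_mem _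
    · -- the chart of `d`
      have hρ : ∀ b : k, RingHom.id K (kc F K b) = kc F K b := fun _ => rfl
      refine chart_of F K p r h2 (r / p) (RingHom.id K) hρ 1 _ hdA ?_ _ rfl ?_ ?_ hd0
        ?_ ?_ ?_ ?_ ?_
      · rw [map_one, map_one]; exact one_ne_zero
      · intro S hS _
        obtain ⟨m1, m2, m3, m4, m5⟩ := hmem (r / p) (RingHom.id K) hρ S hS
        simp only [RingHom.id_apply] at m2 m3 m4 m5
        set s : K := (tv (F := F) K ^ 2 - kc F K (r / p)) / cv (k := k) F K with hs
        have hhs : hh F K p r = cv (k := k) F K * (cv (k := k) F K + kc F K p * s) := by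
          rw [hs, map_div₀]; unfold hh; field_simp; ring
        refine SA_le' F K p r m1 m2 m4 ?_ ?_ ?_
        · have : gg1 F K p r = tv (F := F) K * (cv (k := k) F K + kc F K p * s) := by
            unfold gg1; rw [hhs]; field_simp
          rw [this]
          exact mul_mem m4 (add_mem m2 (mul_mem (m1 p) m3))
        · unfold gg2
          rw [div_eq_mul_inv, hhs]
          exact mul_mem (mul_mem m2 (mul_mem m2 (add_mem m2 (mul_mem (m1 p) m3)))) m5
        · have : ff3 F K p r = cv (k := k) F K * (cv (k := k) F K + kc F K p * s) ^ 2 *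
              (cv (k := k) F K ^ 2 - kc F K p * tv (F := F) K ^ 2) *
              ((tv (F := F) K)⁻¹) ^ 2 := by
            unfold ff3; rw [hhs]; field_simp
          rw [this]
          exact mul_mem (mul_mem (mul_mem m2 (pow_mem (add_mem m2 (mul_mem (m1 p) m3)) 2))
            (sub_mem (pow_mem m2 2) (mul_mem (m1 p) (pow_mem m4 2)))) (pow_mem m5 2)
      · intro S hS _
        obtain ⟨m1, m2, m3, m4, m5⟩ := hmem (r / p) (RingHom.id K) hρ S hS
        exact m5
      · exact le_LocS hcA
      · refine ⟨1, ?_⟩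
        have : RingHom.id K ((tv (F := F) K ^ 2 - kc F K (r / p)) / cv (k := k) F K) *
            tv (F := F) K ^ 1 =
            kc F K p⁻¹ * (gg1 F K p r - cv (k := k) F K * tv (F := F) K) := by
          rw [RingHom.id_apply, map_div₀, map_inv₀]
          unfold gg1 hh; field_simp; ring
        rw [this]
        exact mul_mem (kc_mem_SA F K p r _) (sub_mem (gg1_mem_SA F K p r) (mul_mem hcA hdA))
      · exact le_LocS hdA
      · exact ⟨1, by rw [pow_one, RingHom.id_apply, inv_mul_cancel₀ hd0]; exact one_mem _⟩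
      · rw [map_one, map_one, inv_one]; exact one_mem _
    · -- the chart of `h`
      let ρ : K →+* K := (swapE (k := k) F K).comp (mulE K (inv_ne_zero (tv_ne (F := k) F)))
      have hρk : ∀ b : k, ρ (kc F K b) = kc F K b := by
        intro b
        change swapE (k := k) F K (mulE K _ (cK K (cK F b))) = _
        rw [mulE_cK]
        exact swapE_kc F K b
      have e1 : ρ (cv (k := k) F K) = tv (F := F) K := by
        change swapE (k := k) F K (mulE K _ (cK K (tv (F := k) F))) = _
        rw [mulE_cK]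
        exact swapE_cv F K
      have e2 : ρ (tv (F := F) K) = cv (k := k) F K / tv (F := F) K := by
        change swapE (k := k) F K (mulE K _ (tv (F := F) K)) = _
        rw [mulE_tv, map_mul, swapE_tv (k := k), map_inv₀, map_inv₀]
        have : swapE (k := k) F K (cK K (tv (F := k) F)) = tv (F := F) K := swapE_cv F K
        rw [this, div_eq_inv_mul]
      have e3 : ρ ((tv (F := F) K ^ 2 - kc F K p) / cv (k := k) F K) =
          ((cv (k := k) F K / tv (F := F) K) ^ 2 - kc F K p) / tv (F := F) K := by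
        rw [map_div₀, map_sub, map_pow, e1, e2, hρk]
      let β : BR h2 p := algebraMap k[X][X] _ (C X) ^ 2 * (zB h2 p ^ 2 + jB h2 p p) - jB h2 p r
      have e4 : ρ (phiB F K h2 p β) = hh F K p r := by
        simp only [β]
        rw [map_sub, map_mul, map_add, map_pow, map_pow, phiB_jB, phiB_jB, phiB_alg, psi_CX, phiB_z,
          map_sub, map_mul, map_add, map_pow, map_pow, hρk, hρk, e1, e2]
        unfold hh
        field_simp
      refine chart_of F K p r h2 p ρ hρk β _ hhA ?_ _ rfl ?_ ?_ hh0 ?_ ?_ ?_ ?_ ?_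
      · rw [e4]; exact hh0
      · intro S hS hinv
        rw [e4] at hinv
        obtain ⟨m1, m2, m3, m4, m5⟩ := hmem p ρ hρk S hS
        rw [e1] at m2
        rw [e3] at m3
        rw [e2] at m4 m5
        have mc : cv (k := k) F K ∈ S := by
          have := mul_mem m4 m2
          rwa [div_mul_cancel₀ _ hd0] at this
        have mh : hh F K p r ∈ S := by
          unfold hh
          exact sub_mem (add_mem (pow_mem mc 2) (mul_mem (m1 p) (pow_mem m2 2))) (m1 r)
        refine SA_le' F K p r m1 mc m2 ?_ ?_ ?_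
        · have : gg1 F K p r = hh F K p r * (cv (k := k) F K / tv (F := F) K)⁻¹ := by
            unfold gg1; field_simp
          rw [this]; exact mul_mem mh m5
        · have : gg2 F K p r = hh F K p r * (cv (k := k) F K / tv (F := F) K) := by
            unfold gg2; field_simp
          rw [this]; exact mul_mem mh m4
        · have : ff3 F K p r = hh F K p r ^ 2 *
              (((cv (k := k) F K / tv (F := F) K) ^ 2 - kc F K p) / tv (F := F) K) *
              (cv (k := k) F K / tv (F := F) K)⁻¹ := by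
            unfold ff3; field_simp
          rw [this]; exact mul_mem (mul_mem (pow_mem mh 2) m3) m5
      · intro S hS hinv
        rwa [e4] at hinv
      · rw [e1]; exact le_LocS hdA
      · rw [e3]
        refine ⟨3, ?_⟩
        have : ((cv (k := k) F K / tv (F := F) K) ^ 2 - kc F K p) / tv (F := F) K *
            hh F K p r ^ 3 = ff3 F K p r * gg2 F K p r := by
          unfold ff3 gg2; field_simp
        rw [this]
        exact mul_mem (ff3_mem_SA F K p r) (gg2_mem_SA F K p r)
      · rw [e2]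
        refine ⟨1, ?_⟩
        have : cv (k := k) F K / tv (F := F) K * hh F K p r ^ 1 = gg2 F K p r := by
          unfold gg2; field_simp
        rw [this]; exact gg2_mem_SA F K p r
      · rw [e2]
        refine ⟨1, ?_⟩
        have : (cv (k := k) F K / tv (F := F) K)⁻¹ * hh F K p r ^ 1 = gg1 F K p r := by
          unfold gg1; field_simp
        rw [this]; exact gg1_mem_SA F K p r
      · rw [e4]
        exact ⟨1, by rw [pow_one, inv_mul_cancel₀ hh0]; exact one_mem _⟩

end Sm

end Pool.Agent.TH132.W
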