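import Pool.Agent.TH132.W.Homs

/-!
# Specialization at the origin, and the filtration by powers of the fundamental ideal
-/

noncomputable section

set_option linter.unusedSectionVars false

namespace Pool.Agent.TH132.W

open Polynomial IsLocalRing

universe u v w

section S0

variable {F : Type u} (K : Type u) [Field F] [Field K] [Algebra F[X] K] [IsFractionRing F[X] K]

theorem rho_X_C (f : F[X]) :
    rho K X (irreducible_X (R := F)) f = rho K X (irreducible_X (R := F)) (C (f.coeff 0)) := by
  have h1 : rho K X (irreducible_X (R := F)) (f - C (f.coeff 0)) = 0 := by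
    rw [rho_eq_zero, X_dvd_iff]; simp
  rw [map_sub] at h1
  exact sub_eq_zero.1 h1

theorem e0_bij : Function.Bijective ((rho K X (irreducible_X (R := F))).comp C) := by
  refine ⟨RingHom.injective _, ?_⟩
  intro x
  obtain ⟨f, rfl⟩ := rho_surjective K X (irreducible_X (R := F)) x
  exact ⟨f.coeff 0, (rho_X_C K f).symm⟩

/-- The residue field at the origin. -/
def e0 : F ≃+* kap K X (irreducible_X (R := F)) := RingEquiv.ofBijective _ (e0_bij K)

theorem e0_symm_rho (f : F[X]) :
    (e0 K).symm (rho K X (irreducible_X (R := F)) f) = f.coeff 0 := by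
  rw [RingEquiv.symm_apply_eq, rho_X_C]; rfl

/-- The homomorphism `W(F(t)) → W(F)[ε]` at the origin. -/
def lam0 : WittRing K →+* Dbl (WittRing F) :=
  (Dbl.map (map ((e0 (F := F) K).symm : _ →+* F))).comp (lamP K X (irreducible_X (R := F)))

theorem lam0_pc {f : F[X]} (h : f.coeff 0 ≠ 0) : lam0 (F := F) K (pc K f) = cst (cz (f.coeff 0)) := by
  have h1 : rho K X (irreducible_X (R := F)) f ≠ 0 := by
    rw [Ne, rho_eq_zero, X_dvd_iff]; exact h
  unfold lam0
  rw [RingHom.comp_apply, lamP_pc K X _ h1]
  have h2 : map ((e0 (F := F) K).symm : _ →+* F) (cz (rho K X (irreducible_X (R := F)) f)) =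
      cz (f.coeff 0) := by
    rw [map_cz]; congr 1; exact e0_symm_rho K f
  ext <;> simp [h2]

theorem lam0_X : lam0 (F := F) K (pc K (X : F[X])) = ⟨0, 1⟩ := by
  unfold lam0
  rw [RingHom.comp_apply, lamP_pi]
  ext <;> simp

theorem lam0_C {a : F} (ha : a ≠ 0) : lam0 (F := F) K (pc K (C a)) = cst (cz a) := by
  have := lam0_pc K (f := C a) (by simpa using ha)
  rwa [coeff_C_zero] at this

theorem lam0_const (v : WittRing F) : lam0 (F := F) K (map (cK (F := F) K) v) = cst v := by
  have : (lam0 (F := F) K).comp (map (cK (F := F) K)) = cst := by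
    apply cz_ringHom_ext
    intro a ha
    rw [RingHom.comp_apply, map_cz]
    exact lam0_C K ha
  exact congrArg (fun f => f v) this

theorem map_cK_injective : Function.Injective (map (cK (F := F) K)) := by
  intro x y h
  have := congrArg (fun z => (lam0 (F := F) K z).re) h
  simpa [lam0_const] using this

/-- Induction principle: the Witt ring of `F(t)` is generated by the classes of `t` and of the
polynomials with nonzero constant coefficient. -/
theorem ratInd_ext {R : Type*} [CommRing R] {φ ψ : WittRing K →+* R}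
    (hX : φ (pc K (X : F[X])) = ψ (pc K (X : F[X])))
    (h : ∀ f : F[X], f.coeff 0 ≠ 0 → φ (pc K f) = ψ (pc K f)) : φ = ψ := by
  apply cz_ringHom_ext
  intro a ha
  obtain ⟨f, g, hg, rfl⟩ := IsFractionRing.div_surjective (A := F[X]) a
  have hg0 : g ≠ 0 := nonZeroDivisors.ne_zero hg
  have h1 : cz (algebraMap F[X] K f / algebraMap F[X] K g) = pc K (f * g) := by
    have hg1 := algebraMap_ne K hg0
    have : algebraMap F[X] K f / algebraMap F[X] K g =
        algebraMap F[X] K (f * g) * (algebraMap F[X] K g)⁻¹ ^ 2 := by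
      rw [map_mul]; field_simp
    rw [this, cz_mul_sq _ (inv_ne_zero hg1)]; rfl
  have hf0 : f ≠ 0 := by
    rintro rfl
    simp at ha
  rw [h1]
  have key : ∀ (n : ℕ) (f : F[X]), f.natDegree ≤ n → f ≠ 0 → φ (pc K f) = ψ (pc K f) := by
    intro n
    induction n with
    | zero =>
      intro f hn hf
      apply h
      rw [eq_C_of_natDegree_le_zero hn] at hf
      exact fun h => hf (by rw [h, C_0])
    | succ n ih =>
      intro f hn hf
      by_cases hc : f.coeff 0 = 0
      · obtain ⟨g, rfl⟩ := X_dvd_iff.2 hc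
        have hg : g ≠ 0 := by rintro rfl; simp at hf
        rw [pc_mul, map_mul, map_mul, hX, ih g _ hg]
        rw [natDegree_X_mul hg] at hn
        omega
      · exact h f hc
  exact key _ _ le_rfl (mul_ne_zero hf0 hg0)

end S0

section Filt

variable {F : Type u} {E : Type v} [Field F] [Field E]

theorem pf_mem (a : Fˣ) : pf a ∈ fund F := Ideal.subset_span ⟨a, rfl⟩

theorem one_sub_cz_mem {a : F} (ha : a ≠ 0) : 1 - cz a ∈ fund F := by
  have := pf_mem (Units.mk0 a ha)
  unfold pf at this
  rwa [← cz_of_ne ha] at this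

theorem two_mem : (2 : WittRing F) ∈ fund F := by
  have := one_sub_cz_mem (a := (-1 : F)) (neg_ne_zero.2 one_ne_zero)
  rwa [cz_neg, map_one, sub_neg_eq_add, one_add_one_eq_two] at this

theorem map_fund_le (φ : F →+* E) (n : ℕ) {x : WittRing F} (hx : x ∈ fund F ^ n) :
    map φ x ∈ fund E ^ n := by
  have h1 : (fund F).map (map φ) ≤ fund E := by
    rw [fund, Ideal.map_span, Ideal.span_le]
    rintro _ ⟨_, ⟨a, rfl⟩, rfl⟩
    rw [map_pf]
    exact pf_mem _
  have h2 := Ideal.mem_map_of_mem (map φ) hx
  rw [Ideal.map_pow] at h2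
  exact Ideal.pow_right_mono h1 n h2

/-- The ideal of the elements `x` of `A[ε]` with `x.im ∈ I ^ n` and
`x.re + x.im ∈ I ^ (n + 1)`. -/
def JI {A : Type u} [CommRing A] (I : Ideal A) (n : ℕ) : Ideal (Dbl A) where
  carrier := {x | x.im ∈ I ^ n ∧ x.re + x.im ∈ I ^ (n + 1)}
  zero_mem' := by
    constructor
    · simp
    · simp
  add_mem' := by
    rintro x y ⟨h1, h2⟩ ⟨h3, h4⟩
    refine ⟨by simpa using add_mem h1 h3, ?_⟩
    have := add_mem h2 h4
    simp only [QuadraticAlgebra.re_add, QuadraticAlgebra.im_add]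
    convert this using 1
    ring
  smul_mem' := by
    rintro c x ⟨h1, h2⟩
    have h3 : x.re + x.im ∈ I ^ n := Ideal.pow_le_pow_right (Nat.le_succ n) h2
    constructor
    · have e : (c • x).im = (c.re - c.im) * x.im + c.im * (x.re + x.im) := by
        simp only [smul_eq_mul, QuadraticAlgebra.im_mul]
        ring
      rw [e]
      exact add_mem (Ideal.mul_mem_left _ _ h1) (Ideal.mul_mem_left _ _ h3)
    · have e : (c • x).re + (c • x).im = (c.re + c.im) * (x.re + x.im) := by
        simp only [smul_eq_mul, QuadraticAlgebra.im_mul, QuadraticAlgebra.re_mul]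
        ring
      rw [e]
      exact Ideal.mul_mem_left _ _ h2

theorem JI_mul {A : Type u} [CommRing A] (I : Ideal A) (h2 : (2 : A) ∈ I) (n : ℕ) {x y : Dbl A}
    (hx : x ∈ JI I 0) (hy : y ∈ JI I n) : x * y ∈ JI I (n + 1) := by
  obtain ⟨-, hx2⟩ := hx
  obtain ⟨hy1, hy2⟩ := hy
  rw [zero_add, pow_one] at hx2
  constructor
  · have e : (x * y).im = (x.re + x.im) * y.im + x.im * (y.re + y.im) - x.im * (2 * y.im) := by
      simp only [QuadraticAlgebra.im_mul]
      ring
    rw [e]
    refine sub_mem (add_mem ?_ ?_) (Ideal.mul_mem_left _ _ ?_)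
    · rw [pow_succ']
      exact Ideal.mul_mem_mul hx2 hy1
    · exact Ideal.mul_mem_left _ _ hy2
    · rw [pow_succ']
      exact Ideal.mul_mem_mul h2 hy1
  · have e : (x * y).re + (x * y).im = (x.re + x.im) * (y.re + y.im) := by
      simp only [QuadraticAlgebra.im_mul, QuadraticAlgebra.re_mul]
      ring
    rw [e, pow_succ']
    exact Ideal.mul_mem_mul hx2 hy2

/-- A ring homomorphism which maps the fundamental ideal into `JI 0` maps `I ^ (n + 1)` into
`JI n`. -/
theorem filt_gen (I : Ideal (WittRing E)) (h2 : (2 : WittRing E) ∈ I)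
    (φ : WittRing F →+* Dbl (WittRing E)) (h : ∀ a : Fˣ, φ (pf a) ∈ JI I 0) (n : ℕ)
    {x : WittRing F} (hx : x ∈ fund F ^ (n + 1)) : φ x ∈ JI I n := by
  have h1 : fund F ≤ (JI I 0).comap φ := by
    rw [fund, Ideal.span_le]
    rintro _ ⟨a, rfl⟩
    exact h a
  induction n generalizing x with
  | zero =>
    rw [zero_add, pow_one] at hx
    exact h1 hx
  | succ n ih =>
    have h3 : fund F ^ (n + 1 + 1) ≤ (JI I (n + 1)).comap φ := by
      rw [pow_succ', Ideal.mul_le]
      intro r hr s hs
      rw [Ideal.mem_comap, map_mul]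
      exact JI_mul I h2 n (h1 hr) (ih hs)
    exact h3 hx

end Filt

section S0F

variable {F : Type u} (K : Type u) [Field F] [Field K] [Algebra F[X] K] [IsFractionRing F[X] K]

theorem lam0_pf (a : Kˣ) : lam0 (F := F) K (pf a) ∈ JI (fund F) 0 := by
  have key : ∃ (b : F) (n : ℤ), b ≠ 0 ∧ lam0 (F := F) K (cls a) = cst (cz b) * ez n := by
    unfold lam0
    rw [RingHom.comp_apply]
    refine ⟨(e0 K).symm (lc K (pol K X (irreducible_X (R := F))) (pol_irreducible K X _) a),
      ord K (pol K X (irreducible_X (R := F))) (pol_irreducible K X _) a, ?_, ?_⟩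
    · exact (map_ne_zero_iff _ (RingEquiv.injective _)).2 (Units.ne_zero _)
    · rw [lamP, lam_cls]
      have h1 : lamHom K (pol K X (irreducible_X (R := F))) (pol_irreducible K X _) a =
        cst (cls (lc K (pol K X (irreducible_X (R := F))) (pol_irreducible K X _) a)) *
          ez (ord K (pol K X (irreducible_X (R := F))) (pol_irreducible K X _) a) := rfl
      rw [h1, ← cz_unit]
      have h2 : map ((e0 (F := F) K).symm : _ →+* F)
          (cz ((lc K (pol K X (irreducible_X (R := F))) (pol_irreducible K X _) a : _ˣ) :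
            kap K X (irreducible_X (R := F)))) =
          cz ((e0 (F := F) K).symm ((lc K (pol K X (irreducible_X (R := F)))
            (pol_irreducible K X _) a : _ˣ) : kap K X (irreducible_X (R := F)))) := map_cz _ _
      rcases Int.even_or_odd (ord K (pol K X (irreducible_X (R := F)))
          (pol_irreducible K X _) a) with hn | hn
      · rw [ez_even hn, ez_even hn]
        ext <;> simp [h2]
      · rw [ez_odd hn, ez_odd hn]
        ext <;> simp [h2]
  obtain ⟨b, n, hb, e⟩ := key
  unfold pf
  rw [map_sub, map_one, e]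
  constructor
  · simp
  · rw [zero_add, pow_one]
    have h1 := one_sub_cz_mem hb
    rcases Int.even_or_odd n with hn | hn
    · rw [ez_even hn]
      simpa [QuadraticAlgebra.re_one, QuadraticAlgebra.im_one] using h1
    · rw [ez_odd hn]
      have : ((1 : Dbl (WittRing F)) - cst (cz b) * ⟨0, 1⟩).re +
        ((1 : Dbl (WittRing F)) - cst (cz b) * ⟨0, 1⟩).im = 1 - cz b := by
        simp [sub_eq_add_neg, QuadraticAlgebra.re_one, QuadraticAlgebra.im_one]
      rw [this]
      exact h1

theorem lam0_filt (n : ℕ) {x : WittRing K} (hx : x ∈ fund K ^ (n + 1)) :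
    (lam0 (F := F) K x).im ∈ fund F ^ n ∧
      (lam0 (F := F) K x).re + (lam0 (F := F) K x).im ∈ fund F ^ (n + 1) :=
  filt_gen (fund F) two_mem (lam0 (F := F) K) (lam0_pf K) n hx

end S0F

end Pool.Agent.TH132.W
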