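import Pool.Agent.TH132.W.Geom

/-!
# The affine surface
-/

noncomputable section

set_option linter.unusedSectionVars false

namespace Pool.Agent.TH132.W

open Polynomial IsLocalRing

universe u v

section Mem

variable {F : Type u} (K : Type u) [Field F] [Field K] [Algebra F[X] K] [IsFractionRing F[X] K]
  {π : F[X]} (hi : Irreducible π)

theorem cK_mem (a : F) : cK K a ∈ Oloc K π hi := algebraMap_mem_Oloc K π hi (C a)

theorem tv_mem : tv (F := F) K ∈ Oloc K π hi := algebraMap_mem_Oloc K π hi X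

theorem inv_mem_Oloc {f : F[X]} (hf : ¬ π ∣ f) : (algebraMap F[X] K f)⁻¹ ∈ Oloc K π hi := by
  have h0 : algebraMap F[X] K f ≠ 0 := algebraMap_ne K (by rintro rfl; exact hf (dvd_zero _))
  exact ⟨1, f, hf, by rw [map_one, inv_mul_cancel₀ h0]⟩

theorem tv_inv_mem (h : ¬ π ∣ X) : (tv (F := F) K)⁻¹ ∈ Oloc K π hi := inv_mem_Oloc K hi h

theorem not_dvd_X {π : F[X]} (hi : Irreducible π) (hm : π.Monic) (h : π ≠ X) : ¬ π ∣ X := fun hd =>
  h (eq_of_monic_of_associated hm monic_X (hi.associated_of_dvd irreducible_X hd))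

theorem not_dvd_X' (a : F) : ¬ (X ^ 2 - C a : F[X]) ∣ X := by
  intro hd
  have h1 := natDegree_le_of_dvd hd X_ne_zero
  rw [natDegree_X, natDegree_X_pow_sub_C] at h1
  omega

end Mem

section Surf

variable {k : Type u} (F K : Type u) [Field k] [Field F] [Field K] [Algebra k[X] F]
  [IsFractionRing k[X] F] [Algebra F[X] K] [IsFractionRing F[X] K] (p r : k)

/-- The function `h = c² + p d² - r`. -/
def hh : K := cv (k := k) F K ^ 2 + kc F K p * tv (F := F) K ^ 2 - kc F K r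

/-- The function `d h / c`. -/
def gg1 : K := tv (F := F) K * hh F K p r / cv (k := k) F K

/-- The function `c h / d`. -/
def gg2 : K := cv (k := k) F K * hh F K p r / tv (F := F) K

/-- The function `h² (c² - p d²) / (c d²)`. -/
def ff3 : K := hh F K p r ^ 2 * (cv (k := k) F K ^ 2 - kc F K p * tv (F := F) K ^ 2) /
  (cv (k := k) F K * tv (F := F) K ^ 2)

/-- The coordinate ring of the surface. -/
def SA : Subring K := Subring.closure (Set.range (kc (k := k) F K) ∪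
  {cv (k := k) F K, tv (F := F) K, gg1 F K p r, gg2 F K p r, ff3 F K p r})

theorem kc_mem_SA (a : k) : kc F K a ∈ SA F K p r :=
  Subring.subset_closure (Or.inl ⟨a, rfl⟩)

theorem cv_mem_SA : cv (k := k) F K ∈ SA F K p r := Subring.subset_closure (Or.inr (by simp))

theorem tv_mem_SA : tv (F := F) K ∈ SA F K p r := Subring.subset_closure (Or.inr (by simp))

theorem gg1_mem_SA : gg1 F K p r ∈ SA F K p r := Subring.subset_closure (Or.inr (by simp))

theorem gg2_mem_SA : gg2 F K p r ∈ SA F K p r := Subring.subset_closure (Or.inr (by simp))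

theorem ff3_mem_SA : ff3 F K p r ∈ SA F K p r := Subring.subset_closure (Or.inr (by simp))

theorem hh_mem_SA : hh F K p r ∈ SA F K p r :=
  sub_mem (add_mem (pow_mem (cv_mem_SA F K p r) 2)
    (mul_mem (kc_mem_SA F K p r p) (pow_mem (tv_mem_SA F K p r) 2))) (kc_mem_SA F K p r r)

theorem SA_le {S : Subring K} (θ : K →+* K) (hk : ∀ a : k, θ (kc F K a) ∈ S)
    (h1 : θ (cv (k := k) F K) ∈ S) (h2 : θ (tv (F := F) K) ∈ S) (h3 : θ (gg1 F K p r) ∈ S)
    (h4 : θ (gg2 F K p r) ∈ S) (h5 : θ (ff3 F K p r) ∈ S) :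
    ∀ a ∈ SA F K p r, θ a ∈ S := by
  have : SA F K p r ≤ S.comap θ := by
    refine Subring.closure_le.2 ?_
    rintro _ (⟨a, rfl⟩ | h)
    · exact hk a
    · simp only [Set.mem_insert_iff, Set.mem_singleton_iff] at h
      rcases h with rfl | rfl | rfl | rfl | rfl
      · exact h1
      · exact h2
      · exact h3
      · exact h4
      · exact h5
  exact this

theorem biv_mem_SA (f : k[X][X]) : biv (k := k) F K f ∈ SA F K p r := by
  have h1 : ∀ f : k[X], biv (k := k) F K (C f) ∈ SA F K p r := by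
    intro f
    induction f using Polynomial.induction_on' with
    | add p q hp hq => rw [C_add, map_add]; exact add_mem hp hq
    | monomial n a =>
      rw [← C_mul_X_pow_eq_monomial, C_mul, map_mul, C_pow, map_pow, biv_CC, biv_CX]
      exact mul_mem (kc_mem_SA F K p r a) (pow_mem (cv_mem_SA F K p r) n)
  induction f using Polynomial.induction_on' with
  | add p q hp hq => rw [map_add]; exact add_mem hp hq
  | monomial n a =>
    rw [← C_mul_X_pow_eq_monomial, map_mul, map_pow, biv_X]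
    exact mul_mem (h1 a) (pow_mem (tv_mem_SA F K p r) n)

instance : IsFractionRing (SA F K p r) K := by
  refine IsFractionRing.of_field (SA F K p r) K ?_
  intro z
  obtain ⟨f, g, _, h⟩ := biv_div_surjective (k := k) F K z
  exact ⟨⟨_, biv_mem_SA F K p r f⟩, ⟨_, biv_mem_SA F K p r g⟩, h⟩

/-- All conditions needed to compare the local rings. -/
def Good (θ : K →+* K) (π : F[X]) (hi : Irreducible π) : Prop :=
  (∀ a ∈ SA F K p r, θ a ∈ Oloc K π hi) ∧
  Quo π hi (θ.comp (SA F K p r).subtype) (cv (k := k) F K) ∧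
  Quo π hi (θ.comp (SA F K p r).subtype) (tv (F := F) K)

theorem kc_mem_Oloc {π : F[X]} (hi : Irreducible π) (a : k) : kc F K a ∈ Oloc K π hi :=
  cK_mem K hi _

theorem quo_of_mem {θ : K →+* K} {π : F[X]} {hi : Irreducible π} {x : K}
    (h : ∃ a ∈ SA F K p r, θ a = x) : Quo π hi (θ.comp (SA F K p r).subtype) x := by
  obtain ⟨a, ha, rfl⟩ := h
  refine ⟨⟨a, ha⟩, 1, ?_, 1, one_mem _, ?_⟩
  · rw [map_one, mul_one]; rfl
  · rw [map_one, mul_one]

theorem quo_mk {θ : K →+* K} {π : F[X]} {hi : Irreducible π} {x a b y : K}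
    (ha : a ∈ SA F K p r) (hb : b ∈ SA F K p r) (h1 : x * θ b = θ a) (hy : y ∈ Oloc K π hi)
    (h2 : θ b * y = 1) : Quo π hi (θ.comp (SA F K p r).subtype) x :=
  ⟨⟨a, ha⟩, ⟨b, hb⟩, h1, y, hy, h2⟩

/-- The condition holds when both coordinates are units. -/
theorem good_torus {θ : K →+* K} {π : F[X]} (hi : Irreducible π)
    (hk : ∀ a : k, θ (kc F K a) = kc F K a)
    (h1 : θ (cv (k := k) F K) ∈ Oloc K π hi) (h2 : θ (tv (F := F) K) ∈ Oloc K π hi)
    (h3 : (θ (cv (k := k) F K))⁻¹ ∈ Oloc K π hi) (h4 : (θ (tv (F := F) K))⁻¹ ∈ Oloc K π hi)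
    (h5 : ∃ a ∈ SA F K p r, θ a = cv (k := k) F K) (h6 : ∃ a ∈ SA F K p r, θ a = tv (F := F) K) :
    Good F K p r θ π hi := by
  have hk' : ∀ a : k, θ (kc F K a) ∈ Oloc K π hi := fun a => by
    rw [hk]; exact kc_mem_Oloc F K hi a
  have hH : θ (hh F K p r) ∈ Oloc K π hi := by
    unfold hh
    rw [map_sub, map_add, map_mul, map_pow, map_pow]
    exact sub_mem (add_mem (pow_mem h1 2) (mul_mem (hk' p) (pow_mem h2 2))) (hk' r)
  refine ⟨SA_le F K p r θ hk' h1 h2 ?_ ?_ ?_, quo_of_mem F K p r h5, quo_of_mem F K p r h6⟩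
  · unfold gg1
    rw [map_div₀, map_mul, div_eq_mul_inv]
    exact mul_mem (mul_mem h2 hH) h3
  · unfold gg2
    rw [map_div₀, map_mul, div_eq_mul_inv]
    exact mul_mem (mul_mem h1 hH) h4
  · unfold ff3
    rw [map_div₀, map_mul, map_mul, map_pow, map_pow, map_sub, map_pow, map_mul, map_pow,
      div_eq_mul_inv, mul_inv, ← inv_pow]
    exact mul_mem (mul_mem (pow_mem hH 2) (sub_mem (pow_mem h1 2)
      (mul_mem (hk' p) (pow_mem h2 2)))) (mul_mem h3 (pow_mem h4 2))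

theorem cv_mem_Oloc {π : F[X]} (hi : Irreducible π) : cv (k := k) F K ∈ Oloc K π hi :=
  cK_mem K hi _

theorem cv_inv_mem_Oloc {π : F[X]} (hi : Irreducible π) :
    (cv (k := k) F K)⁻¹ ∈ Oloc K π hi := by
  have : (cv (k := k) F K)⁻¹ = cK K (tv (F := k) F)⁻¹ := by rw [map_inv₀]; rfl
  rw [this]; exact cK_mem K hi _

theorem good_id {π : F[X]} (hi : Irreducible π) (hm : π.Monic) (h : π ≠ X) :
    Good F K p r (RingHom.id K) π hi :=
  good_torus F K p r hi (fun _ => rfl) (cv_mem_Oloc F K hi) (tv_mem K hi)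
    (cv_inv_mem_Oloc F K hi) (tv_inv_mem K hi (not_dvd_X hi hm h))
    ⟨_, cv_mem_SA F K p r, rfl⟩ ⟨_, tv_mem_SA F K p r, rfl⟩

theorem good_swap {π : F[X]} (hi : Irreducible π) (hm : π.Monic) (h : π ≠ X) :
    Good F K p r (swapE (k := k) F K) π hi :=
  good_torus F K p r hi (swapE_kc F K) (by rw [swapE_cv]; exact tv_mem K hi)
    (by rw [swapE_tv (k := k)]; exact cv_mem_Oloc F K hi)
    (by rw [swapE_cv]; exact tv_inv_mem K hi (not_dvd_X hi hm h))
    (by rw [swapE_tv (k := k)]; exact cv_inv_mem_Oloc F K hi)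
    ⟨_, tv_mem_SA F K p r, swapE_tv F K⟩ ⟨_, cv_mem_SA F K p r, swapE_cv F K⟩

/-- The relation between the coordinates and the uniformizer. -/
theorem pol_rel (m a : k) :
    algebraMap F[X] K ((fpol m a).map (cK (F := k) F)) =
      kc F K m * (tv (F := F) K ^ 2 - kc F K a) := by
  rw [fpol_map, map_mul, map_sub, map_pow]; rfl

theorem pol_mem {m a : k} (hi : Irreducible (X ^ 2 - C (cK F a) : F[X])) :
    algebraMap F[X] K ((fpol m a).map (cK (F := k) F)) * (cv (k := k) F K)⁻¹ ∈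
      Oloc K _ hi :=
  mul_mem (algebraMap_mem_Oloc K _ hi _) (cv_inv_mem_Oloc F K hi)

theorem pol_ne {m a : k} (hm : m ≠ 0) (ha : Irreducible (X ^ 2 - C (cK F a) : F[X])) :
    algebraMap F[X] K ((fpol m a).map (cK (F := k) F)) ≠ 0 := by
  rw [fpol_map]
  exact algebraMap_ne K (mul_ne_zero (C_ne_zero.2 ((map_ne_zero_iff _ (RingHom.injective _)).2 hm))
    ha.ne_zero)

theorem good_A (hp : p ≠ 0) (hi : Irreducible (X ^ 2 - C (cK F (r / p)) : F[X])) :
    Good F K p r (etaA F K (fpol p (r / p)) (fpol_ne hp _)) _ hi := by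
  set θ := etaA F K (fpol p (r / p)) (fpol_ne hp _) with hθ
  have hk : ∀ a : k, θ (kc F K a) = kc F K a := etaA_kc F K _ _
  have hk' : ∀ a : k, θ (kc F K a) ∈ Oloc K _ hi := fun a => by
    rw [hk]; exact kc_mem_Oloc F K hi a
  set x := cv (k := k) F K with hx
  set y := tv (F := F) K with hy
  have hx0 : x ≠ 0 := cv_ne F K
  have hy0 : y ≠ 0 := tv_ne K
  set u := θ x with hu
  have hu1 : u = algebraMap F[X] K ((fpol p (r / p)).map (cK (F := k) F)) * x⁻¹ :=
    etaA_cv F K _ _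
  have hu0 : u ≠ 0 := by
    rw [hu1]; exact mul_ne_zero (pol_ne F K hp hi) (inv_ne_zero hx0)
  have hux : u * x = kc F K p * y ^ 2 - kc F K r := by
    rw [hu1, pol_rel]
    have : kc F K r = kc F K p * kc F K (r / p) := by
      rw [← map_mul]; congr 1; field_simp
    rw [this, ← hy]
    field_simp
  have hd : θ y = y := etaA_tv F K _ _
  have hum : u ∈ Oloc K _ hi := by rw [hu1]; exact pol_mem F K hi
  have hxm : x ∈ Oloc K _ hi := cv_mem_Oloc F K hi
  have hym : y ∈ Oloc K _ hi := tv_mem K hi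
  have hyi : y⁻¹ ∈ Oloc K _ hi := tv_inv_mem K hi (not_dvd_X' _)
  have hH : θ (hh F K p r) = u * (u + x) := by
    unfold hh
    rw [map_sub, map_add, map_mul, map_pow, map_pow, hk, hk, ← hx, ← hy, ← hu, hd]
    linear_combination -hux
  have h3 : θ (gg1 F K p r) = y * (u + x) := by
    unfold gg1
    rw [map_div₀, map_mul, hH, ← hx, ← hy, ← hu, hd]
    field_simp
  have h4 : θ (gg2 F K p r) = u * (u * (u + x)) * y⁻¹ := by
    unfold gg2
    rw [map_div₀, map_mul, hH, ← hx, ← hy, ← hu, hd]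
    field_simp
  have h5 : θ (ff3 F K p r) = u * (u + x) ^ 2 * (u ^ 2 - kc F K p * y ^ 2) * (y⁻¹) ^ 2 := by
    unfold ff3
    rw [map_div₀, map_mul, map_mul, map_pow, map_pow, map_sub, map_pow, map_mul, map_pow, hH,
      ← hx, ← hy, ← hu, hd, hk]
    field_simp
  refine ⟨SA_le F K p r θ hk' hum (by rw [← hy, hd]; exact hym) ?_ ?_ ?_, ?_, ?_⟩
  · rw [h3]; exact mul_mem hym (add_mem hum hxm)
  · rw [h4]; exact mul_mem (mul_mem hum (mul_mem hum (add_mem hum hxm))) hyi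
  · rw [h5]
    exact mul_mem (mul_mem (mul_mem hum (pow_mem (add_mem hum hxm) 2))
      (sub_mem (pow_mem hum 2) (mul_mem (kc_mem_Oloc F K hi p) (pow_mem hym 2)))) (pow_mem hyi 2)
  · refine quo_mk F K p r (a := gg1 F K p r - x * y) (b := y) (y := y⁻¹)
      (sub_mem (gg1_mem_SA F K p r) (mul_mem (cv_mem_SA F K p r) (tv_mem_SA F K p r)))
      (tv_mem_SA F K p r) ?_ hyi ?_
    · rw [map_sub, map_mul, h3, hd, ← hu]
      ring
    · rw [hd, mul_inv_cancel₀ hy0]
  · exact quo_of_mem F K p r ⟨_, tv_mem_SA F K p r, hd⟩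

theorem good_B (hi : Irreducible (X ^ 2 - C (cK F r) : F[X])) :
    Good F K p r (etaB F K (fpol 1 r) (fpol_ne one_ne_zero _)) _ hi := by
  set θ := etaB F K (fpol 1 r) (fpol_ne one_ne_zero _) with hθ
  have hk : ∀ a : k, θ (kc F K a) = kc F K a := etaB_kc F K _ _
  have hk' : ∀ a : k, θ (kc F K a) ∈ Oloc K _ hi := fun a => by
    rw [hk]; exact kc_mem_Oloc F K hi a
  set x := cv (k := k) F K with hx
  set y := tv (F := F) K with hy
  have hx0 : x ≠ 0 := cv_ne F K
  have hy0 : y ≠ 0 := tv_ne K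
  set u := θ y with hu
  have hu1 : u = algebraMap F[X] K ((fpol 1 r).map (cK (F := k) F)) * x⁻¹ :=
    etaB_tv F K _ _
  have hu0 : u ≠ 0 := by
    rw [hu1]; exact mul_ne_zero (pol_ne F K one_ne_zero hi) (inv_ne_zero hx0)
  have hux : u * x = y ^ 2 - kc F K r := by
    rw [hu1, pol_rel, map_one, one_mul, ← hy]
    field_simp
  have hc : θ x = y := etaB_cv F K _ _
  have hum : u ∈ Oloc K _ hi := by rw [hu1]; exact pol_mem F K hi
  have hxm : x ∈ Oloc K _ hi := cv_mem_Oloc F K hi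
  have hym : y ∈ Oloc K _ hi := tv_mem K hi
  have hyi : y⁻¹ ∈ Oloc K _ hi := tv_inv_mem K hi (not_dvd_X' _)
  have hpm : kc F K p ∈ Oloc K _ hi := kc_mem_Oloc F K hi p
  have hH : θ (hh F K p r) = u * (x + kc F K p * u) := by
    unfold hh
    rw [map_sub, map_add, map_mul, map_pow, map_pow, hk, hk, ← hx, ← hy, ← hu, hc]
    linear_combination -hux
  have h3 : θ (gg1 F K p r) = u * (u * (x + kc F K p * u)) * y⁻¹ := by
    unfold gg1
    rw [map_div₀, map_mul, hH, ← hx, ← hy, ← hu, hc]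
    field_simp
  have h4 : θ (gg2 F K p r) = y * (x + kc F K p * u) := by
    unfold gg2
    rw [map_div₀, map_mul, hH, ← hx, ← hy, ← hu, hc]
    field_simp
  have h5 : θ (ff3 F K p r) = (x + kc F K p * u) ^ 2 * (y ^ 2 - kc F K p * u ^ 2) * y⁻¹ := by
    unfold ff3
    rw [map_div₀, map_mul, map_mul, map_pow, map_pow, map_sub, map_pow, map_mul, map_pow, hH,
      ← hx, ← hy, ← hu, hc, hk]
    field_simp
  have hs : x + kc F K p * u ∈ Oloc K _ hi := add_mem hxm (mul_mem hpm hum)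
  refine ⟨SA_le F K p r θ hk' (by rw [← hx, hc]; exact hym) hum ?_ ?_ ?_, ?_, ?_⟩
  · rw [h3]; exact mul_mem (mul_mem hum (mul_mem hum hs)) hyi
  · rw [h4]; exact mul_mem hym hs
  · rw [h5]
    exact mul_mem (mul_mem (pow_mem hs 2)
      (sub_mem (pow_mem hym 2) (mul_mem hpm (pow_mem hum 2)))) hyi
  · refine quo_mk F K p r (a := gg2 F K p r - kc F K p * (x * y)) (b := x) (y := y⁻¹)
      (sub_mem (gg2_mem_SA F K p r)
        (mul_mem (kc_mem_SA F K p r p) (mul_mem (cv_mem_SA F K p r) (tv_mem_SA F K p r))))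
      (cv_mem_SA F K p r) ?_ hyi ?_
    · rw [map_sub, map_mul, map_mul, h4, hc, hk, ← hu]
      ring
    · rw [hc, mul_inv_cancel₀ hy0]
  · exact quo_of_mem F K p r ⟨_, cv_mem_SA F K p r, hc⟩

theorem good_C (hr : r ≠ 0) (hi : Irreducible (X ^ 2 - C (cK F p) : F[X])) :
    Good F K p r (etaC F K (fpol 1 p) (fpol_ne one_ne_zero _)) _ hi := by
  set θ := etaC F K (fpol 1 p) (fpol_ne one_ne_zero _) with hθ
  have hk : ∀ a : k, θ (kc F K a) = kc F K a := etaC_kc F K _ _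
  have hk' : ∀ a : k, θ (kc F K a) ∈ Oloc K _ hi := fun a => by
    rw [hk]; exact kc_mem_Oloc F K hi a
  set x := cv (k := k) F K with hx
  set y := tv (F := F) K with hy
  have hx0 : x ≠ 0 := cv_ne F K
  have hy0 : y ≠ 0 := tv_ne K
  set u := θ y with hu
  have hu1 : u = algebraMap F[X] K ((fpol 1 p).map (cK (F := k) F)) * x⁻¹ :=
    etaC_tv F K _ _
  have hu0 : u ≠ 0 := by
    rw [hu1]; exact mul_ne_zero (pol_ne F K one_ne_zero hi) (inv_ne_zero hx0)
  have hux : u * x = y ^ 2 - kc F K p := by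
    rw [hu1, pol_rel, map_one, one_mul, ← hy]
    field_simp
  have hc : θ x = y * u := by rw [hu1]; exact etaC_cv F K _ _
  have hum : u ∈ Oloc K _ hi := by rw [hu1]; exact pol_mem F K hi
  have hxm : x ∈ Oloc K _ hi := cv_mem_Oloc F K hi
  have hym : y ∈ Oloc K _ hi := tv_mem K hi
  have hyi : y⁻¹ ∈ Oloc K _ hi := tv_inv_mem K hi (not_dvd_X' _)
  have hpm : kc F K p ∈ Oloc K _ hi := kc_mem_Oloc F K hi p
  have hrm : kc F K r ∈ Oloc K _ hi := kc_mem_Oloc F K hi r
  obtain ⟨H, hHd⟩ : ∃ H : K, H = θ (hh F K p r) := ⟨_, rfl⟩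
  have hH : H = u * (u * (y ^ 2 + kc F K p)) - kc F K r := by
    rw [hHd]
    unfold hh
    rw [map_sub, map_add, map_mul, map_pow, map_pow, hk, hk, ← hx, ← hy, ← hu, hc]
    ring
  have hHm : H ∈ Oloc K _ hi := by
    rw [hH]
    exact sub_mem (mul_mem hum (mul_mem hum (add_mem (pow_mem hym 2) hpm))) hrm
  have hun : (⟨u, hum⟩ : Oloc K _ hi) ∈ maximalIdeal (Oloc K _ hi) := by
    have h1 : (⟨u, hum⟩ : Oloc K _ hi) =
        algebraMap F[X] (Oloc K _ hi) (X ^ 2 - C (cK F p)) * ⟨x⁻¹, cv_inv_mem_Oloc F K hi⟩ := by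
      ext
      change u = algebraMap F[X] K (X ^ 2 - C (cK F p)) * x⁻¹
      rw [hu1, fpol_map, map_one, C_1, one_mul]
    rw [h1]
    exact Ideal.mul_mem_right _ _ ((mem_max_iff K _ hi _).2 dvd_rfl)
  have hrU : IsUnit (⟨kc F K r, hrm⟩ : Oloc K _ hi) := by
    refine isUnit_iff_exists_inv.2 ⟨⟨kc F K r⁻¹, kc_mem_Oloc F K hi _⟩, ?_⟩
    ext
    change kc F K r * kc F K r⁻¹ = 1
    rw [← map_mul, mul_inv_cancel₀ hr, map_one]
  have hHU : IsUnit (⟨H, hHm⟩ : Oloc K _ hi) := by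
    by_contra hcon
    have h1 : (⟨H, hHm⟩ : Oloc K _ hi) ∈ maximalIdeal (Oloc K _ hi) := (mem_maximalIdeal _).2 hcon
    have h2 : (⟨kc F K r, hrm⟩ : Oloc K _ hi) =
        ⟨u, hum⟩ * (⟨u, hum⟩ * (⟨y, hym⟩ ^ 2 + ⟨kc F K p, hpm⟩)) - ⟨H, hHm⟩ := by
      ext
      change kc F K r = u * (u * (y ^ 2 + kc F K p)) - H
      rw [hH]; ring
    have h3 : (⟨kc F K r, hrm⟩ : Oloc K _ hi) ∈ maximalIdeal (Oloc K _ hi) := by
      rw [h2]
      exact sub_mem (Ideal.mul_mem_right _ _ hun) h1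
    exact (mem_maximalIdeal _).1 h3 hrU
  obtain ⟨H', hH'm, hH'⟩ := (isUnit_iff_exists_mem hHm).1 hHU
  have h3 : θ (gg1 F K p r) = H * y⁻¹ := by
    unfold gg1
    rw [map_div₀, map_mul, ← hHd, ← hx, ← hy, ← hu, hc]
    field_simp
  have h4 : θ (gg2 F K p r) = y * H := by
    unfold gg2
    rw [map_div₀, map_mul, ← hHd, ← hx, ← hy, ← hu, hc]
    field_simp
  have h5 : θ (ff3 F K p r) = H ^ 2 * x * y⁻¹ := by
    unfold ff3
    rw [map_div₀, map_mul, map_mul, map_pow, map_pow, map_sub, map_pow, map_mul, map_pow, ← hHd,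
      ← hx, ← hy, ← hu, hc, hk]
    have h6 : (y * u) ^ 2 - kc F K p * u ^ 2 = u ^ 2 * (u * x) := by
      rw [hux]; ring
    rw [h6]
    field_simp
  refine ⟨SA_le F K p r θ hk' (by rw [← hx, hc]; exact mul_mem hym hum) hum ?_ ?_ ?_, ?_, ?_⟩
  · rw [h3]; exact mul_mem hHm hyi
  · rw [h4]; exact mul_mem hym hHm
  · rw [h5]; exact mul_mem (mul_mem (pow_mem hHm 2) hxm) hyi
  · refine quo_mk F K p r (a := ff3 F K p r * gg2 F K p r) (b := hh F K p r ^ 3) (y := H' ^ 3)
      (mul_mem (ff3_mem_SA F K p r) (gg2_mem_SA F K p r))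
      (pow_mem (hh_mem_SA F K p r) 3) ?_ (pow_mem hH'm 3) ?_
    · rw [map_mul, map_pow, h4, h5, ← hHd, ← hx]
      field_simp
    · rw [map_pow, ← hHd, ← mul_pow, hH', one_pow]
  · refine quo_mk F K p r (a := gg2 F K p r) (b := hh F K p r) (y := H')
      (gg2_mem_SA F K p r) (hh_mem_SA F K p r) ?_ hH'm ?_
    · rw [h4, ← hHd]
    · rw [← hHd, hH']

end Surf

end Pool.Agent.TH132.W
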